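import Pool.Agent.H392R3.Rec

/-!
# Families given by integer data
-/

set_option linter.unusedSectionVars false
set_option linter.unusedVariables false
set_option linter.unusedSimpArgs false

open Module Finset Filter Topology

namespace Pool.Agent.H392R3

/-- evaluation of an integer affine functional -/
noncomputable def evZ {D : ℕ} (G : Fin (D + 1) → ℤ) (x : Fin D → ℝ) : ℝ :=
  ∑ m : Fin D, (G m.castSucc : ℝ) * x m + (G (Fin.last D) : ℝ)

/-- point with homogeneous integer coordinates -/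
noncomputable def pt {D : ℕ} (X : Fin (D + 1) → ℤ) : Fin D → ℝ :=
  fun m => (X m.castSucc : ℝ) / (X (Fin.last D) : ℝ)

lemma evZ_pt {D : ℕ} (G X : Fin (D + 1) → ℤ) (h : 0 < X (Fin.last D)) :
    evZ G (pt X) = ((∑ m, G m * X m : ℤ) : ℝ) / (X (Fin.last D) : ℝ) := by
  have h1 : (0:ℝ) < (X (Fin.last D) : ℝ) := by exact_mod_cast h
  rw [Fin.sum_univ_castSucc]
  push_cast
  rw [add_div, Finset.sum_div]
  simp only [evZ, pt]
  congr 1
  · apply Finset.sum_congr rfl
    intro m _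
    ring
  · field_simp

lemma evZ_pt_pos {D : ℕ} {G X : Fin (D + 1) → ℤ} (h : 0 < X (Fin.last D))
    (h2 : 0 < ∑ m, G m * X m) : 0 < evZ G (pt X) := by
  rw [evZ_pt G X h]
  have h1 : (0:ℝ) < (X (Fin.last D) : ℝ) := by exact_mod_cast h
  have h3 : (0:ℝ) < ((∑ m, G m * X m : ℤ) : ℝ) := by exact_mod_cast h2
  positivity

lemma evZ_pt_zero {D : ℕ} {G X : Fin (D + 1) → ℤ} (h : 0 < X (Fin.last D))
    (h2 : ∑ m, G m * X m = 0) : evZ G (pt X) = 0 := by
  rw [evZ_pt G X h, h2]; simp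

lemma evZ_aff {D : ℕ} (G : Fin (D + 1) → ℤ) : IsAff (evZ G) := by
  refine ⟨∑ m : Fin D, (G m.castSucc : ℝ) • LinearMap.proj m, (G (Fin.last D) : ℝ), fun x => ?_⟩
  simp [evZ, LinearMap.sum_apply]

lemma evZ_neg {D : ℕ} (G : Fin (D + 1) → ℤ) (x : Fin D → ℝ) :
    evZ (fun m => - G m) x = - evZ G x := by
  simp only [evZ]
  push_cast
  simp only [neg_mul, Finset.sum_neg_distrib]
  ring

lemma evZ_comb {D : ℕ} {K : Type*} [Fintype K] (a : K → ℤ) (G : K → Fin (D + 1) → ℤ)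
    (x : Fin D → ℝ) : ∑ k, (a k : ℝ) * evZ (G k) x = evZ (fun m => ∑ k, a k * G k m) x := by
  simp only [evZ, mul_add, Finset.sum_add_distrib]
  push_cast
  congr 1
  simp only [Finset.mul_sum, Finset.sum_mul]
  rw [Finset.sum_comm]
  apply Finset.sum_congr rfl
  intro m _
  apply Finset.sum_congr rfl
  intro k _
  ring

lemma evZ_last {D : ℕ} (c : ℤ) (x : Fin D → ℝ) :
    evZ (fun m => if Fin.last D = m then c else 0) x = c := by
  simp only [evZ]
  rw [Finset.sum_eq_zero]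
  · simp
  · intro m _
    rw [if_neg (Fin.castSucc_lt_last m).ne']
    simp

lemma evZ_coord {D : ℕ} (c : ℤ) (m0 : Fin D) (x : Fin D → ℝ) :
    evZ (fun m => if m0.castSucc = m then c else 0) x = c * x m0 := by
  simp only [evZ]
  rw [if_neg (Fin.castSucc_lt_last m0).ne, Finset.sum_eq_single m0]
  · simp
  · intro m _ hm
    rw [if_neg]
    · simp
    · intro h
      exact hm (Fin.castSucc_injective D h).symm
  · intro h; exact absurd (Finset.mem_univ m0) h

/-- the simplex conditions from an adjugate certificate -/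
lemma simplex_of_cert {D : ℕ} {K : Type*} [Fintype K] (G : K → Fin (D + 1) → ℤ)
    (A : Fin (D + 1) → K → ℤ) (den : ℤ) (hden : 0 < den)
    (hA : ∀ m m', ∑ k, A m k * G k m' = if m = m' then den else 0)
    (hlam : ∀ k, 0 < A (Fin.last D) k) :
    (∃ lam : K → ℝ, (∀ k, 0 < lam k) ∧ ∀ x, ∑ k, lam k * evZ (G k) x = 1) ∧
    ∀ x y, (∀ k, evZ (G k) x = evZ (G k) y) → x = y := by
  have hd : (0:ℝ) < (den : ℝ) := by exact_mod_cast hden
  have hkey : ∀ m x, ∑ k, (A m k : ℝ) * evZ (G k) x =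
      evZ (fun m' => if m = m' then den else 0) x := by
    intro m x
    rw [evZ_comb]
    simp only [hA]
  constructor
  · refine ⟨fun k => (A (Fin.last D) k : ℝ) / den, fun k => ?_, fun x => ?_⟩
    · have : (0:ℝ) < (A (Fin.last D) k : ℝ) := by exact_mod_cast hlam k
      positivity
    · have h1 := hkey (Fin.last D) x
      rw [evZ_last] at h1
      have h2 : ∀ k, (A (Fin.last D) k : ℝ) / den * evZ (G k) x =
          ((A (Fin.last D) k : ℝ) * evZ (G k) x) / den := fun k => by ring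
      simp only [h2]
      rw [← Finset.sum_div, h1]
      exact div_self hd.ne'
  · intro x y hxy
    funext m0
    have h1 := hkey m0.castSucc x
    have h2 := hkey m0.castSucc y
    rw [evZ_coord] at h1 h2
    simp only [hxy] at h1
    rw [h1] at h2
    exact mul_left_cancel₀ hd.ne' h2

theorem ccBase {N D : ℕ} (G : Fin N → Fin N → Fin (D + 1) → ℤ)
    (A : Fin N → Fin (D + 1) → Fin N → ℤ) (den : Fin N → ℤ) (X : Fin N → Fin N → Fin (D + 1) → ℤ)
    (hanti : ∀ i j m, G j i m = - G i j m)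
    (hden : ∀ i, 0 < den i)
    (hA : ∀ i m m', ∑ j, A i m j * G i j m' = if m = m' then den i else 0)
    (hlam : ∀ i j, 0 < A i (Fin.last D) j)
    (hX : ∀ i j, 0 < X i j (Fin.last D))
    (hcon : ∀ i j, i ≠ j → ∑ m, G i j m * X i j m = 0 ∧ ∀ k, k ≠ i → k ≠ j →
      0 < ∑ m, G i k m * X i j m ∧ 0 < ∑ m, G j k m * X i j m) :
    CC (fun i j => evZ (G i j)) where
  aff := fun i j => evZ_aff _
  diag := by
    intro i x
    have : G i i = fun m => - G i i m := by funext m; exact hanti i i m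
    have h1 : evZ (G i i) x = - evZ (G i i) x := by
      conv_lhs => rw [this]
      exact evZ_neg _ _
    linarith
  anti := by
    intro i j x
    have : G j i = fun m => - G i j m := by funext m; exact hanti i j m
    rw [this]
    exact evZ_neg _ _
  bary := fun i => (simplex_of_cert (G i) (A i) (den i) (hden i) (hA i) (hlam i)).1
  inj := fun i => (simplex_of_cert (G i) (A i) (den i) (hden i) (hA i) (hlam i)).2
  con := by
    intro i j hij
    obtain ⟨h1, h2⟩ := hcon i j hij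
    refine ⟨pt (X i j), evZ_pt_zero (hX i j) h1, fun k hki hkj => ?_⟩
    obtain ⟨h3, h4⟩ := h2 k hki hkj
    exact ⟨evZ_pt_pos (hX i j) h3, evZ_pt_pos (hX i j) h4⟩

theorem ccBase_slice {N D : ℕ} (G : Fin N → Fin N → Fin (D + 1) → ℤ)
    (X : Fin N → Fin N → Fin (D + 1) → ℤ)
    (hX : ∀ i j, 0 < X i j (Fin.last D))
    (hcon : ∀ i j, i ≠ j → ∑ m, G i j m * X i j m = 0 ∧ ∀ k, k ≠ i → k ≠ j →
      0 < ∑ m, G i k m * X i j m ∧ 0 < ∑ m, G j k m * X i j m) (t a b : Fin N)
    (hs : ∀ k, k ≠ t → k ≠ a → k ≠ b → ∑ m, G t a m * X t k m = ∑ m, G t b m * X t k m) :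
    CCSlice (fun i j => evZ (G i j)) t a b 1 := by
  intro k hkt hka hkb
  obtain ⟨h1, h2⟩ := hcon t k (Ne.symm hkt)
  refine ⟨pt (X t k), evZ_pt_zero (hX t k) h1, ?_, ?_⟩
  · simp only
    rw [evZ_pt _ _ (hX t k), evZ_pt _ _ (hX t k), hs k hkt hka hkb, one_mul]
  · intro m hmt hmk
    obtain ⟨h3, h4⟩ := h2 m hmt hmk
    exact ⟨evZ_pt_pos (hX t k) h3, evZ_pt_pos (hX t k) h4⟩

theorem algBase {N D : ℕ} (G : Fin N → Fin (D + 1) → Fin (D + 1) → ℤ)
    (A : Fin N → Fin (D + 1) → Fin (D + 1) → ℤ) (den : Fin N → ℤ)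
    (X : Fin N → Fin (D + 1) → Fin (D + 1) → ℤ) (nb : Fin N → Fin (D + 1) → Fin N)
    (fb : Fin N → Fin (D + 1) → Fin (D + 1)) (C : Fin N → Fin N → Fin (D + 1) → ℤ)
    (hden : ∀ i, 0 < den i)
    (hA : ∀ i m m', ∑ j, A i m j * G i j m' = if m = m' then den i else 0)
    (hlam : ∀ i j, 0 < A i (Fin.last D) j)
    (hX : ∀ i j, 0 < X i j (Fin.last D))
    (hnb : ∀ i k, nb i k ≠ i)
    (hneg : ∀ i k m, G (nb i k) (fb i k) m = - G i k m)
    (hcon : ∀ i k, ∑ m, G i k m * X i k m = 0 ∧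
      (∀ l, l ≠ k → 0 < ∑ m, G i l m * X i k m) ∧
      ∀ l, l ≠ fb i k → 0 < ∑ m, G (nb i k) l m * X i k m)
    (hC0 : ∀ i j k, 0 ≤ C i j k) (hC1 : ∀ i j, i ≠ j → 0 < ∑ k, C i j k)
    (hC2 : ∀ i j, i ≠ j → ∀ m : Fin D, ∑ k, C i j k * G i k m.castSucc +
      ∑ k, C j i k * G j k m.castSucc = 0)
    (hC3 : ∀ i j, i ≠ j → ∑ k, C i j k * G i k (Fin.last D) +
      ∑ k, C j i k * G j k (Fin.last D) ≤ 0) :
    AlgT (fun i k => evZ (G i k)) where
  simp := fun i => ⟨fun k => evZ_aff _,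
    (simplex_of_cert (G i) (A i) (den i) (hden i) (hA i) (hlam i)).1,
    (simplex_of_cert (G i) (A i) (den i) (hden i) (hA i) (hlam i)).2⟩
  sep := by
    rintro i j hij ⟨x, h1, h2⟩
    have e1 : 0 < ∑ k, (C i j k : ℝ) * evZ (G i k) x := by
      obtain ⟨k, -, hk⟩ : ∃ k ∈ univ, 0 < C i j k := by
        by_contra hno
        push Not at hno
        have : ∑ k, C i j k ≤ 0 := Finset.sum_nonpos (fun k hk => hno k hk)
        have := hC1 i j hij
        omega
      apply Finset.sum_pos'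
      · intro l _
        have a1 : (0:ℝ) ≤ (C i j l : ℝ) := by exact_mod_cast hC0 i j l
        exact mul_nonneg a1 (h1 l).le
      · refine ⟨k, Finset.mem_univ _, ?_⟩
        have a1 : (0:ℝ) < (C i j k : ℝ) := by exact_mod_cast hk
        exact mul_pos a1 (h1 k)
    have e2 : 0 ≤ ∑ k, (C j i k : ℝ) * evZ (G j k) x := by
      apply Finset.sum_nonneg
      intro l _
      have a1 : (0:ℝ) ≤ (C j i l : ℝ) := by exact_mod_cast hC0 j i l
      exact mul_nonneg a1 (h2 l).le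
    rw [evZ_comb] at e1 e2
    have e3 : evZ (fun m => ∑ k, C i j k * G i k m) x + evZ (fun m => ∑ k, C j i k * G j k m) x
        ≤ 0 := by
      simp only [evZ]
      have a1 : ∑ m : Fin D, ((∑ k, C i j k * G i k m.castSucc : ℤ) : ℝ) * x m +
          ∑ m : Fin D, ((∑ k, C j i k * G j k m.castSucc : ℤ) : ℝ) * x m = 0 := by
        rw [← Finset.sum_add_distrib]
        apply Finset.sum_eq_zero
        intro m _
        rw [← add_mul]
        have := hC2 i j hij m
        have a2 : ((∑ k, C i j k * G i k m.castSucc : ℤ) : ℝ) +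
          ((∑ k, C j i k * G j k m.castSucc : ℤ) : ℝ) = 0 := by exact_mod_cast this
        rw [a2, zero_mul]
      have a3 : ((∑ k, C i j k * G i k (Fin.last D) : ℤ) : ℝ) +
          ((∑ k, C j i k * G j k (Fin.last D) : ℤ) : ℝ) ≤ 0 := by exact_mod_cast hC3 i j hij
      linarith
    linarith
  con := by
    intro i k
    obtain ⟨h1, h2, h3⟩ := hcon i k
    refine ⟨nb i k, hnb i k, fb i k, ?_, pt (X i k), evZ_pt_zero (hX i k) h1, ?_, ?_⟩
    · intro x
      have : G (nb i k) (fb i k) = fun m => - G i k m := by funext m; exact hneg i k m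
      simp only
      rw [this]
      exact evZ_neg _ _
    · intro m hm
      exact evZ_pt_pos (hX i k) (h2 m hm)
    · intro m hm
      exact evZ_pt_pos (hX i k) (h3 m hm)

theorem algBase_slice {N D : ℕ} (G : Fin N → Fin (D + 1) → Fin (D + 1) → ℤ)
    (X : Fin N → Fin (D + 1) → Fin (D + 1) → ℤ) (nb : Fin N → Fin (D + 1) → Fin N)
    (fb : Fin N → Fin (D + 1) → Fin (D + 1))
    (hX : ∀ i j, 0 < X i j (Fin.last D))
    (hnb : ∀ i k, nb i k ≠ i)
    (hneg : ∀ i k m, G (nb i k) (fb i k) m = - G i k m)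
    (hcon : ∀ i k, ∑ m, G i k m * X i k m = 0 ∧
      (∀ l, l ≠ k → 0 < ∑ m, G i l m * X i k m) ∧
      ∀ l, l ≠ fb i k → 0 < ∑ m, G (nb i k) l m * X i k m)
    (t : Fin N) (a b : Fin (D + 1))
    (hs : ∀ k, k ≠ a → k ≠ b → ∑ m, G t a m * X t k m = ∑ m, G t b m * X t k m) :
    Slice (fun i k => evZ (G i k)) t a b 1 := by
  intro k hka hkb
  obtain ⟨h1, h2, h3⟩ := hcon t k
  refine ⟨nb t k, hnb t k, fb t k, ?_, pt (X t k), evZ_pt_zero (hX t k) h1, ?_, ?_, ?_⟩
  · intro x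
    have : G (nb t k) (fb t k) = fun m => - G t k m := by funext m; exact hneg t k m
    simp only
    rw [this]
    exact evZ_neg _ _
  · simp only
    rw [evZ_pt _ _ (hX t k), evZ_pt _ _ (hX t k), hs k hka hkb, one_mul]
  · intro m hm
    exact evZ_pt_pos (hX t k) (h2 m hm)
  · intro m hm
    exact evZ_pt_pos (hX t k) (h3 m hm)

end Pool.Agent.H392R3
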