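import Pool.Agent.H392R3.Cut

/-!
# Complete contact families
-/

set_option linter.unusedSectionVars false
set_option linter.unusedVariables false

open Module Finset Filter Topology

namespace Pool.Agent.H392R3

variable {V : Type*} [AddCommGroup V] [Module ℝ V] {ι : Type*} [Fintype ι]

/-- A complete contact family: `g i j` is the facet function of member `i` towards member `j`. -/
structure CC (g : ι → ι → V → ℝ) : Prop where
  aff : ∀ i j, IsAff (g i j)
  diag : ∀ i x, g i i x = 0
  anti : ∀ i j x, g j i x = - g i j x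
  bary : ∀ i, ∃ lam : ι → ℝ, (∀ j, 0 < lam j) ∧ ∀ x, ∑ j, lam j * g i j x = 1
  inj : ∀ i x y, (∀ j, g i j x = g i j y) → x = y
  con : ∀ i j, i ≠ j → ∃ x, g i j x = 0 ∧ ∀ k, k ≠ i → k ≠ j → 0 < g i k x ∧ 0 < g j k x

/-- slice data for a complete contact family -/
def CCSlice (g : ι → ι → V → ℝ) (t a b : ι) (θ : ℝ) : Prop :=
  ∀ k, k ≠ t → k ≠ a → k ≠ b → ∃ x, g t k x = 0 ∧ g t a x = θ * g t b x ∧
    ∀ m, m ≠ t → m ≠ k → 0 < g t m x ∧ 0 < g k m x

variable {g : ι → ι → V → ℝ} [DecidableEq ι]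

lemma sum_ne (i : ι) (F : ι → ℝ) (h : F i = 0) : ∑ k : {j // j ≠ i}, F k.1 = ∑ j, F j := by
  rw [← Finset.add_sum_erase univ _ (Finset.mem_univ i), h, zero_add]
  rw [Finset.sum_subtype (univ.erase i) (p := fun j => j ≠ i) (by simp)]

lemma CC.simplexOn (h : CC g) (i : ι) :
    AlgSimplex (fun (k : {j // j ≠ i}) (x : V) => g i k.1 x) where
  aff := fun k => h.aff i k.1
  bary := by
    obtain ⟨lam, hpos, hlam⟩ := h.bary i
    refine ⟨fun k => lam k.1, fun k => hpos _, fun x => ?_⟩
    rw [sum_ne i (fun j => lam j * g i j x) (by simp [h.diag])]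
    exact hlam x
  inj := by
    intro x y hxy
    apply h.inj i
    intro j
    by_cases hj : j = i
    · rw [hj, h.diag, h.diag]
    · exact hxy ⟨j, hj⟩

lemma card_ne (i : ι) : Fintype.card {j // j ≠ i} + 1 = Fintype.card ι := by
  have h2 : Fintype.card {j // j ≠ i} = Fintype.card ι - 1 := by
    rw [Fintype.card_subtype_compl, Fintype.card_subtype_eq]
  have h3 : 0 < Fintype.card ι := Fintype.card_pos_iff.mpr ⟨i⟩
  omega

lemma CC.surj [FiniteDimensional ℝ V] (h : CC g) (hc : Fintype.card ι = finrank ℝ V + 2) (i : ι)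
    (lam : ι → ℝ) (hpos : ∀ j, 0 < lam j) (hlam : ∀ x, ∑ j, lam j * g i j x = 1) (t : ι → ℝ)
    (ht0 : t i = 0) (ht : ∑ j, lam j * t j = 1) : ∃ x, ∀ j, g i j x = t j := by
  have hc' : Fintype.card {j // j ≠ i} = finrank ℝ V + 1 := by
    have := card_ne i
    omega
  obtain ⟨x, hx⟩ := (h.simplexOn i).surj hc' (fun k => lam k.1) (fun k => hpos _) (fun x => by
    rw [sum_ne i (fun j => lam j * g i j x) (by simp [h.diag])]
    exact hlam x) (fun k => t k.1) (by
    rw [sum_ne i (fun j => lam j * t j) (by simp [ht0])]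
    exact ht)
  refine ⟨x, fun j => ?_⟩
  by_cases hj : j = i
  · rw [hj, h.diag, ht0]
  · exact hx ⟨j, hj⟩

lemma CC.vertex [FiniteDimensional ℝ V] (h : CC g) (hc : Fintype.card ι = finrank ℝ V + 2)
    (i k : ι) (hk : k ≠ i) : ∃ v, (∀ m, m ≠ k → g i m v = 0) ∧ 0 < g i k v := by
  obtain ⟨lam, hpos, hlam⟩ := h.bary i
  obtain ⟨v, hv⟩ := h.surj hc i lam hpos hlam (fun m => if m = k then 1 / lam k else 0)
    (by simp [hk.symm]) (by
    simp only [mul_ite, mul_zero, Finset.sum_ite_eq', Finset.mem_univ, if_true]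
    have := hpos k
    field_simp)
  refine ⟨v, fun m hm => ?_, ?_⟩
  · rw [hv, if_neg hm]
  · rw [hv, if_pos rfl]
    have := hpos k
    positivity

lemma AlgSimplex.expand [FiniteDimensional ℝ V] {K : Type*} [Fintype K] {f : K → V → ℝ}
    (h : AlgSimplex f) (hc : Fintype.card K = finrank ℝ V + 1) {F : V → ℝ} (hF : IsAff F) :
    ∃ φ : K → ℝ, ∀ x, F x = ∑ k, φ k * f k x := by
  classical
  obtain ⟨lam, hpos, hlam⟩ := h.bary
  have hv : ∀ k, ∃ v, ∀ m, f m v = if m = k then 1 / lam k else 0 := by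
    intro k
    apply h.surj hc lam hpos hlam
    simp only [mul_ite, mul_zero, Finset.sum_ite_eq', Finset.mem_univ, if_true]
    have := hpos k
    field_simp
  choose v hv using hv
  refine ⟨fun k => lam k * F (v k), fun x => ?_⟩
  have hx : ∑ k, (lam k * f k x) • v k = x := by
    apply h.inj
    intro m
    rw [(h.aff m).sum_eq _ (hlam x)]
    simp only [hv, mul_ite, mul_zero, Finset.sum_ite_eq, Finset.mem_univ, if_true]
    have := hpos m
    field_simp
  conv_lhs => rw [← hx]
  rw [hF.sum_eq _ (hlam x)]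
  apply Finset.sum_congr rfl
  intro k _
  ring

lemma CC.expand [FiniteDimensional ℝ V] (h : CC g) (hc : Fintype.card ι = finrank ℝ V + 2)
    (i : ι) {F : V → ℝ} (hF : IsAff F) : ∃ φ : ι → ℝ, ∀ x, F x = ∑ j, φ j * g i j x := by
  have hc' : Fintype.card {j // j ≠ i} = finrank ℝ V + 1 := by
    have := card_ne i
    omega
  obtain ⟨φ, hφ⟩ := (h.simplexOn i).expand hc' hF
  refine ⟨fun j => if hj : j ≠ i then φ ⟨j, hj⟩ else 0, fun x => ?_⟩
  rw [hφ, ← sum_ne i _ (by simp)]
  apply Finset.sum_congr rfl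
  rintro ⟨k, hk⟩ _
  simp [hk]

/-- A complete contact family is tangled. -/
theorem CC.algT [FiniteDimensional ℝ V] {d : ℕ} (h : CC g) (hV : finrank ℝ V = d)
    (e : ∀ i, Fin (d + 1) ≃ {j // j ≠ i}) :
    AlgT (fun (i : ι) (k : Fin (d + 1)) (x : V) => g i (e i k).1 x) where
  simp := by
    intro i
    have hs := h.simplexOn i
    refine ⟨fun k => h.aff _ _, ?_, ?_⟩
    · obtain ⟨lam, hpos, hlam⟩ := hs.bary
      refine ⟨fun k => lam (e i k), fun k => hpos _, fun x => ?_⟩
      rw [← hlam x]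
      exact Equiv.sum_comp (e i) (fun k => lam k * g i k.1 x)
    · intro x y hxy
      apply hs.inj
      intro k
      have := hxy ((e i).symm k)
      simpa using this
  sep := by
    rintro i j hij ⟨x, h1, h2⟩
    have a := h1 ((e i).symm ⟨j, hij.symm⟩)
    have b := h2 ((e j).symm ⟨i, hij⟩)
    simp only [Equiv.apply_symm_apply] at a b
    rw [h.anti i j] at b
    linarith
  con := by
    intro i k
    have hj : (e i k).1 ≠ i := (e i k).2
    refine ⟨(e i k).1, hj, (e (e i k).1).symm ⟨i, hj.symm⟩, ?_, ?_⟩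
    · intro x
      simp only [Equiv.apply_symm_apply]
      exact h.anti _ _ _
    · obtain ⟨x, hx0, hx⟩ := h.con i (e i k).1 hj.symm
      refine ⟨x, hx0, ?_, ?_⟩
      · intro m hm
        refine (hx (e i m).1 (e i m).2 ?_).1
        intro heq
        exact hm ((e i).injective (Subtype.ext heq))
      · intro m hm
        refine (hx (e (e i k).1 m).1 ?_ (e (e i k).1 m).2).2
        intro heq
        apply hm
        apply (e (e i k).1).injective
        rw [Equiv.apply_symm_apply]
        exact Subtype.ext heq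

theorem CC.slice {d : ℕ} (h : CC g) (e : ∀ i, Fin (d + 1) ≃ {j // j ≠ i}) {t a b : ι}
    (hat : a ≠ t) (hbt : b ≠ t) {θ : ℝ} (hs : CCSlice g t a b θ) :
    Slice (fun (i : ι) (k : Fin (d + 1)) (x : V) => g i (e i k).1 x) t
      ((e t).symm ⟨a, hat⟩) ((e t).symm ⟨b, hbt⟩) θ := by
  intro k hka hkb
  have hkt : (e t k).1 ≠ t := (e t k).2
  have hka' : (e t k).1 ≠ a := by
    intro heq
    apply hka
    apply (e t).injective
    rw [Equiv.apply_symm_apply]
    exact Subtype.ext heq
  have hkb' : (e t k).1 ≠ b := by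
    intro heq
    apply hkb
    apply (e t).injective
    rw [Equiv.apply_symm_apply]
    exact Subtype.ext heq
  obtain ⟨x, hx0, hxab, hx⟩ := hs (e t k).1 hkt hka' hkb'
  refine ⟨(e t k).1, hkt, (e (e t k).1).symm ⟨t, hkt.symm⟩, ?_, x, hx0, ?_, ?_, ?_⟩
  · intro y
    simp only [Equiv.apply_symm_apply]
    exact h.anti _ _ _
  · simp only [Equiv.apply_symm_apply]
    exact hxab
  · intro m hm
    refine (hx (e t m).1 (e t m).2 ?_).1
    intro heq
    exact hm ((e t).injective (Subtype.ext heq))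
  · intro m hm
    have hmt : (e (e t k).1 m).1 ≠ t := by
      intro heq
      apply hm
      apply (e (e t k).1).injective
      rw [Equiv.apply_symm_apply]
      exact Subtype.ext heq
    exact (hx (e (e t k).1 m).1 hmt (e (e t k).1 m).2).2

end Pool.Agent.H392R3
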