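import Pool.Agent.H392R3.Coord

/-!
# Face-to-face contacts in terms of barycentric coordinates
-/

open MeasureTheory Set Module Finset Filter Topology

namespace Pool.Agent.H392R3

variable {d : ℕ}

lemma aff_line (f : E d →ᵃ[ℝ] ℝ) (x y : E d) (t : ℝ) :
    f (AffineMap.lineMap x y t) = f x + t * (f y - f x) := by
  rw [AffineMap.apply_lineMap, AffineMap.lineMap_apply]
  simp only [vsub_eq_sub, smul_eq_mul, vadd_eq_add]
  ring

lemma ev_pos (f : E d →ᵃ[ℝ] ℝ) (x y : E d) (h : 0 < f x) :
    ∀ᶠ t : ℝ in 𝓝[>] 0, 0 < f (AffineMap.lineMap x y t) := by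
  have hc : Continuous fun t : ℝ => f x + t * (f y - f x) := by fun_prop
  have h1 : ∀ᶠ t : ℝ in 𝓝 0, 0 < f x + t * (f y - f x) :=
    hc.continuousAt.eventually (lt_mem_nhds (by simpa using h))
  filter_upwards [nhdsWithin_le_nhds h1] with t ht
  rw [aff_line]; exact ht

/-- the coordinate description of a face-to-face contact -/
theorem contact_coord (v w : Fin (d + 1) → E d) (hv : AffineIndependent ℝ v)
    (hw : AffineIndependent ℝ w) (hd : 0 < d)
    (hdisj : Disjoint (interior (body v)) (interior (body w))) (k l : Fin (d + 1))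
    (hpos : FaceToFace (facet v k) (facet w l)) :
    (∃ ρ : ℝ, 0 < ρ ∧ ∀ x, (bas w hw).coord l x = -ρ * (bas v hv).coord k x) ∧
    ∃ x, (bas v hv).coord k x = 0 ∧ (∀ m, m ≠ k → 0 < (bas v hv).coord m x) ∧
      (∀ m, m ≠ l → 0 < (bas w hw).coord m x) := by
  classical
  set b := bas v hv with hb
  set b' := bas w hw with hb'
  have hex : ∀ k : Fin (d + 1), ∃ m, m ≠ k := by
    intro k
    have : Nontrivial (Fin (d + 1)) := Fin.nontrivial_iff_two_le.mpr (by omega)
    exact exists_ne k
  have hlin : ∀ (b : AffineBasis (Fin (d + 1)) ℝ (E d)) k, (b.coord k).linear ≠ 0 := by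
    intro b k
    obtain ⟨m, hm⟩ := hex k
    apply coord_linear_ne b k (b m)
    rw [b.coord_apply_ne (Ne.symm hm)]
    norm_num
  have hfk : b.coord k (b k) = 1 := b.coord_apply_eq k
  obtain ⟨m0, hm0⟩ := hex k
  have hfm : b.coord k (b m0) = 0 := b.coord_apply_ne (Ne.symm hm0)
  have hsub : facet v k ∩ facet w l ⊆ {x | b.coord k x = 0} ∩ {x | b'.coord l x = 0} := by
    rintro x ⟨hx1, hx2⟩
    rw [facet_eq v hv] at hx1
    rw [facet_eq w hw] at hx2
    exact ⟨hx1.1, hx2.1⟩
  -- step 1
  have step1 : ∀ y, b.coord k y = 0 → b'.coord l y = 0 := by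
    intro y hy
    by_contra hne
    have := null_of_ne (b.coord k) (b'.coord l) (hlin b k) y hy hne
    have h2 := measure_mono_null hsub this
    unfold FaceToFace at hpos
    rw [h2] at hpos
    exact lt_irrefl _ hpos
  -- step 2
  set κ := b'.coord l (b k) with hκ
  have step2 : ∀ x, b'.coord l x = κ * b.coord k x := by
    intro x
    have hy : b.coord k ((-(b.coord k x)) • (b k - b m0) +ᵥ x) = 0 := by
      rw [AffineMap.map_vadd, map_smul]
      have := (b.coord k).linearMap_vsub (b k) (b m0)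
      simp only [vsub_eq_sub] at this
      rw [this, hfk, hfm]
      simp
    have h2 := step1 _ hy
    rw [AffineMap.map_vadd, map_smul] at h2
    have := (b'.coord l).linearMap_vsub (b k) (b m0)
    simp only [vsub_eq_sub] at this
    rw [this, step1 _ hfm] at h2
    simp only [vadd_eq_add, smul_eq_mul, sub_zero] at h2
    rw [← hκ] at h2
    linarith
  have hκ0 : κ ≠ 0 := by
    intro h0
    have h1 := step2 (b' l)
    rw [b'.coord_apply_eq, h0] at h1
    norm_num at h1
  -- step 3
  have step3 : ∃ x, b.coord k x = 0 ∧ (∀ m, m ≠ k → 0 < b.coord m x) ∧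
      (∀ m, m ≠ l → 0 < b'.coord m x) := by
    by_contra hno
    push Not at hno
    have hcov : facet v k ∩ facet w l ⊆
        (⋃ m : {m // m ≠ k}, {x | b.coord k x = 0} ∩ {x | b.coord m.1 x = 0}) ∪
        (⋃ m : {m // m ≠ l}, {x | b.coord k x = 0} ∩ {x | b'.coord m.1 x = 0}) := by
      rintro x ⟨hx1, hx2⟩
      rw [facet_eq v hv] at hx1
      rw [facet_eq w hw] at hx2
      by_cases hA : ∀ m, m ≠ k → 0 < b.coord m x
      · obtain ⟨m, hm, hm2⟩ := hno x hx1.1 hA
        right
        rw [Set.mem_iUnion]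
        exact ⟨⟨m, hm⟩, hx1.1, le_antisymm hm2 (hx2.2 m)⟩
      · push Not at hA
        obtain ⟨m, hm, hm2⟩ := hA
        left
        rw [Set.mem_iUnion]
        exact ⟨⟨m, hm⟩, hx1.1, le_antisymm hm2 (hx1.2 m)⟩
    have hnull : Measure.hausdorffMeasure ((d : ℝ) - 1) (facet v k ∩ facet w l) = 0 := by
      refine measure_mono_null hcov ?_
      rw [measure_union_null_iff]
      constructor
      · rw [measure_iUnion_null_iff]
        rintro ⟨m, hm⟩
        apply null_of_ne _ _ (hlin b k) (b m)
        · exact b.coord_apply_ne (Ne.symm hm)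
        · rw [b.coord_apply_eq]; norm_num
      · rw [measure_iUnion_null_iff]
        rintro ⟨m, hm⟩
        apply null_of_ne _ _ (hlin b k) (b' m)
        · have h1 := step2 (b' m)
          rw [b'.coord_apply_ne (Ne.symm hm)] at h1
          rcases mul_eq_zero.mp h1.symm with h2 | h2
          · exact absurd h2 hκ0
          · exact h2
        · rw [b'.coord_apply_eq]; norm_num
    unfold FaceToFace at hpos
    rw [hnull] at hpos
    exact lt_irrefl _ hpos
  refine ⟨?_, step3⟩
  have hneg : κ < 0 := by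
    by_contra hge
    have hκpos : 0 < κ := lt_of_le_of_ne (not_lt.mp hge) (Ne.symm hκ0)
    obtain ⟨x, hx0, hx1, hx2⟩ := step3
    have e1 : ∀ᶠ t : ℝ in 𝓝[>] 0, ∀ m, m ≠ k → 0 < b.coord m (AffineMap.lineMap x (b k) t) := by
      rw [Filter.eventually_all]
      intro m
      by_cases hm : m = k
      · simp [hm]
      · filter_upwards [ev_pos (b.coord m) x (b k) (hx1 m hm)] with t ht _
        exact ht
    have e2 : ∀ᶠ t : ℝ in 𝓝[>] 0, ∀ m, m ≠ l → 0 < b'.coord m (AffineMap.lineMap x (b k) t) := by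
      rw [Filter.eventually_all]
      intro m
      by_cases hm : m = l
      · simp [hm]
      · filter_upwards [ev_pos (b'.coord m) x (b k) (hx2 m hm)] with t ht _
        exact ht
    obtain ⟨t, ht1, ht2, ht3⟩ := (e1.and (e2.and self_mem_nhdsWithin)).exists
    have ht0 : 0 < t := ht3
    have hk : 0 < b.coord k (AffineMap.lineMap x (b k) t) := by
      rw [aff_line, hx0, hfk]; simp [ht0]
    have hl : 0 < b'.coord l (AffineMap.lineMap x (b k) t) := by
      rw [step2]; positivity
    rw [interior_body v hv, interior_body w hw, Set.disjoint_left] at hdisj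
    refine hdisj (a := AffineMap.lineMap x (b k) t) ?_ ?_
    · intro m
      by_cases hm : m = k
      · rw [hm]; exact hk
      · exact ht1 m hm
    · intro m
      by_cases hm : m = l
      · rw [hm]; exact hl
      · exact ht2 m hm
  exact ⟨-κ, by linarith, fun x => by rw [step2]; ring⟩

/-- The coordinate system of a tangled family. -/
structure CSys {V : Type*} [AddCommGroup V] [Module ℝ V] {ι K : Type*} [Fintype K]
    (c : ι → K → V → ℝ) : Prop where
  aff : ∀ i k, IsAff (c i k)
  sum : ∀ i x, ∑ k, c i k x = 1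
  con : ∀ i k, ∃ j, j ≠ i ∧ ∃ l, (∃ ρ : ℝ, 0 < ρ ∧ ∀ x, c j l x = -ρ * c i k x) ∧
    ∃ x, c i k x = 0 ∧ (∀ m, m ≠ k → 0 < c i m x) ∧ (∀ m, m ≠ l → 0 < c j m x)

theorem IsTangled.csys {n : ℕ} {S : Fin n → Fin (d + 1) → E d} (hd : 0 < d) (h : IsTangled S) :
    CSys (fun i k x => (bas (S i) (h.simplex i)).coord k x) where
  aff := by
    intro i k
    refine ⟨((bas (S i) (h.simplex i)).coord k).linear,
      (bas (S i) (h.simplex i)).coord k 0, fun x => ?_⟩
    have := ((bas (S i) (h.simplex i)).coord k).map_vadd 0 x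
    simp only [vadd_eq_add, add_zero] at this
    exact this
  sum := fun i x => (bas (S i) (h.simplex i)).sum_coord_apply_eq_one x
  con := by
    intro i k
    obtain ⟨j, hji, l, hc⟩ := h.blocked i k
    refine ⟨j, hji, l, ?_⟩
    exact contact_coord (S i) (S j) (h.simplex i) (h.simplex j) hd
      (h.nonoverlapping i j (Ne.symm hji)) k l hc

end Pool.Agent.H392R3
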