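import Pool.Agent.H392R3.Meas

/-!
# Simplices in terms of their barycentric coordinates
-/

open MeasureTheory Set Module Finset

namespace Pool.Agent.H392R3

variable {d : ℕ}

/-- the affine basis formed by the vertices of a simplex -/
noncomputable def bas (v : Fin (d + 1) → E d) (hv : AffineIndependent ℝ v) :
    AffineBasis (Fin (d + 1)) ℝ (E d) :=
  ⟨v, hv, by
    rw [hv.affineSpan_eq_top_iff_card_eq_finrank_add_one]
    simp⟩

@[simp] lemma bas_coe (v : Fin (d + 1) → E d) (hv : AffineIndependent ℝ v) : ⇑(bas v hv) = v := rfl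

lemma interior_body (v : Fin (d + 1) → E d) (hv : AffineIndependent ℝ v) :
    interior (body v) = {x | ∀ k, 0 < (bas v hv).coord k x} := by
  have := (bas v hv).interior_convexHull
  rw [bas_coe] at this
  exact this

lemma body_eq (v : Fin (d + 1) → E d) (hv : AffineIndependent ℝ v) :
    body v = {x | ∀ k, 0 ≤ (bas v hv).coord k x} := by
  have := (bas v hv).convexHull_eq_nonneg_coord
  rw [bas_coe] at this
  exact this

lemma facet_eq (v : Fin (d + 1) → E d) (hv : AffineIndependent ℝ v) (k : Fin (d + 1)) :
    facet v k = {x | (bas v hv).coord k x = 0 ∧ ∀ m, 0 ≤ (bas v hv).coord m x} := by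
  classical
  set b := bas v hv with hb
  apply Set.Subset.antisymm
  · apply convexHull_min
    · rintro _ ⟨m, hm, rfl⟩
      have hm' : m ≠ k := hm
      have e : v m = b m := rfl
      refine ⟨?_, ?_⟩
      · rw [e]; exact b.coord_apply_ne (Ne.symm hm')
      · intro j
        rw [e, b.coord_apply]
        split_ifs <;> norm_num
    · intro x hx y hy s t hs ht hst
      refine ⟨?_, ?_⟩
      · rw [Convex.combo_affine_apply hst, hx.1, hy.1]; simp
      · intro m
        rw [Convex.combo_affine_apply hst]
        have h1 := hx.2 m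
        have h2 := hy.2 m
        simp only [smul_eq_mul]
        positivity
  · rintro x ⟨hx0, hx⟩
    have h1 : ∑ m, b.coord m x • b m = x := b.linear_combination_coord_eq_self x
    have h2 : ∑ m ∈ univ.erase k, b.coord m x • b m = x := by
      rw [← Finset.add_sum_erase univ _ (Finset.mem_univ k), hx0] at h1
      simpa using h1
    have h3 : ∑ m ∈ univ.erase k, b.coord m x = 1 := by
      have := b.sum_coord_apply_eq_one x
      rw [← Finset.add_sum_erase univ _ (Finset.mem_univ k), hx0] at this
      simpa using this
    rw [← h2]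
    apply (convex_convexHull ℝ _).sum_mem
    · intro m _; exact hx m
    · exact h3
    · intro m hm
      apply subset_convexHull
      refine ⟨m, ?_, rfl⟩
      exact (Finset.mem_erase.mp hm).1

lemma coord_linear_ne (b : AffineBasis (Fin (d + 1)) ℝ (E d)) (k : Fin (d + 1)) (x : E d)
    (hx : b.coord k x ≠ 1) : (b.coord k).linear ≠ 0 := by
  intro h
  have h1 : b.coord k (b k) = 1 := b.coord_apply_eq k
  have h2 := (b.coord k).linearMap_vsub x (b k)
  rw [h] at h2
  simp only [LinearMap.zero_apply, vsub_eq_sub, h1] at h2
  apply hx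
  linarith

/-! ## algebraic description -/

section alg

variable {V : Type*} [AddCommGroup V] [Module ℝ V]

/-- affine functions -/
def IsAff (f : V → ℝ) : Prop := ∃ (L : V →ₗ[ℝ] ℝ) (c : ℝ), ∀ x, f x = L x + c

/-- a simplex given by its facet functions -/
structure AlgSimplex {K : Type*} [Fintype K] (f : K → V → ℝ) : Prop where
  aff : ∀ k, IsAff (f k)
  bary : ∃ lam : K → ℝ, (∀ k, 0 < lam k) ∧ ∀ x, ∑ k, lam k * f k x = 1
  inj : ∀ x y, (∀ k, f k x = f k y) → x = y

/-- contact of facet `k` of `f` and facet `l` of `g` -/
def Con {K : Type*} (f : K → V → ℝ) (k : K) (g : K → V → ℝ) (l : K) : Prop :=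
  (∀ x, g l x = - f k x) ∧
    ∃ x, f k x = 0 ∧ (∀ m, m ≠ k → 0 < f m x) ∧ (∀ m, m ≠ l → 0 < g m x)

/-- a tangled family given by facet functions -/
structure AlgT {ι K : Type*} [Fintype K] (S : ι → K → V → ℝ) : Prop where
  simp : ∀ i, AlgSimplex (S i)
  sep : ∀ i j, i ≠ j → ¬ ∃ x, (∀ k, 0 < S i k x) ∧ ∀ k, 0 < S j k x
  con : ∀ i k, ∃ j, j ≠ i ∧ ∃ l, Con (S i) k (S j) l

lemma IsAff.sum_eq {f : V → ℝ} (hf : IsAff f) {K : Type*} [Fintype K] (a : K → ℝ)
    (ha : ∑ k, a k = 1) (p : K → V) : f (∑ k, a k • p k) = ∑ k, a k * f (p k) := by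
  obtain ⟨L, c, h⟩ := hf
  rw [h, map_sum]
  simp only [map_smul, smul_eq_mul, h, mul_add, Finset.sum_add_distrib]
  rw [← Finset.sum_mul, ha, one_mul]

lemma AlgSimplex.surj [FiniteDimensional ℝ V] {K : Type*} [Fintype K] {f : K → V → ℝ}
    (h : AlgSimplex f) (hc : Fintype.card K = finrank ℝ V + 1) (lam : K → ℝ)
    (hpos : ∀ k, 0 < lam k) (hlam : ∀ x, ∑ k, lam k * f k x = 1) (t : K → ℝ) (ht : ∑ k, lam k * t k = 1) :
    ∃ x, ∀ k, f k x = t k := by
  classical
  choose L c hL using h.aff
  let A : V →ₗ[ℝ] (K → ℝ) := LinearMap.pi L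
  let B : (K → ℝ) →ₗ[ℝ] ℝ := ∑ k, lam k • LinearMap.proj k
  have hB : ∀ u, B u = ∑ k, lam k * u k := by
    intro u
    simp [B]
  have hA : ∀ x k, A x k = L k x := fun x k => rfl
  have hinj : Function.Injective A := by
    intro x y hxy
    apply h.inj
    intro k
    rw [hL, hL]
    have := congrFun hxy k
    rw [hA, hA] at this
    rw [this]
  have hsub : LinearMap.range A ≤ LinearMap.ker B := by
    rintro _ ⟨x, rfl⟩
    rw [LinearMap.mem_ker, hB]
    have h1 := hlam x
    have h0 := hlam 0
    have : ∑ k, lam k * (A x) k = ∑ k, lam k * f k x - ∑ k, lam k * f k 0 := by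
      rw [← Finset.sum_sub_distrib]
      apply Finset.sum_congr rfl
      intro k _
      rw [hA, hL, hL]
      simp only [map_zero, zero_add]
      ring
    rw [this, h1, h0]; simp
  have hKne : Nonempty K := by
    apply Fintype.card_pos_iff.mp
    rw [hc]; omega
  have hB0 : B ≠ 0 := by
    intro h0
    have : B (fun _ => 1) = 0 := by rw [h0]; rfl
    rw [hB] at this
    simp only [mul_one] at this
    have h1 : 0 < ∑ k, lam k := Finset.sum_pos (fun k _ => hpos k) ⟨hKne.some, Finset.mem_univ _⟩
    linarith
  have hdim : finrank ℝ (LinearMap.ker B) = finrank ℝ V := by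
    have h1 := LinearMap.finrank_range_add_finrank_ker B
    have h2 : LinearMap.range B = ⊤ := by
      rw [LinearMap.range_eq_top]
      exact LinearMap.surjective hB0
    rw [h2, finrank_top, Module.finrank_self, Module.finrank_fintype_fun_eq_card, hc] at h1
    omega
  have heq : LinearMap.range A = LinearMap.ker B := by
    apply Submodule.eq_of_le_of_finrank_eq hsub
    rw [LinearMap.finrank_range_of_inj hinj, hdim]
  have hmem : (fun k => t k - f k 0) ∈ LinearMap.ker B := by
    rw [LinearMap.mem_ker, hB]
    simp only [mul_sub, Finset.sum_sub_distrib]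
    rw [ht, hlam 0]; simp
  rw [← heq] at hmem
  obtain ⟨x, hx⟩ := hmem
  refine ⟨x, fun k => ?_⟩
  have := congrFun hx k
  rw [hA] at this
  rw [hL, this, hL]; simp

/-- A tangled algebraic family gives a tangled family of simplices. -/
theorem transfer [FiniteDimensional ℝ V] {n : ℕ} (hV : finrank ℝ V = d)
    (S : Fin n → Fin (d + 1) → V → ℝ) (h : AlgT S) :
    ∃ T : Fin n → Fin (d + 1) → E d, IsTangled T := by
  classical
  have e : V ≃ₗ[ℝ] E d := LinearEquiv.ofFinrankEq V (E d) (by rw [hV]; simp)
  choose lam hpos hlam using fun i => (h.simp i).bary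
  have hvert : ∀ i k, ∃ x, ∀ m, S i m x = if m = k then 1 / lam i m else 0 := by
    intro i k
    apply (h.simp i).surj (by simp [hV]) (lam i) (hpos i) (hlam i)
    simp only [mul_ite, mul_zero, Finset.sum_ite_eq', Finset.mem_univ, if_true]
    have := hpos i k
    field_simp
  choose w hw using hvert
  have hind : ∀ i, AffineIndependent ℝ (fun k => e (w i k)) := by
    intro i
    rw [affineIndependent_iff_of_fintype]
    intro a ha0 ha m
    rw [Finset.weightedVSub_eq_linear_combination _ ha0] at ha
    have h1 : ∑ k, a k • w i k = 0 := by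
      apply e.injective
      rw [map_sum]
      simpa using ha
    obtain ⟨L, c, hL⟩ := (h.simp i).aff m
    have h2 : ∑ k, a k * L (w i k) = 0 := by
      have := congrArg L h1
      rw [map_sum] at this
      simpa using this
    have h3 : ∑ k, a k * S i m (w i k) = 0 := by
      simp only [hL, mul_add, Finset.sum_add_distrib]
      rw [h2, ← Finset.sum_mul, ha0]; simp
    simp only [hw, mul_ite, mul_zero, Finset.sum_ite_eq, Finset.mem_univ, if_true] at h3
    have := hpos i m
    have h4 : (1 : ℝ) / lam i m ≠ 0 := by positivity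
    rcases mul_eq_zero.mp h3 with h5 | h5
    · exact h5
    · exact absurd h5 h4
  have hco : ∀ i m x, (bas _ (hind i)).coord m x = lam i m * S i m (e.symm x) := by
    intro i m x
    set b := bas _ (hind i) with hb
    have h1 : ∑ k, b.coord k x • b k = x := b.linear_combination_coord_eq_self x
    have h2 : ∑ k, b.coord k x • w i k = e.symm x := by
      apply e.injective
      rw [map_sum, LinearEquiv.apply_symm_apply]
      simp only [map_smul]
      exact h1
    rw [← h2, ((h.simp i).aff m).sum_eq _ (b.sum_coord_apply_eq_one x)]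
    simp only [hw, mul_ite, mul_zero, Finset.sum_ite_eq, Finset.mem_univ, if_true]
    have := hpos i m
    field_simp
  refine ⟨fun i k => e (w i k), hind, ?_, ?_⟩
  · intro i j hij
    rw [Set.disjoint_left]
    intro x hx hy
    rw [interior_body _ (hind i)] at hx
    rw [interior_body _ (hind j)] at hy
    apply h.sep i j hij
    refine ⟨e.symm x, fun k => ?_, fun k => ?_⟩
    · have := hx k
      rw [hco] at this
      exact (pos_iff_pos_of_mul_pos this).mp (hpos i k)
    · have := hy k
      rw [hco] at this
      exact (pos_iff_pos_of_mul_pos this).mp (hpos j k)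
  · intro i k
    obtain ⟨j, hji, l, hneg, x, hx0, hx1, hx2⟩ := h.con i k
    refine ⟨j, hji, l, ?_⟩
    set bi := bas _ (hind i) with hbi
    set bj := bas _ (hind j) with hbj
    have hf : (bi.coord k).linear ≠ 0 := by
      apply coord_linear_ne bi k (e x)
      rw [hbi, hco]
      simp [hx0]
    let U : Set (E d) := {y | ∀ m, (m ≠ k → 0 < bi.coord m y) ∧ (m ≠ l → 0 < bj.coord m y)}
    have hU : IsOpen U := by
      have : U = ⋂ m, ({y | m ≠ k → 0 < bi.coord m y} ∩ {y | m ≠ l → 0 < bj.coord m y}) := by
        ext y; simp [U]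
      rw [this]
      apply isOpen_iInter_of_finite
      intro m
      apply IsOpen.inter
      · by_cases hm : m = k
        · simp [hm]
        · have : {y : E d | m ≠ k → 0 < bi.coord m y} = {y | 0 < bi.coord m y} := by
            ext y; simp [hm]
          rw [this]
          exact isOpen_lt continuous_const (AffineMap.continuous_of_finiteDimensional _)
      · by_cases hm : m = l
        · simp [hm]
        · have : {y : E d | m ≠ l → 0 < bj.coord m y} = {y | 0 < bj.coord m y} := by
            ext y; simp [hm]
          rw [this]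
          exact isOpen_lt continuous_const (AffineMap.continuous_of_finiteDimensional _)
    have hxU : e x ∈ U := by
      intro m
      refine ⟨fun hm => ?_, fun hm => ?_⟩
      · rw [hbi, hco]
        have := hx1 m hm
        have := hpos i m
        simp only [LinearEquiv.symm_apply_apply]
        positivity
      · rw [hbj, hco]
        have := hx2 m hm
        have := hpos j m
        simp only [LinearEquiv.symm_apply_apply]
        positivity
    refine lt_of_lt_of_le (pos_of_open (bi.coord k) hf U hU (e x) hxU ?_) ?_
    · rw [hbi, hco]; simp [hx0]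
    · apply measure_mono
      rintro y ⟨hy0, hyU⟩
      have hy0' : S i k (e.symm y) = 0 := by
        have : bi.coord k y = 0 := hy0
        rw [hbi, hco] at this
        rcases mul_eq_zero.mp this with h1 | h1
        · exact absurd h1 (hpos i k).ne'
        · exact h1
      constructor
      · rw [facet_eq _ (hind i)]
        refine ⟨hy0, fun m => ?_⟩
        by_cases hm : m = k
        · rw [hm]; exact le_of_eq (Eq.symm hy0)
        · exact ((hyU m).1 hm).le
      · rw [facet_eq _ (hind j)]
        have hl : bj.coord l y = 0 := by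
          rw [hbj, hco, hneg, hy0']; simp
        refine ⟨hl, fun m => ?_⟩
        by_cases hm : m = l
        · rw [hm]; exact le_of_eq hl.symm
        · exact ((hyU m).2 hm).le

end alg

end Pool.Agent.H392R3
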