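import Pool.Agent.H392R3.Coord

set_option linter.unusedSectionVars false
set_option linter.unusedVariables false
set_option linter.unusedSimpArgs false

/-!
# Cutting one member of a tangled family into two
-/

open Module Finset Filter Topology

namespace Pool.Agent.H392R3

variable {V : Type*} [AddCommGroup V] [Module ℝ V] {ι K : Type*}

/-- the point `x + η (y - x)` -/
def seg (x y : V) (η : ℝ) : V := x + η • (y - x)

lemma IsAff.seg {f : V → ℝ} (hf : IsAff f) (x y : V) (η : ℝ) :
    f (seg x y η) = f x + η * (f y - f x) := by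
  obtain ⟨L, c, hL⟩ := hf
  simp only [hL, Pool.Agent.H392R3.seg, map_add, map_smul, map_sub, smul_eq_mul]
  ring

lemma IsAff.ev_pos {f : V → ℝ} (hf : IsAff f) (x y : V) (h : 0 < f x) :
    ∀ᶠ η : ℝ in 𝓝[>] 0, 0 < f (Pool.Agent.H392R3.seg x y η) := by
  have hc : Continuous fun t : ℝ => f x + t * (f y - f x) := by fun_prop
  have h1 : ∀ᶠ t : ℝ in 𝓝 0, 0 < f x + t * (f y - f x) :=
    hc.continuousAt.eventually (lt_mem_nhds (by simpa using h))
  filter_upwards [nhdsWithin_le_nhds h1] with t ht
  rw [hf.seg]; exact ht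

lemma IsAff.add {f g : V → ℝ} (hf : IsAff f) (hg : IsAff g) : IsAff (fun x => f x + g x) := by
  obtain ⟨L, c, hL⟩ := hf
  obtain ⟨M, d, hM⟩ := hg
  exact ⟨L + M, c + d, fun x => by simp only [hL, hM, LinearMap.add_apply, LinearMap.sub_apply]; ring⟩

lemma IsAff.cmul {f : V → ℝ} (hf : IsAff f) (r : ℝ) : IsAff (fun x => r * f x) := by
  obtain ⟨L, c, hL⟩ := hf
  exact ⟨r • L, r * c, fun x => by simp only [hL, LinearMap.smul_apply, smul_eq_mul]; ring⟩

lemma IsAff.sub {f g : V → ℝ} (hf : IsAff f) (hg : IsAff g) : IsAff (fun x => f x - g x) := by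
  obtain ⟨L, c, hL⟩ := hf
  obtain ⟨M, d, hM⟩ := hg
  exact ⟨L - M, c - d, fun x => by simp only [hL, hM, LinearMap.add_apply, LinearMap.sub_apply]; ring⟩

lemma Con.symm {f g : K → V → ℝ} {k l : K} (h : Con f k g l) : Con g l f k := by
  obtain ⟨h1, x, h2, h3, h4⟩ := h
  exact ⟨fun y => by rw [h1]; simp, x, by rw [h1, h2]; simp, h4, h3⟩

/-- vertices of an algebraic simplex -/
lemma AlgSimplex.vertex [FiniteDimensional ℝ V] [Fintype K] {f : K → V → ℝ} (h : AlgSimplex f)
    (hc : Fintype.card K = finrank ℝ V + 1) (k : K) :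
    ∃ v, (∀ m, m ≠ k → f m v = 0) ∧ 0 < f k v := by
  classical
  obtain ⟨lam, hpos, hlam⟩ := h.bary
  obtain ⟨v, hv⟩ := h.surj hc lam hpos hlam (fun m => if m = k then 1 / lam k else 0) (by
    simp only [mul_ite, mul_zero, Finset.sum_ite_eq', Finset.mem_univ, if_true]
    have := hpos k
    field_simp)
  refine ⟨v, fun m hm => ?_, ?_⟩
  · rw [hv, if_neg hm]
  · rw [hv, if_pos rfl]
    have := hpos k
    positivity

/-- the part of the simplex where `f a < θ f b` -/
noncomputable def cutL (f : K → V → ℝ) (a b : K) (θ : ℝ) : K → V → ℝ :=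
  open Classical in fun k x => if k = b then θ * f b x - f a x else f k x

/-- the part of the simplex where `f a > θ f b` -/
noncomputable def cutR (f : K → V → ℝ) (a b : K) (θ : ℝ) : K → V → ℝ :=
  open Classical in fun k x => if k = a then f a x - θ * f b x else f k x

lemma cutL_b (f : K → V → ℝ) (a b : K) (θ : ℝ) (x : V) :
    cutL f a b θ b x = θ * f b x - f a x := by simp [cutL]

lemma cutL_ne (f : K → V → ℝ) (a b : K) (θ : ℝ) (k : K) (hk : k ≠ b) (x : V) :
    cutL f a b θ k x = f k x := by simp [cutL, hk]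

lemma cutR_a (f : K → V → ℝ) (a b : K) (θ : ℝ) (x : V) :
    cutR f a b θ a x = f a x - θ * f b x := by simp [cutR]

lemma cutR_ne (f : K → V → ℝ) (a b : K) (θ : ℝ) (k : K) (hk : k ≠ a) (x : V) :
    cutR f a b θ k x = f k x := by simp [cutR, hk]

/-- the cut family -/
noncomputable def cut (S : ι → K → V → ℝ) (t : ι) (a b : K) (θ : ℝ) : Option ι → K → V → ℝ :=
  open Classical in fun o => match o with
  | none => cutL (S t) a b θ
  | some j => if j = t then cutR (S t) a b θ else S j

lemma cut_none (S : ι → K → V → ℝ) (t : ι) (a b : K) (θ : ℝ) :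
    cut S t a b θ none = cutL (S t) a b θ := rfl

lemma cut_t (S : ι → K → V → ℝ) (t : ι) (a b : K) (θ : ℝ) :
    cut S t a b θ (some t) = cutR (S t) a b θ := by simp [cut]

lemma cut_ne (S : ι → K → V → ℝ) (t : ι) (a b : K) (θ : ℝ) (j : ι) (hj : j ≠ t) :
    cut S t a b θ (some j) = S j := by simp [cut, hj]

/-- slice data -/
def Slice (S : ι → K → V → ℝ) (t : ι) (a b : K) (θ : ℝ) : Prop :=
  ∀ k, k ≠ a → k ≠ b → ∃ j, j ≠ t ∧ ∃ l, (∀ x, S j l x = - S t k x) ∧
    ∃ x, S t k x = 0 ∧ S t a x = θ * S t b x ∧ (∀ m, m ≠ k → 0 < S t m x) ∧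
      (∀ m, m ≠ l → 0 < S j m x)

variable [Fintype K]

lemma sum_two (a b : K) (hab : a ≠ b) (F : K → ℝ) : ∃ R : Finset K, a ∉ R ∧ b ∉ R ∧
    ∑ k, F k = F a + F b + ∑ k ∈ R, F k := by
  classical
  refine ⟨(univ.erase a).erase b, by simp, by simp, ?_⟩
  rw [← Finset.add_sum_erase univ _ (Finset.mem_univ a),
    ← Finset.add_sum_erase (univ.erase a) _ (by simp [hab.symm] : b ∈ univ.erase a)]
  ring

lemma cutL_simplex {f : K → V → ℝ} (h : AlgSimplex f) {a b : K} (hab : a ≠ b) {θ : ℝ}
    (hθ : 0 < θ) : AlgSimplex (cutL f a b θ) where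
  aff := by
    intro k
    by_cases hk : k = b
    · subst hk
      have : cutL f a k θ k = fun x => θ * f k x - f a x := by
        funext x; exact cutL_b f a k θ x
      rw [this]
      exact ((h.aff k).cmul θ).sub (h.aff a)
    · have : cutL f a b θ k = f k := by funext x; exact cutL_ne f a b θ k hk x
      rw [this]; exact h.aff k
  bary := by
    classical
    obtain ⟨lam, hpos, hlam⟩ := h.bary
    refine ⟨fun k => if k = b then lam b / θ else if k = a then lam a + lam b / θ else lam k,
      ?_, ?_⟩
    · intro k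
      have h1 := hpos a
      have h2 := hpos b
      have h3 := hpos k
      show 0 < (if k = b then lam b / θ else if k = a then lam a + lam b / θ else lam k)
      split_ifs <;> positivity
    · intro x
      rw [← hlam x]
      have e1 := Finset.add_sum_erase univ (fun k => (if k = b then lam b / θ else
        if k = a then lam a + lam b / θ else lam k) * cutL f a b θ k x) (Finset.mem_univ a)
      have e2 := Finset.add_sum_erase (univ.erase a) (fun k => (if k = b then lam b / θ else
        if k = a then lam a + lam b / θ else lam k) * cutL f a b θ k x)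
        (by simp [hab.symm] : b ∈ univ.erase a)
      have e3 := Finset.add_sum_erase univ (fun k => lam k * f k x) (Finset.mem_univ a)
      have e4 := Finset.add_sum_erase (univ.erase a) (fun k => lam k * f k x)
        (by simp [hab.symm] : b ∈ univ.erase a)
      rw [← e1, ← e2, ← e3, ← e4]
      have e5 : ∑ k ∈ (univ.erase a).erase b, (if k = b then lam b / θ else
        if k = a then lam a + lam b / θ else lam k) * cutL f a b θ k x =
        ∑ k ∈ (univ.erase a).erase b, lam k * f k x := by
        apply Finset.sum_congr rfl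
        intro k hk
        have h1 : k ≠ b := (Finset.mem_erase.mp hk).1
        have h2 : k ≠ a := (Finset.mem_erase.mp (Finset.mem_erase.mp hk).2).1
        rw [if_neg h1, if_neg h2, cutL_ne _ _ _ _ _ h1]
      rw [e5]
      simp only [if_neg hab, if_true]
      rw [cutL_ne _ _ _ _ _ hab, cutL_b]
      field_simp
      ring
  inj := by
    intro x y hxy
    apply h.inj
    have ha : f a x = f a y := by
      have := hxy a
      rwa [cutL_ne _ _ _ _ _ hab, cutL_ne _ _ _ _ _ hab] at this
    intro k
    by_cases hk : k = b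
    · subst hk
      have := hxy k
      rw [cutL_b, cutL_b, ha] at this
      have h2 : θ * f k x = θ * f k y := by linarith
      exact mul_left_cancel₀ hθ.ne' h2
    · have := hxy k
      rwa [cutL_ne _ _ _ _ _ hk, cutL_ne _ _ _ _ _ hk] at this

lemma cutR_simplex {f : K → V → ℝ} (h : AlgSimplex f) {a b : K} (hab : a ≠ b) {θ : ℝ}
    (hθ : 0 < θ) : AlgSimplex (cutR f a b θ) where
  aff := by
    intro k
    by_cases hk : k = a
    · subst hk
      have : cutR f k b θ k = fun x => f k x - θ * f b x := by
        funext x; exact cutR_a f k b θ x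
      rw [this]
      exact (h.aff k).sub ((h.aff b).cmul θ)
    · have : cutR f a b θ k = f k := by funext x; exact cutR_ne f a b θ k hk x
      rw [this]; exact h.aff k
  bary := by
    classical
    obtain ⟨lam, hpos, hlam⟩ := h.bary
    refine ⟨fun k => if k = b then lam b + θ * lam a else lam k, ?_, ?_⟩
    · intro k
      have h1 := hpos a
      have h2 := hpos b
      have h3 := hpos k
      show 0 < (if k = b then lam b + θ * lam a else lam k)
      split_ifs <;> positivity
    · intro x
      rw [← hlam x]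
      have e1 := Finset.add_sum_erase univ (fun k => (if k = b then lam b + θ * lam a else
        lam k) * cutR f a b θ k x) (Finset.mem_univ a)
      have e2 := Finset.add_sum_erase (univ.erase a) (fun k => (if k = b then
        lam b + θ * lam a else lam k) * cutR f a b θ k x)
        (by simp [hab.symm] : b ∈ univ.erase a)
      have e3 := Finset.add_sum_erase univ (fun k => lam k * f k x) (Finset.mem_univ a)
      have e4 := Finset.add_sum_erase (univ.erase a) (fun k => lam k * f k x)
        (by simp [hab.symm] : b ∈ univ.erase a)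
      rw [← e1, ← e2, ← e3, ← e4]
      have e5 : ∑ k ∈ (univ.erase a).erase b, (if k = b then lam b + θ * lam a else
        lam k) * cutR f a b θ k x =
        ∑ k ∈ (univ.erase a).erase b, lam k * f k x := by
        apply Finset.sum_congr rfl
        intro k hk
        have h1 : k ≠ b := (Finset.mem_erase.mp hk).1
        have h2 : k ≠ a := (Finset.mem_erase.mp (Finset.mem_erase.mp hk).2).1
        rw [if_neg h1, cutR_ne _ _ _ _ _ h2]
      rw [e5]
      simp only [if_neg hab, if_true]
      rw [cutR_ne _ _ _ _ _ hab.symm, cutR_a]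
      ring
  inj := by
    intro x y hxy
    apply h.inj
    have hb : f b x = f b y := by
      have := hxy b
      rwa [cutR_ne _ _ _ _ _ hab.symm, cutR_ne _ _ _ _ _ hab.symm] at this
    intro k
    by_cases hk : k = a
    · subst hk
      have := hxy k
      rw [cutR_a, cutR_a, hb] at this
      linarith
    · have := hxy k
      rwa [cutR_ne _ _ _ _ _ hk, cutR_ne _ _ _ _ _ hk] at this

/-- eventually all other coordinates stay positive -/
lemma ev_others {f g : K → V → ℝ} (hf : ∀ m, IsAff (f m)) (hg : ∀ m, IsAff (g m)) {k l : K}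
    {x0 : V} (v : V) (h2 : ∀ m, m ≠ k → 0 < f m x0) (h3 : ∀ m, m ≠ l → 0 < g m x0) :
    ∀ᶠ η : ℝ in 𝓝[>] 0, (∀ m, m ≠ k → 0 < f m (seg x0 v η)) ∧
      (∀ m, m ≠ l → 0 < g m (seg x0 v η)) := by
  have e1 : ∀ᶠ η : ℝ in 𝓝[>] 0, ∀ m, m ≠ k → 0 < f m (seg x0 v η) := by
    rw [Filter.eventually_all]
    intro m
    by_cases hm : m = k
    · simp [hm]
    · filter_upwards [(hf m).ev_pos x0 v (h2 m hm)] with t ht _
      exact ht
  have e2 : ∀ᶠ η : ℝ in 𝓝[>] 0, ∀ m, m ≠ l → 0 < g m (seg x0 v η) := by
    rw [Filter.eventually_all]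
    intro m
    by_cases hm : m = l
    · simp [hm]
    · filter_upwards [(hg m).ev_pos x0 v (h3 m hm)] with t ht _
      exact ht
  exact e1.and e2

lemma pertL [FiniteDimensional ℝ V] (hc : Fintype.card K = finrank ℝ V + 1)
    {f g : K → V → ℝ} (hf : AlgSimplex f) (hg : ∀ m, IsAff (g m)) {a b k l : K} (hab : a ≠ b)
    {θ : ℝ} (hθ : 0 < θ) (hka : k ≠ a) (hkb : k ≠ b) (hneg : ∀ x, g l x = - f k x)
    {x0 : V} (h0 : f k x0 = 0) (h1 : f a x0 ≤ θ * f b x0) (h2 : ∀ m, m ≠ k → 0 < f m x0)
    (h3 : ∀ m, m ≠ l → 0 < g m x0) : Con (cutL f a b θ) k g l := by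
  obtain ⟨v, hv0, hv1⟩ := hf.vertex hc b
  have e3 : ∀ᶠ η : ℝ in 𝓝[>] 0, η < 1 :=
    nhdsWithin_le_nhds (gt_mem_nhds one_pos)
  obtain ⟨η, ⟨h4, h5⟩, h6, h7⟩ :=
    ((ev_others hf.aff hg v h2 h3).and (e3.and self_mem_nhdsWithin)).exists
  have h7' : 0 < η := h7
  refine ⟨fun x => by rw [hneg, cutL_ne _ _ _ _ _ hkb], seg x0 v η, ?_, ?_, h5⟩
  · rw [cutL_ne _ _ _ _ _ hkb, (hf.aff k).seg, h0, hv0 k hkb]; simp
  · intro m hm
    by_cases hmb : m = b
    · subst hmb
      rw [cutL_b, (hf.aff m).seg, (hf.aff a).seg, hv0 a hab]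
      have : 0 < η * (θ * f m v) := by positivity
      nlinarith
    · rw [cutL_ne _ _ _ _ _ hmb]
      exact h4 m hm

lemma pertR [FiniteDimensional ℝ V] (hc : Fintype.card K = finrank ℝ V + 1)
    {f g : K → V → ℝ} (hf : AlgSimplex f) (hg : ∀ m, IsAff (g m)) {a b k l : K} (hab : a ≠ b)
    {θ : ℝ} (hka : k ≠ a) (hkb : k ≠ b) (hneg : ∀ x, g l x = - f k x)
    {x0 : V} (h0 : f k x0 = 0) (h1 : θ * f b x0 ≤ f a x0) (h2 : ∀ m, m ≠ k → 0 < f m x0)
    (h3 : ∀ m, m ≠ l → 0 < g m x0) : Con (cutR f a b θ) k g l := by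
  obtain ⟨v, hv0, hv1⟩ := hf.vertex hc a
  have e3 : ∀ᶠ η : ℝ in 𝓝[>] 0, η < 1 :=
    nhdsWithin_le_nhds (gt_mem_nhds one_pos)
  obtain ⟨η, ⟨h4, h5⟩, h6, h7⟩ :=
    ((ev_others hf.aff hg v h2 h3).and (e3.and self_mem_nhdsWithin)).exists
  have h7' : 0 < η := h7
  refine ⟨fun x => by rw [hneg, cutR_ne _ _ _ _ _ hka], seg x0 v η, ?_, ?_, h5⟩
  · rw [cutR_ne _ _ _ _ _ hka, (hf.aff k).seg, h0, hv0 k hka]; simp
  · intro m hm
    by_cases hma : m = a
    · subst hma
      rw [cutR_a, (hf.aff m).seg, (hf.aff b).seg, hv0 b hab.symm]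
      have : 0 < η * f m v := by positivity
      nlinarith
    · rw [cutR_ne _ _ _ _ _ hma]
      exact h4 m hm

/-- cutting preserves being tangled -/
theorem cut_tangled [FiniteDimensional ℝ V] (hc : Fintype.card K = finrank ℝ V + 1)
    {S : ι → K → V → ℝ} (h : AlgT S) {t : ι} {a b : K} (hab : a ≠ b) {θ : ℝ} (hθ : 0 < θ)
    (hs : Slice S t a b θ) : AlgT (cut S t a b θ) where
  simp := by
    intro i
    rcases i with _ | j
    · rw [cut_none]; exact cutL_simplex (h.simp t) hab hθ
    · by_cases hj : j = t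
      · subst hj
        rw [cut_t]; exact cutR_simplex (h.simp j) hab hθ
      · rw [cut_ne _ _ _ _ _ _ hj]; exact h.simp j
  sep := by
    have hL : ∀ x, (∀ k, 0 < cutL (S t) a b θ k x) → ∀ k, 0 < S t k x := by
      intro x hx k
      have ha := hx a
      rw [cutL_ne _ _ _ _ _ hab] at ha
      by_cases hk : k = b
      · subst hk
        have hb := hx k
        rw [cutL_b] at hb
        have : 0 < θ * S t k x := by linarith
        exact (pos_iff_pos_of_mul_pos this).mp hθ
      · have := hx k
        rwa [cutL_ne _ _ _ _ _ hk] at this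
    have hR : ∀ x, (∀ k, 0 < cutR (S t) a b θ k x) → ∀ k, 0 < S t k x := by
      intro x hx k
      have hb := hx b
      rw [cutR_ne _ _ _ _ _ hab.symm] at hb
      by_cases hk : k = a
      · subst hk
        have ha := hx k
        rw [cutR_a] at ha
        have : 0 < θ * S t b x := by positivity
        linarith
      · have := hx k
        rwa [cutR_ne _ _ _ _ _ hk] at this
    have hLR : ∀ x, (∀ k, 0 < cutL (S t) a b θ k x) → (∀ k, 0 < cutR (S t) a b θ k x) → False := by
      intro x h1 h2
      have h3 := h1 b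
      have h4 := h2 a
      rw [cutL_b] at h3
      rw [cutR_a] at h4
      linarith
    intro i j hij
    rintro ⟨x, h1, h2⟩
    rcases i with _ | i
    · rcases j with _ | j
      · exact hij rfl
      · rw [cut_none] at h1
        by_cases hj : j = t
        · subst hj
          rw [cut_t] at h2
          exact hLR x h1 h2
        · rw [cut_ne _ _ _ _ _ _ hj] at h2
          exact h.sep t j (Ne.symm hj) ⟨x, hL x h1, h2⟩
    · rcases j with _ | j
      · rw [cut_none] at h2
        by_cases hi : i = t
        · subst hi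
          rw [cut_t] at h1
          exact hLR x h2 h1
        · rw [cut_ne _ _ _ _ _ _ hi] at h1
          exact h.sep i t hi ⟨x, h1, hL x h2⟩
      · have hij' : i ≠ j := fun e => hij (by rw [e])
        by_cases hi : i = t
        · subst hi
          rw [cut_t] at h1
          rw [cut_ne _ _ _ _ _ _ hij'.symm] at h2
          exact h.sep i j hij' ⟨x, hR x h1, h2⟩
        · rw [cut_ne _ _ _ _ _ _ hi] at h1
          by_cases hj : j = t
          · subst hj
            rw [cut_t] at h2
            exact h.sep i j hij' ⟨x, h1, hR x h2⟩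
          · rw [cut_ne _ _ _ _ _ _ hj] at h2
            exact h.sep i j hij' ⟨x, h1, h2⟩
  con := by
    classical
    -- contact between the two halves
    have hmid : Con (cutL (S t) a b θ) b (cutR (S t) a b θ) a := by
      refine ⟨fun x => by rw [cutL_b, cutR_a]; ring, ?_⟩
      obtain ⟨lam, hpos, hlam⟩ := (h.simp t).bary
      set τ : K → ℝ := fun k => if k = a then θ else 1 with hτ
      have hτpos : ∀ k, 0 < τ k := by
        intro k; simp only [hτ]; split_ifs <;> positivity
      set s : ℝ := ∑ k, lam k * τ k with hs'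
      have hspos : 0 < s := Finset.sum_pos (fun k _ => mul_pos (hpos k) (hτpos k)) ⟨a, Finset.mem_univ _⟩
      obtain ⟨x, hx⟩ := (h.simp t).surj hc lam hpos hlam (fun k => τ k / s) (by
        have : ∀ k, lam k * (τ k / s) = (lam k * τ k) / s := fun k => by ring
        simp only [this]
        rw [← Finset.sum_div, ← hs']
        exact div_self hspos.ne')
      have hxpos : ∀ k, 0 < S t k x := by
        intro k; rw [hx]; have := hτpos k; positivity
      have hxab : S t a x = θ * S t b x := by
        rw [hx, hx]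
        simp only [hτ, if_true, if_neg hab.symm]
        ring
      refine ⟨x, ?_, ?_, ?_⟩
      · rw [cutL_b, hxab]; ring
      · intro m hm
        rw [cutL_ne _ _ _ _ _ hm]; exact hxpos m
      · intro m hm
        rw [cutR_ne _ _ _ _ _ hm]; exact hxpos m
    -- old contacts of `t` at facet `a` and at facet `b`
    have hA : ∀ j l, Con (S t) a (S j) l → Con (cutL (S t) a b θ) a (S j) l := by
      rintro j l ⟨h1, x, h2, h3, h4⟩
      refine ⟨fun y => by rw [h1, cutL_ne _ _ _ _ _ hab], x, ?_, ?_, h4⟩
      · rw [cutL_ne _ _ _ _ _ hab]; exact h2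
      · intro m hm
        by_cases hmb : m = b
        · subst hmb
          rw [cutL_b, h2]
          have := h3 m hm
          simp only [sub_zero]
          positivity
        · rw [cutL_ne _ _ _ _ _ hmb]; exact h3 m hm
    have hB : ∀ j l, Con (S t) b (S j) l → Con (cutR (S t) a b θ) b (S j) l := by
      rintro j l ⟨h1, x, h2, h3, h4⟩
      refine ⟨fun y => by rw [h1, cutR_ne _ _ _ _ _ hab.symm], x, ?_, ?_, h4⟩
      · rw [cutR_ne _ _ _ _ _ hab.symm]; exact h2
      · intro m hm
        by_cases hma : m = a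
        · subst hma
          rw [cutR_a, h2]
          have := h3 m hm
          simp only [mul_zero, sub_zero]
          exact this
        · rw [cutR_ne _ _ _ _ _ hma]; exact h3 m hm
    intro i k
    rcases i with _ | i
    · rw [cut_none]
      by_cases hkb : k = b
      · subst hkb
        exact ⟨some t, by simp, a, by rw [cut_t]; exact hmid⟩
      · by_cases hka : k = a
        · subst hka
          obtain ⟨j, hj, l, hjl⟩ := h.con t k
          exact ⟨some j, by simp, l, by rw [cut_ne _ _ _ _ _ _ hj]; exact hA j l hjl⟩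
        · obtain ⟨j, hj, l, h1, x, h2, h3, h4, h5⟩ := hs k hka hkb
          exact ⟨some j, by simp, l, by
            rw [cut_ne _ _ _ _ _ _ hj]
            exact pertL hc (h.simp t) (h.simp j).aff hab hθ hka hkb h1 h2 h3.le h4 h5⟩
    · by_cases hi : i = t
      · subst hi
        rw [cut_t]
        by_cases hka : k = a
        · subst hka
          exact ⟨none, by simp, b, by rw [cut_none]; exact hmid.symm⟩
        · by_cases hkb : k = b
          · subst hkb
            obtain ⟨j, hj, l, hjl⟩ := h.con i k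
            exact ⟨some j, by simpa using hj, l, by rw [cut_ne _ _ _ _ _ _ hj]; exact hB j l hjl⟩
          · obtain ⟨j, hj, l, h1, x, h2, h3, h4, h5⟩ := hs k hka hkb
            exact ⟨some j, by simpa using hj, l, by
              rw [cut_ne _ _ _ _ _ _ hj]
              exact pertR hc (h.simp i) (h.simp j).aff hab hka hkb h1 h2 h3.ge h4 h5⟩
      · rw [cut_ne _ _ _ _ _ _ hi]
        obtain ⟨j, hj, l, hjl⟩ := h.con i k
        by_cases hjt : j = t
        · subst hjt
          have hsym := hjl.symm
          by_cases hla : l = a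
          · subst hla
            exact ⟨none, by simp, l, by rw [cut_none]; exact (hA i k hsym).symm⟩
          · by_cases hlb : l = b
            · subst hlb
              exact ⟨some j, by simpa using hj, l, by rw [cut_t]; exact (hB i k hsym).symm⟩
            · obtain ⟨h1, x, h2, h3, h4⟩ := hsym
              rcases le_total (S j a x) (θ * S j b x) with hle | hle
              · exact ⟨none, by simp, l, by
                  rw [cut_none]
                  exact (pertL hc (h.simp j) (h.simp i).aff hab hθ hla hlb h1 h2 hle h3 h4).symm⟩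
              · exact ⟨some j, by simpa using hj, l, by
                  rw [cut_t]
                  exact (pertR hc (h.simp j) (h.simp i).aff hab hla hlb h1 h2 hle h3 h4).symm⟩
        · exact ⟨some j, by simpa using hj, l, by rw [cut_ne _ _ _ _ _ _ hjt]; exact hjl⟩

/-- the cut family can be cut again -/
theorem cut_slice [FiniteDimensional ℝ V] (hc : Fintype.card K = finrank ℝ V + 1)
    {S : ι → K → V → ℝ} (h : AlgT S) {t : ι} {a b : K} (hab : a ≠ b) {θ : ℝ} (hθ : 0 < θ)
    (hs : Slice S t a b θ) : ∃ θ' : ℝ, 0 < θ' ∧ Slice (cut S t a b θ) none a b θ' := by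
  classical
  have hs' := hs
  have : Nonempty ι := ⟨t⟩
  have : Nonempty K := ⟨a⟩
  have : Nonempty V := ⟨0⟩
  choose! j hj l hl x hx0 hxab hxt hxj using hs'
  obtain ⟨v, hv0, hv1⟩ := (h.simp t).vertex hc b
  -- the parameter on the segment
  let η : K → ℝ → ℝ := fun k δ => δ * S t a (x k) / (θ * S t b v + δ * S t a (x k))
  have hη : ∀ k, k ≠ a → k ≠ b → Tendsto (η k) (𝓝[>] 0) (𝓝[>] 0) := by
    intro k hka hkb
    have hpos : 0 < S t a (x k) := hxt k hka hkb a (Ne.symm hka)
    have hcont : ContinuousAt (η k) 0 := by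
      apply ContinuousAt.div
      · fun_prop
      · fun_prop
      · simp only [zero_mul, add_zero]
        positivity
    have h0 : η k 0 = 0 := by simp [η]
    apply tendsto_nhdsWithin_of_tendsto_nhds_of_eventually_within
    · have := hcont.tendsto
      rw [h0] at this
      exact this.mono_left nhdsWithin_le_nhds
    · filter_upwards [self_mem_nhdsWithin] with δ hδ
      have hδ' : 0 < δ := hδ
      show 0 < η k δ
      simp only [η]
      positivity
  have hev : ∀ᶠ δ : ℝ in 𝓝[>] 0, ∀ k, k ≠ a → k ≠ b →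
      (∀ m, m ≠ k → 0 < S t m (seg (x k) v (η k δ))) ∧
      (∀ m, m ≠ l k → 0 < S (j k) m (seg (x k) v (η k δ))) := by
    rw [Filter.eventually_all]
    intro k
    by_cases hka : k = a
    · simp [hka]
    by_cases hkb : k = b
    · simp [hkb]
    have := (hη k hka hkb).eventually (ev_others (h.simp t).aff (h.simp (j k)).aff v
      (hxt k hka hkb) (hxj k hka hkb))
    filter_upwards [this] with δ hδ _ _
    exact hδ
  obtain ⟨δ, hδ1, hδ2⟩ := (hev.and self_mem_nhdsWithin).exists
  have hδ : 0 < δ := hδ2
  refine ⟨1 / δ, by positivity, ?_⟩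
  intro k hka hkb
  refine ⟨some (j k), by simp, l k, ?_, seg (x k) v (η k δ), ?_, ?_, ?_, ?_⟩
  · intro y
    rw [cut_ne _ _ _ _ _ _ (hj k hka hkb), cut_none, cutL_ne _ _ _ _ _ hkb]
    exact hl k hka hkb y
  · rw [cut_none, cutL_ne _ _ _ _ _ hkb, ((h.simp t).aff k).seg, hx0 k hka hkb, hv0 k hkb]; simp
  · rw [cut_none, cutL_ne _ _ _ _ _ hab, cutL_b, ((h.simp t).aff a).seg, ((h.simp t).aff b).seg,
      hv0 a hab, hxab k hka hkb]
    have hpos : 0 < S t a (x k) := hxt k hka hkb a (Ne.symm hka)
    have hpb : 0 < S t b (x k) := hxt k hka hkb b (Ne.symm hkb)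
    simp only [η]
    rw [hxab k hka hkb]
    have hden : θ * S t b v + δ * (θ * S t b (x k)) ≠ 0 := by positivity
    field_simp
    ring
  · intro m hm
    rw [cut_none]
    by_cases hmb : m = b
    · subst hmb
      rw [cutL_b, ((h.simp t).aff m).seg, ((h.simp t).aff a).seg, hv0 a hab, hxab k hka hkb]
      have hpos : 0 < S t a (x k) := hxt k hka hkb a (Ne.symm hka)
      have hη' : 0 < η k δ := by simp only [η]; positivity
      have : 0 < η k δ * (θ * S t m v) := by positivity
      nlinarith
    · rw [cutL_ne _ _ _ _ _ hmb]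
      exact (hδ1 k hka hkb).1 m hm
  · intro m hm
    rw [cut_ne _ _ _ _ _ _ (hj k hka hkb)]
    exact (hδ1 k hka hkb).2 m hm

end Pool.Agent.H392R3
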