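import Pool.Agent.H392R3.Base

/-!
# The integer data of the two base families
-/

set_option linter.unusedSectionVars false

open Module Finset

namespace Pool.Agent.H392R3

/-! ## dimension three, six members -/

def G3 : Fin 6 → Fin 4 → Fin 4 → ℤ :=
  ![![![-196, 161, 2, 68],
    ![196, -162, -2, 73],
    ![140, 474, -6, -130],
    ![175, 111, 66, -59]],
    ![![-104, 123, -165, 63],
    ![82, -95, 129, 48],
    ![-65, -218, 4, -64],
    ![-206, -132, -81, -72]],
    ![![196, -161, -2, -68],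
    ![104, -123, 165, -63],
    ![96, 36, -126, 46],
    ![-151, -55, 196, 71]],
    ![![-196, 162, 2, -73],
    ![-82, 95, -129, -48],
    ![28, -104, -216, 69],
    ![-19, 72, 151, 45]],
    ![![-140, -474, 6, 130],
    ![65, 218, -4, 64],
    ![-96, -36, 126, -46],
    ![-28, 104, 216, -69]],
    ![![-175, -111, -66, 59],
    ![206, 132, 81, 72],
    ![151, 55, -196, -71],
    ![19, -72, -151, -45]]]

def A3 : Fin 6 → Fin 4 → Fin 4 → ℤ :=
  ![![![-857970, 3638046, 1471570, 270022],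
    ![2531214, 1080324, 1873326, 126336],
    ![5226606, -4263714, -7040607, 16261644],
    ![8064000, 8053710, 13286, 896]],
    ![![457776, -1668582, 3067389, -3438402],
    ![-940584, -450465, -2474676, 1076391],
    ![-1957288, 1996464, -3775158, 2974045],
    ![2616605, 3353829, 7818, 11548]],
    ![![-1362198, 2893486, 2876295, -600696],
    ![-4125548, 3478748, 1631758, -1921648],
    ![-2211842, 3201930, 1081653, 21976],
    ![13014, 9426, 4395257, 2817720]],
    ![![-3150501, 3232126, -1506905, 647376],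
    ![-1977105, 3933050, -809185, 2228700],
    ![544971, -1471586, -470525, 35844],
    ![4476, 9784, 2237320, 3208704]],
    ![![518246, -1673358, -6363730, 3666792],
    ![-499619, 1221468, 1861759, -1049528],
    ![697158, 41392, -1716779, 2496398],
    ![1219056, 2649672, 14248, 6894]],
    ![![-1250409, 1612334, -1683993, 3597276],
    ![1324024, -1152304, 3892888, -6249856],
    ![-1702074, -20116, -2071578, 1004696],
    ![3065015, 2591950, 11655, 35580]]]

def D3 : Fin 6 → ℤ := ![1134492786, 324498099, 400761152, 297970380, 326925194, 365027680]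

def X3 : Fin 6 → Fin 4 → Fin 4 → ℤ :=
  ![![![167, 98, 147, 245],
    ![20, 56, -21, 70],
    ![79, 90, 395, 395],
    ![36, 49, -84, 105]],
    ![![0, -385, -119, 440],
    ![-215, -43, 25, 215],
    ![-466, 53, 404, 318],
    ![246, -412, -412, 515]],
    ![![167, 98, 147, 245],
    ![0, -385, -119, 440],
    ![137, -40, 128, 96],
    ![8, -12, -3, 16]],
    ![![20, 56, -21, 70],
    ![-215, -43, 25, 215],
    ![-72, 18, 5, 72],
    ![-151, 453, -415, 604]],
    ![![79, 90, 395, 395],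
    ![-466, 53, 404, 318],
    ![137, -40, 128, 96],
    ![-72, 18, 5, 72]],
    ![![36, 49, -84, 105],
    ![246, -412, -412, 515],
    ![8, -12, -3, 16],
    ![-151, 453, -415, 604]]]

def nb3 : Fin 6 → Fin 4 → Fin 6 :=
  ![![2, 3, 4, 5],
    ![2, 3, 4, 5],
    ![0, 1, 4, 5],
    ![0, 1, 4, 5],
    ![0, 1, 2, 3],
    ![0, 1, 2, 3]]

def fb3 : Fin 6 → Fin 4 → Fin 4 :=
  ![![0, 0, 0, 0],
    ![1, 1, 1, 1],
    ![0, 0, 2, 2],
    ![1, 1, 3, 3],
    ![2, 2, 2, 2],
    ![3, 3, 3, 3]]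

def C3 : Fin 6 → Fin 6 → Fin 4 → ℤ :=
  ![![![0, 0, 0, 0],
    ![0, 0, 36341, 40726],
    ![1, 0, 0, 0],
    ![0, 1, 0, 0],
    ![0, 0, 1, 0],
    ![0, 0, 0, 1]],
    ![![0, 0, 78930, 34390],
    ![0, 0, 0, 0],
    ![1, 0, 0, 0],
    ![0, 1, 0, 0],
    ![0, 0, 1, 0],
    ![0, 0, 0, 1]],
    ![![1, 0, 0, 0],
    ![0, 1, 0, 0],
    ![0, 0, 0, 0],
    ![28256, 12724, 0, 0],
    ![0, 0, 1, 0],
    ![0, 0, 0, 1]],
    ![![1, 0, 0, 0],
    ![0, 1, 0, 0],
    ![28199, 16274, 0, 0],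
    ![0, 0, 0, 0],
    ![0, 0, 1, 0],
    ![0, 0, 0, 1]],
    ![![1, 0, 0, 0],
    ![0, 1, 0, 0],
    ![0, 0, 1, 0],
    ![0, 0, 0, 1],
    ![0, 0, 0, 0],
    ![0, 0, 18806, 18141]],
    ![![1, 0, 0, 0],
    ![0, 1, 0, 0],
    ![0, 0, 1, 0],
    ![0, 0, 0, 1],
    ![0, 0, 12048, 26004],
    ![0, 0, 0, 0]]]

lemma den3 : ∀ i, 0 < D3 i := by decide +kernel

lemma adj3 : ∀ i m m', ∑ j, A3 i m j * G3 i j m' = if m = m' then D3 i else 0 := by
  decide +kernel

lemma lam3 : ∀ i j, 0 < A3 i (Fin.last 3) j := by decide +kernel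

lemma ptd3 : ∀ i j, 0 < X3 i j (Fin.last 3) := by decide +kernel

lemma nbne3 : ∀ i k, nb3 i k ≠ i := by decide +kernel

lemma neg3 : ∀ i k m, G3 (nb3 i k) (fb3 i k) m = - G3 i k m := by decide +kernel

lemma con3 : ∀ i k, ∑ m, G3 i k m * X3 i k m = 0 ∧
      (∀ l, l ≠ k → 0 < ∑ m, G3 i l m * X3 i k m) ∧
      ∀ l, l ≠ fb3 i k → 0 < ∑ m, G3 (nb3 i k) l m * X3 i k m := by decide +kernel

lemma sepA3 : ∀ i j k, 0 ≤ C3 i j k := by decide +kernel

lemma sepB3 : ∀ i j, i ≠ j → 0 < ∑ k, C3 i j k := by decide +kernel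

lemma sepC3 : ∀ i j, i ≠ j → ∀ m : Fin 3, ∑ k, C3 i j k * G3 i k m.castSucc +
      ∑ k, C3 j i k * G3 j k m.castSucc = 0 := by decide +kernel

lemma sepD3 : ∀ i j, i ≠ j → ∑ k, C3 i j k * G3 i k (Fin.last 3) +
      ∑ k, C3 j i k * G3 j k (Fin.last 3) ≤ 0 := by decide +kernel

lemma slice3 : ∀ k, k ≠ (0 : Fin 4) → k ≠ 3 →
    ∑ m, G3 4 0 m * X3 4 k m = ∑ m, G3 4 3 m * X3 4 k m := by decide +kernel

/-- six tangled tetrahedra, algebraically -/
theorem base3 : AlgT (fun i k => evZ (G3 i k)) :=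
  algBase G3 A3 D3 X3 nb3 fb3 C3 den3 adj3 lam3 ptd3 nbne3 neg3 con3 sepA3 sepB3 sepC3 sepD3

theorem base3_slice : Slice (fun i k => evZ (G3 i k)) 4 0 3 1 :=
  algBase_slice G3 X3 nb3 fb3 ptd3 nbne3 neg3 con3 4 0 3 slice3

/-! ## dimension four, six members -/

def G4 : Fin 6 → Fin 6 → Fin 5 → ℤ :=
  ![![![0, 0, 0, 0, 0],
    ![69, 11, 4, 34, 37],
    ![-19, 61, 31, 44, -27],
    ![-82, -42, -39, -1, 2],
    ![-46, 56, 4, 29, -18],
    ![-19, 25, 38, -63, 29]],
    ![![-69, -11, -4, -34, -37],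
    ![0, 0, 0, 0, 0],
    ![-4, -9, -45, -70, -17],
    ![24, 40, -45, 1, 18],
    ![70, -92, 12, -112, 38],
    ![-50, -18, 54, 41, 28]],
    ![![19, -61, -31, -44, 27],
    ![4, 9, 45, 70, 17],
    ![0, 0, 0, 0, 0],
    ![59, 37, 63, -2, -22],
    ![-22, 37, -24, -35, 0],
    ![15, 24, -7, -64, -2]],
    ![![82, 42, 39, 1, -2],
    ![-24, -40, 45, -1, -18],
    ![-59, -37, -63, 2, 22],
    ![0, 0, 0, 0, 0],
    ![36, -48, 5, -2, -2],
    ![-54, 5, 77, -8, 48]],
    ![![46, -56, -4, -29, 18],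
    ![-70, 92, -12, 112, -38],
    ![22, -37, 24, 35, 0],
    ![-36, 48, -5, 2, 2],
    ![0, 0, 0, 0, 0],
    ![3, -31, -21, 81, -24]],
    ![![19, -25, -38, 63, -29],
    ![50, 18, -54, -41, -28],
    ![-15, -24, 7, 64, 2],
    ![54, -5, -77, 8, -48],
    ![-3, 31, 21, -81, 24],
    ![0, 0, 0, 0, 0]]]

def A4 : Fin 6 → Fin 5 → Fin 6 → ℤ :=
  ![![![0, -85029, -1483710, -1905020, 558869, -794635],
    ![0, 80601, -3293365, -2008245, 5024689, 88200],
    ![0, 211522, 6591110, 1923770, -6529002, 1681520],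
    ![0, 1634446, 3171150, 1934230, -2076766, -555300],
    ![1, 3148334, 119445, 2164275, 78176, 1784155]],
    ![![662382, 0, -3205566, 369426, 886362, -2511354],
    ![22917774, 0, -29240552, 17738732, 7943089, -9652368],
    ![20434740, 0, -27255000, 13422690, 7762800, -8708730],
    ![-16163112, 0, 19113596, -11753096, -6286462, 6333474],
    ![173238, 1, 53726, 3386434, 923123, 2674494]],
    ![![4312943, -1272681, 0, 5123110, 8100622, -8947268],
    ![1633762, -112566, 0, 2276801, 4806134, -3945835],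
    ![-4448863, 1870395, 0, -4972712, -9652670, 10538539],
    ![2066776, -601584, 0, 2596523, 4702325, -5773741],
    ![1386405, 1808406, 1, 60693, 1738218, 72306]],
    ![![656162, -524646, -27328, 0, 1020500, -114356],
    ![-576502, -1022606, -1108268, 0, -1103184, 54492],
    ![1542578, 1708026, 765100, 0, -629208, 327896],
    ![26725480, 19365124, 24995936, 0, -12395244, -3597456],
    ![2777929, 3857, 3023342, 1, 206458, 1050980]],
    ![![2814500, 2395958, -671134, -3078442, 0, -1939262],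
    ![1813590, 1741734, -466266, -1481028, 0, -1520972],
    ![-1329820, -283802, 1191596, -468098, 0, -587020],
    ![1059986, 529838, 597312, 690344, 0, 13608],
    ![2750304, 86285, 1491650, 4267686, 1, 115454]],
    ![![158768, 11121, -67558, -76777, 56895, 0],
    ![-205722, 53499, 95661, 43464, -107209, 0],
    ![114586, 5539, -73929, -64787, 21507, 0],
    ![-52700, 22009, 31152, 5132, -30334, 0],
    ![7445, 1721, 37819, 8271, 35618, 1]]]

def D4 : Fin 6 → ℤ := ![167925220, 163597170, 66695979, 110922364, 51991118, 269369]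

def X4 : Fin 6 → Fin 6 → Fin 5 → ℤ :=
  ![![![0, 0, 0, 0, 1],
    ![-73, 115, 23, -92, 184],
    ![-305, 113, 488, -183, 732],
    ![-137, -164, 492, 574, 820],
    ![-54, -37, 89, 48, 120],
    ![0, 126, -147, 58, 210]],
    ![![-73, 115, 23, -92, 184],
    ![0, 0, 0, 0, 1],
    ![-56, 56, 70, -83, 140],
    ![0, -15, 43, -165, 150],
    ![-96, -80, -88, 37, 120],
    ![-108, -540, -437, -162, 540]],
    ![![-305, 113, 488, -183, 732],
    ![-56, 56, 70, -83, 140],
    ![0, 0, 0, 0, 1],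
    ![0, -21, 83, -84, 210],
    ![99, 66, -59, 48, 132],
    ![128, 112, -96, 75, 240]],
    ![![-137, -164, 492, 574, 820],
    ![0, -15, 43, -165, 150],
    ![0, -21, 83, -84, 210],
    ![0, 0, 0, 0, 1],
    ![-3, -4, 24, 33, 69],
    ![693, -924, -46, -154, 924]],
    ![![-54, -37, 89, 48, 120],
    ![-96, -80, -88, 37, 120],
    ![99, 66, -59, 48, 132],
    ![-3, -4, 24, 33, 69],
    ![0, 0, 0, 0, 1],
    ![165, 126, -81, 110, 300]],
    ![![0, 126, -147, 58, 210],
    ![-108, -540, -437, -162, 540],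
    ![128, 112, -96, 75, 240],
    ![693, -924, -46, -154, 924],
    ![165, 126, -81, 110, 300],
    ![0, 0, 0, 0, 1]]]

lemma anti4 : ∀ i j m, G4 j i m = - G4 i j m := by decide +kernel

lemma den4 : ∀ i, 0 < D4 i := by decide +kernel

lemma adj4 : ∀ i m m', ∑ j, A4 i m j * G4 i j m' = if m = m' then D4 i else 0 := by
  decide +kernel

lemma lam4 : ∀ i j, 0 < A4 i (Fin.last 4) j := by decide +kernel

lemma ptd4 : ∀ i j, 0 < X4 i j (Fin.last 4) := by decide +kernel

lemma con4 : ∀ i j, i ≠ j → ∑ m, G4 i j m * X4 i j m = 0 ∧ ∀ k, k ≠ i → k ≠ j →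
      0 < ∑ m, G4 i k m * X4 i j m ∧ 0 < ∑ m, G4 j k m * X4 i j m := by decide +kernel

lemma slice4 : ∀ k, k ≠ (4 : Fin 6) → k ≠ 1 → k ≠ 5 →
    ∑ m, G4 4 1 m * X4 4 k m = ∑ m, G4 4 5 m * X4 4 k m := by decide +kernel

/-- six mutually locked 4-simplices, algebraically -/
theorem base4 : CC (fun i j => evZ (G4 i j)) :=
  ccBase G4 A4 D4 X4 anti4 den4 adj4 lam4 ptd4 con4

theorem base4_slice : CCSlice (fun i j => evZ (G4 i j)) 4 1 5 1 :=
  ccBase_slice G4 X4 ptd4 con4 4 1 5 slice4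

end Pool.Agent.H392R3
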