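import Mathlib

/-!
# Tangled configurations of simplices: the definitions
-/

open MeasureTheory

namespace Pool.Agent.H392R3

/-- Euclidean space of dimension `d`. -/
abbrev E (d : ℕ) : Type := EuclideanSpace ℝ (Fin d)

/-- The simplex with vertices `v 0, …, v d`. -/
def body {d : ℕ} (v : Fin (d + 1) → E d) : Set (E d) := convexHull ℝ (Set.range v)

/-- The facet opposite to the vertex `v k`. -/
def facet {d : ℕ} (v : Fin (d + 1) → E d) (k : Fin (d + 1)) : Set (E d) :=
  convexHull ℝ (v '' {k}ᶜ)

/-- Two sets are in face-to-face contact when their intersection has positive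
`(d-1)`-dimensional (Hausdorff) measure. -/
def FaceToFace {d : ℕ} (F G : Set (E d)) : Prop :=
  0 < Measure.hausdorffMeasure ((d : ℝ) - 1) (F ∩ G)

/-- A family of `n` simplices in `ℝ^d` (given by their vertices) is tangled. -/
structure IsTangled {n d : ℕ} (S : Fin n → Fin (d + 1) → E d) : Prop where
  /-- each member is a `d`-simplex -/
  simplex : ∀ i, AffineIndependent ℝ (S i)
  /-- the interiors are pairwise disjoint -/
  nonoverlapping : ∀ i j, i ≠ j →
    Disjoint (interior (body (S i))) (interior (body (S j)))
  /-- each facet of each member is in face-to-face contact with a facet of another member -/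
  blocked : ∀ i k, ∃ j, j ≠ i ∧ ∃ l, FaceToFace (facet (S i) k) (facet (S j) l)

end Pool.Agent.H392R3
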