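import Pool.Agent.H392R3.Coord

/-!
# Five mutually locked tetrahedra do not exist
-/

open Module Finset

namespace Pool.Agent.H392R3

variable {V : Type*} [AddCommGroup V] [Module ℝ V]

/-- A complete contact system on five simplices. -/
structure Sys (c : Fin 5 → Fin 5 → V → ℝ) (x : Fin 5 → Fin 5 → V) : Prop where
  aff : ∀ i j, IsAff (c i j)
  anti : ∀ i j, i ≠ j → ∃ ρ : ℝ, 0 < ρ ∧ ∀ p, c j i p = -ρ * c i j p
  diag : ∀ i p, c i i p = 0
  sum : ∀ i p, ∑ j, c i j p = 1
  zero : ∀ i j, i ≠ j → c i j (x i j) = 0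
  pos : ∀ i j k, i ≠ j → k ≠ i → k ≠ j → 0 < c i k (x i j) ∧ 0 < c j k (x i j)
  symm : ∀ i j, x i j = x j i

variable {c : Fin 5 → Fin 5 → V → ℝ} {x : Fin 5 → Fin 5 → V}

lemma Sys.perm (h : Sys c x) (π : Fin 5 → Fin 5) (hπ : Function.Injective π) :
    Sys (fun i j => c (π i) (π j)) (fun i j => x (π i) (π j)) where
  aff := fun i j => h.aff _ _
  anti := fun i j hij => h.anti _ _ (fun e => hij (hπ e))
  diag := fun i p => h.diag _ _
  sum := by
    intro i p
    have hb : Function.Bijective π := Finite.injective_iff_bijective.mp hπ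
    rw [← h.sum (π i) p]
    exact hb.sum_comp (fun j => c (π i) j p)
  zero := fun i j hij => h.zero _ _ (fun e => hij (hπ e))
  pos := fun i j k h1 h2 h3 =>
    h.pos _ _ _ (fun e => h1 (hπ e)) (fun e => h2 (hπ e)) (fun e => h3 (hπ e))
  symm := fun i j => h.symm _ _

lemma Sys.neg_of_pos (h : Sys c x) {i j : Fin 5} (hij : i ≠ j) {p : V} (hp : 0 < c i j p) :
    c j i p < 0 := by
  obtain ⟨ρ, hρ, h1⟩ := h.anti i j hij
  rw [h1]
  nlinarith [mul_pos hρ hp]

lemma Sys.pos_of_neg (h : Sys c x) {i j : Fin 5} (hij : i ≠ j) {p : V} (hp : c i j p < 0) :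
    0 < c j i p := by
  obtain ⟨ρ, hρ, h1⟩ := h.anti i j hij
  rw [h1]
  nlinarith [mul_pos hρ (neg_pos.mpr hp)]

/-- at the contact point of `a`, `b`: `k` beats `l` beats `m` beats `k` -/
def Cyc (c : Fin 5 → Fin 5 → V → ℝ) (x : Fin 5 → Fin 5 → V) (a b k l m : Fin 5) : Prop :=
  0 < c k l (x a b) ∧ 0 < c l m (x a b) ∧ 0 < c m k (x a b)

lemma Cyc.rot {a b k l m : Fin 5} (h : Cyc c x a b k l m) : Cyc c x a b l m k :=
  ⟨h.2.1, h.2.2, h.1⟩

lemma Cyc.swap {a b k l m : Fin 5} (h : Cyc c x a b k l m) (hs : Sys c x) :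
    Cyc c x b a k l m := by
  unfold Cyc
  rw [hs.symm b a]; exact h

/-- tournament argument on three vertices -/
lemma tour (h : Sys c x) {k l m : Fin 5} (hkl : k ≠ l) (hlm : l ≠ m) (hkm : k ≠ m) (p : V)
    (h1 : 0 < c k l p + c k m p) (h2 : 0 < c l k p + c l m p) (h3 : 0 < c m k p + c m l p) :
    (0 < c k l p ∧ 0 < c l m p ∧ 0 < c m k p) ∨ (0 < c k m p ∧ 0 < c m l p ∧ 0 < c l k p) := by
  by_cases a : 0 < c k l p
  · have a' := h.neg_of_pos hkl a
    have b : 0 < c l m p := by linarith
    have b' := h.neg_of_pos hlm b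
    have e : 0 < c m k p := by linarith
    exact Or.inl ⟨a, b, e⟩
  · have b : 0 < c k m p := by linarith
    have b' := h.neg_of_pos hkm b
    have e : 0 < c m l p := by linarith
    have e' := h.neg_of_pos hlm.symm e
    have f : 0 < c l k p := by linarith
    exact Or.inr ⟨b, e, f⟩

lemma cyc0 (h : Sys c x) : Cyc c x 0 1 2 3 4 ∨ Cyc c x 0 1 2 4 3 := by
  apply tour h (by decide) (by decide) (by decide)
  · have := h.sum 2 (x 0 1)
    rw [Fin.sum_univ_five, h.diag] at this
    have h1 := h.neg_of_pos (by decide) (h.pos 0 1 2 (by decide) (by decide) (by decide)).1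
    have h2 := h.neg_of_pos (by decide) (h.pos 0 1 2 (by decide) (by decide) (by decide)).2
    linarith
  · have := h.sum 3 (x 0 1)
    rw [Fin.sum_univ_five, h.diag] at this
    have h1 := h.neg_of_pos (by decide) (h.pos 0 1 3 (by decide) (by decide) (by decide)).1
    have h2 := h.neg_of_pos (by decide) (h.pos 0 1 3 (by decide) (by decide) (by decide)).2
    linarith
  · have := h.sum 4 (x 0 1)
    rw [Fin.sum_univ_five, h.diag] at this
    have h1 := h.neg_of_pos (by decide) (h.pos 0 1 4 (by decide) (by decide) (by decide)).1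
    have h2 := h.neg_of_pos (by decide) (h.pos 0 1 4 (by decide) (by decide) (by decide)).2
    linarith

lemma cycP (h : Sys c x) (a b k l m : Fin 5) (hinj : Function.Injective ![a, b, k, l, m]) :
    Cyc c x a b k l m ∨ Cyc c x a b k m l := cyc0 (h.perm _ hinj)

/-! ## the sign argument -/

/-- a sign vector that can be the sign vector of numbers with zero sum -/
def OrthP (p : Fin 5 → SignType) : Prop :=
  (∀ a, p a = 0) ∨ ((∃ a, p a = 1) ∧ (∃ a, p a = -1))

instance (p : Fin 5 → SignType) : Decidable (OrthP p) := by unfold OrthP; infer_instance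

lemma orth (y r : Fin 5 → ℝ) (h : ∑ a, y a * r a = 0) (e s : Fin 5 → SignType)
    (he : ∀ a, SignType.sign (r a) = e a) (hs : ∀ a, SignType.sign (y a) = s a) :
    OrthP (fun a => s a * e a) := by
  have hz : ∀ a, s a * e a = SignType.sign (y a * r a) := by
    intro a; rw [sign_mul, he, hs]
  by_cases hp : ∃ a, 0 < y a * r a
  · right
    refine ⟨?_, ?_⟩
    · obtain ⟨a, ha⟩ := hp
      exact ⟨a, by show s a * e a = 1; rw [hz, sign_pos ha]⟩
    · by_contra hn
      push Not at hn
      have h0 : ∀ a, 0 ≤ y a * r a := by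
        intro a
        by_contra hneg
        apply hn a
        show s a * e a = -1
        rw [hz, sign_neg (not_le.mp hneg)]
      obtain ⟨a, ha⟩ := hp
      have := (Finset.sum_eq_zero_iff_of_nonneg (fun a _ => h0 a)).mp h a (Finset.mem_univ _)
      linarith
  · left
    push Not at hp
    have := (Finset.sum_eq_zero_iff_of_nonpos (fun a _ => hp a)).mp h
    intro a
    show s a * e a = 0
    rw [hz, this a (Finset.mem_univ _)]
    exact sign_zero

lemma final : ∀ s0 s1 s2 s3 s4 : SignType,
    OrthP (fun a => ![s0, s1, s2, s3, s4] a * ![-1, 0, -1, 1, 1] a) →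
    OrthP (fun a => ![s0, s1, s2, s3, s4] a * ![-1, 1, 1, -1, 1] a) →
    OrthP (fun a => ![s0, s1, s2, s3, s4] a * ![-1, 1, -1, -1, 1] a) →
    OrthP (fun a => ![s0, s1, s2, s3, s4] a * ![1, 1, -1, -1, 0] a) →
    OrthP (fun a => ![s0, s1, s2, s3, s4] a * ![-1, -1, 0, 1, 1] a) →
    OrthP (fun a => ![s0, s1, s2, s3, s4] a * ![-1, 1, 1, 0, -1] a) →
    OrthP (fun a => ![s0, s1, s2, s3, s4] a * ![1, -1, 1, 1, -1] a) →
    OrthP (fun a => ![s0, s1, s2, s3, s4] a * ![-1, -1, 1, 1, -1] a) →
    OrthP (fun a => ![s0, s1, s2, s3, s4] a * ![1, 1, 1, 1, 1] a) →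
    OrthP (fun a => ![s0, s1, s2, s3, s4] a * ![1, 1, -1, 1, -1] a) →
    OrthP (fun a => ![s0, s1, s2, s3, s4] a * ![1, -1, 1, -1, 1] a) →
    OrthP (fun a => ![s0, s1, s2, s3, s4] a * ![1, 1, -1, 1, 1] a) →
    OrthP (fun a => ![s0, s1, s2, s3, s4] a * ![1, -1, 1, 1, 1] a) →
    OrthP (fun a => ![s0, s1, s2, s3, s4] a * ![-1, 1, 1, 1, 1] a) →
    OrthP (fun a => ![s0, s1, s2, s3, s4] a * ![1, 1, 1, -1, 1] a) →
    OrthP (fun a => ![s0, s1, s2, s3, s4] a * ![1, 1, 1, 1, -1] a) →
    s0 = 0 ∧ s1 = 0 ∧ s2 = 0 ∧ s3 = 0 ∧ s4 = 0 := by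
  decide +kernel

/-- affine dependency of five points in a three-dimensional space -/
lemma exists_dep [FiniteDimensional ℝ V] (hV : finrank ℝ V = 3) (P : Fin 5 → V) :
    ∃ y : Fin 5 → ℝ, y ≠ 0 ∧ ∑ a, y a = 0 ∧ ∑ a, y a • P a = 0 := by
  let A : (Fin 5 → ℝ) →ₗ[ℝ] V × ℝ :=
    (Fintype.linearCombination ℝ P).prod (Fintype.linearCombination ℝ (fun _ => (1 : ℝ)))
  have hk : LinearMap.ker A ≠ ⊥ := by
    apply LinearMap.ker_ne_bot_of_finrank_lt
    rw [Module.finrank_prod, hV]
    simp
  obtain ⟨y, hy, hy0⟩ := Submodule.exists_mem_ne_zero_of_ne_bot hk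
  refine ⟨y, hy0, ?_, ?_⟩
  · have := congrArg Prod.snd (LinearMap.mem_ker.mp hy)
    simpa [A, Fintype.linearCombination_apply] using this
  · have := congrArg Prod.fst (LinearMap.mem_ker.mp hy)
    simpa [A, Fintype.linearCombination_apply] using this

lemma IsAff.dep {f : V → ℝ} (hf : IsAff f) (y : Fin 5 → ℝ) (P : Fin 5 → V) (h0 : ∑ a, y a = 0)
    (h1 : ∑ a, y a • P a = 0) : ∑ a, y a * f (P a) = 0 := by
  obtain ⟨L, c, hL⟩ := hf
  simp only [hL, mul_add, Finset.sum_add_distrib]
  rw [← Finset.sum_mul, h0, zero_mul, add_zero]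
  have := congrArg L h1
  rw [map_sum, map_zero] at this
  simpa using this

lemma core [FiniteDimensional ℝ V] (h : Sys c x) (hV : finrank ℝ V = 3)
    (h01 : Cyc c x 0 1 3 2 4) (h02 : Cyc c x 0 2 3 1 4) (h03 : Cyc c x 0 3 2 1 4)
    (h13 : Cyc c x 1 3 2 0 4) (h24 : Cyc c x 2 4 0 1 3) : False := by
  obtain ⟨y, hy, hy0, hyP⟩ := exists_dep hV ![x 0 1, x 0 2, x 0 3, x 1 3, x 2 4]
  have hdep : ∀ f : V → ℝ, IsAff f →
      ∑ a, y a * ![f (x 0 1), f (x 0 2), f (x 0 3), f (x 1 3), f (x 2 4)] a = 0 := by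
    intro f hf
    have := hf.dep y _ hy0 hyP
    rw [Fin.sum_univ_five] at this ⊢
    exact this
  have hdep2 : ∀ r : Fin 5 → ℝ, ∀ a b : Fin 5, ∀ p q t : ℝ,
      (∀ z, r z = p + q * ![c 2 a (x 0 1), c 2 a (x 0 2), c 2 a (x 0 3), c 2 a (x 1 3), c 2 a (x 2 4)] z
        + t * ![c 3 b (x 0 1), c 3 b (x 0 2), c 3 b (x 0 3), c 3 b (x 1 3), c 3 b (x 2 4)] z) →
      ∑ z, y z * r z = 0 := by
    intro r a b p q t hr
    have h1 := hdep _ (h.aff 2 a)
    have h2 := hdep _ (h.aff 3 b)
    rw [Fin.sum_univ_five] at h1 h2 hy0 ⊢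
    rw [hr, hr, hr, hr, hr]
    linear_combination p * hy0 + q * h1 + t * h2
  have hdep3 : ∀ q a b : Fin 5, ∑ z, y z * ![c q a (x 0 1) + c q b (x 0 1),
      c q a (x 0 2) + c q b (x 0 2), c q a (x 0 3) + c q b (x 0 3),
      c q a (x 1 3) + c q b (x 1 3), c q a (x 2 4) + c q b (x 2 4)] z = 0 := by
    intro q a b
    have h1 := hdep _ (h.aff q a)
    have h2 := hdep _ (h.aff q b)
    rw [Fin.sum_univ_five] at h1 h2 ⊢
    simp only [Matrix.cons_val] at h1 h2 ⊢
    linear_combination h1 + h2
  -- the values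
  have s201 := h.sum 2 (x 0 1)
  have s202 := h.sum 2 (x 0 2)
  have s203 := h.sum 2 (x 0 3)
  have s213 := h.sum 2 (x 1 3)
  have s224 := h.sum 2 (x 2 4)
  have s301 := h.sum 3 (x 0 1)
  have s302 := h.sum 3 (x 0 2)
  have s303 := h.sum 3 (x 0 3)
  have s313 := h.sum 3 (x 1 3)
  have s324 := h.sum 3 (x 2 4)
  rw [Fin.sum_univ_five, h.diag] at s201 s202 s203 s213 s224 s301 s302 s303 s313 s324
  -- S_2 row
  have a20 : c 2 0 (x 0 1) < 0 := h.neg_of_pos (by decide) (h.pos 0 1 2 (by decide) (by decide) (by decide)).1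
  have a21 : c 2 1 (x 0 1) < 0 := h.neg_of_pos (by decide) (h.pos 0 1 2 (by decide) (by decide) (by decide)).2
  have a23 : c 2 3 (x 0 1) < 0 := h.neg_of_pos (by decide) h01.1
  have a24 : 0 < c 2 4 (x 0 1) := h01.2.1
  have b20 : c 2 0 (x 0 2) = 0 := by rw [h.symm]; exact h.zero 2 0 (by decide)
  have b21 : 0 < c 2 1 (x 0 2) := (h.pos 0 2 1 (by decide) (by decide) (by decide)).2
  have b23 : 0 < c 2 3 (x 0 2) := (h.pos 0 2 3 (by decide) (by decide) (by decide)).2
  have b24 : 0 < c 2 4 (x 0 2) := (h.pos 0 2 4 (by decide) (by decide) (by decide)).2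
  have c20 : c 2 0 (x 0 3) < 0 := h.neg_of_pos (by decide) (h.pos 0 3 2 (by decide) (by decide) (by decide)).1
  have c21 : 0 < c 2 1 (x 0 3) := h03.1
  have c23 : c 2 3 (x 0 3) < 0 := h.neg_of_pos (by decide) (h.pos 0 3 2 (by decide) (by decide) (by decide)).2
  have c24 : c 2 4 (x 0 3) < 0 := h.neg_of_pos (by decide) h03.2.2
  have d20 : 0 < c 2 0 (x 1 3) := h13.1
  have d21 : c 2 1 (x 1 3) < 0 := h.neg_of_pos (by decide) (h.pos 1 3 2 (by decide) (by decide) (by decide)).1
  have d23 : c 2 3 (x 1 3) < 0 := h.neg_of_pos (by decide) (h.pos 1 3 2 (by decide) (by decide) (by decide)).2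
  have d24 : c 2 4 (x 1 3) < 0 := h.neg_of_pos (by decide) h13.2.2
  have e20 : 0 < c 2 0 (x 2 4) := (h.pos 2 4 0 (by decide) (by decide) (by decide)).1
  have e21 : 0 < c 2 1 (x 2 4) := (h.pos 2 4 1 (by decide) (by decide) (by decide)).1
  have e23 : 0 < c 2 3 (x 2 4) := (h.pos 2 4 3 (by decide) (by decide) (by decide)).1
  have e24 : c 2 4 (x 2 4) = 0 := h.zero 2 4 (by decide)
  -- S_3 row
  have a30 : c 3 0 (x 0 1) < 0 := h.neg_of_pos (by decide) (h.pos 0 1 3 (by decide) (by decide) (by decide)).1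
  have a31 : c 3 1 (x 0 1) < 0 := h.neg_of_pos (by decide) (h.pos 0 1 3 (by decide) (by decide) (by decide)).2
  have a32 : 0 < c 3 2 (x 0 1) := h01.1
  have a34 : c 3 4 (x 0 1) < 0 := h.neg_of_pos (by decide) h01.2.2
  have b30 : c 3 0 (x 0 2) < 0 := h.neg_of_pos (by decide) (h.pos 0 2 3 (by decide) (by decide) (by decide)).1
  have b31 : 0 < c 3 1 (x 0 2) := h02.1
  have b32 : c 3 2 (x 0 2) < 0 := h.neg_of_pos (by decide) (h.pos 0 2 3 (by decide) (by decide) (by decide)).2
  have b34 : c 3 4 (x 0 2) < 0 := h.neg_of_pos (by decide) h02.2.2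
  have c30 : c 3 0 (x 0 3) = 0 := by rw [h.symm]; exact h.zero 3 0 (by decide)
  have c31 : 0 < c 3 1 (x 0 3) := (h.pos 0 3 1 (by decide) (by decide) (by decide)).2
  have c32 : 0 < c 3 2 (x 0 3) := (h.pos 0 3 2 (by decide) (by decide) (by decide)).2
  have c34 : 0 < c 3 4 (x 0 3) := (h.pos 0 3 4 (by decide) (by decide) (by decide)).2
  have d30 : 0 < c 3 0 (x 1 3) := (h.pos 1 3 0 (by decide) (by decide) (by decide)).2
  have d31 : c 3 1 (x 1 3) = 0 := by rw [h.symm]; exact h.zero 3 1 (by decide)
  have d32 : 0 < c 3 2 (x 1 3) := (h.pos 1 3 2 (by decide) (by decide) (by decide)).2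
  have d34 : 0 < c 3 4 (x 1 3) := (h.pos 1 3 4 (by decide) (by decide) (by decide)).2
  have e30 : 0 < c 3 0 (x 2 4) := h24.2.2
  have e31 : c 3 1 (x 2 4) < 0 := h.neg_of_pos (by decide) h24.2.1
  have e32 : c 3 2 (x 2 4) < 0 := h.neg_of_pos (by decide) (h.pos 2 4 3 (by decide) (by decide) (by decide)).1
  have e34 : c 3 4 (x 2 4) < 0 := h.neg_of_pos (by decide) (h.pos 2 4 3 (by decide) (by decide) (by decide)).2
  have key := final (SignType.sign (y 0)) (SignType.sign (y 1)) (SignType.sign (y 2))
    (SignType.sign (y 3)) (SignType.sign (y 4))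
  have hs : ∀ a, SignType.sign (y a) = ![SignType.sign (y 0), SignType.sign (y 1),
      SignType.sign (y 2), SignType.sign (y 3), SignType.sign (y 4)] a := by
    intro a; fin_cases a <;> rfl
  have mk : ∀ (r : Fin 5 → ℝ) (e : Fin 5 → SignType), ∑ z, y z * r z = 0 →
      (∀ a, SignType.sign (r a) = e a) → OrthP (fun a => ![SignType.sign (y 0), SignType.sign (y 1),
      SignType.sign (y 2), SignType.sign (y 3), SignType.sign (y 4)] a * e a) := by
    intro r e h1 h2
    exact orth y r h1 e _ h2 hs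
  have hres := key
    (mk ![c 2 0 (x 0 1), c 2 0 (x 0 2), c 2 0 (x 0 3), c 2 0 (x 1 3), c 2 0 (x 2 4)] _
      (hdep _ (h.aff 2 0)) (by
        intro a; fin_cases a
        · exact sign_neg a20
        · exact b20 ▸ sign_zero
        · exact sign_neg c20
        · exact sign_pos d20
        · exact sign_pos e20))
    (mk ![c 2 1 (x 0 1), c 2 1 (x 0 2), c 2 1 (x 0 3), c 2 1 (x 1 3), c 2 1 (x 2 4)] _
      (hdep _ (h.aff 2 1)) (by
        intro a; fin_cases a
        · exact sign_neg a21
        · exact sign_pos b21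
        · exact sign_pos c21
        · exact sign_neg d21
        · exact sign_pos e21))
    (mk ![c 2 3 (x 0 1), c 2 3 (x 0 2), c 2 3 (x 0 3), c 2 3 (x 1 3), c 2 3 (x 2 4)] _
      (hdep _ (h.aff 2 3)) (by
        intro a; fin_cases a
        · exact sign_neg a23
        · exact sign_pos b23
        · exact sign_neg c23
        · exact sign_neg d23
        · exact sign_pos e23))
    (mk ![c 2 4 (x 0 1), c 2 4 (x 0 2), c 2 4 (x 0 3), c 2 4 (x 1 3), c 2 4 (x 2 4)] _
      (hdep _ (h.aff 2 4)) (by
        intro a; fin_cases a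
        · exact sign_pos a24
        · exact sign_pos b24
        · exact sign_neg c24
        · exact sign_neg d24
        · exact e24 ▸ sign_zero))
    (mk ![c 3 0 (x 0 1), c 3 0 (x 0 2), c 3 0 (x 0 3), c 3 0 (x 1 3), c 3 0 (x 2 4)] _
      (hdep _ (h.aff 3 0)) (by
        intro a; fin_cases a
        · exact sign_neg a30
        · exact sign_neg b30
        · exact c30 ▸ sign_zero
        · exact sign_pos d30
        · exact sign_pos e30))
    (mk ![c 3 1 (x 0 1), c 3 1 (x 0 2), c 3 1 (x 0 3), c 3 1 (x 1 3), c 3 1 (x 2 4)] _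
      (hdep _ (h.aff 3 1)) (by
        intro a; fin_cases a
        · exact sign_neg a31
        · exact sign_pos b31
        · exact sign_pos c31
        · exact d31 ▸ sign_zero
        · exact sign_neg e31))
    (mk ![c 3 2 (x 0 1), c 3 2 (x 0 2), c 3 2 (x 0 3), c 3 2 (x 1 3), c 3 2 (x 2 4)] _
      (hdep _ (h.aff 3 2)) (by
        intro a; fin_cases a
        · exact sign_pos a32
        · exact sign_neg b32
        · exact sign_pos c32
        · exact sign_pos d32
        · exact sign_neg e32))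
    (mk ![c 3 4 (x 0 1), c 3 4 (x 0 2), c 3 4 (x 0 3), c 3 4 (x 1 3), c 3 4 (x 2 4)] _
      (hdep _ (h.aff 3 4)) (by
        intro a; fin_cases a
        · exact sign_neg a34
        · exact sign_neg b34
        · exact sign_pos c34
        · exact sign_pos d34
        · exact sign_neg e34))
    (mk ![1, 1, 1, 1, 1] _
      (hdep2 _ 1 0 1 0 0 (by intro z; fin_cases z <;> simp)) (by
        intro a; fin_cases a <;> exact sign_pos one_pos))
    (mk ![1 - c 2 1 (x 0 1) - c 3 0 (x 0 1),
        1 - c 2 1 (x 0 2) - c 3 0 (x 0 2),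
        1 - c 2 1 (x 0 3) - c 3 0 (x 0 3),
        1 - c 2 1 (x 1 3) - c 3 0 (x 1 3),
        1 - c 2 1 (x 2 4) - c 3 0 (x 2 4)] _
      (hdep2 _ 1 0 1 (-1) (-1) (by intro z; fin_cases z <;> simp <;> ring)) (by
        intro a; fin_cases a
        · exact sign_pos (by linarith : (0:ℝ) < 1 - c 2 1 (x 0 1) - c 3 0 (x 0 1))
        · exact sign_pos (by linarith : (0:ℝ) < 1 - c 2 1 (x 0 2) - c 3 0 (x 0 2))
        · exact sign_neg (by linarith : 1 - c 2 1 (x 0 3) - c 3 0 (x 0 3) < (0:ℝ))
        · exact sign_pos (by linarith : (0:ℝ) < 1 - c 2 1 (x 1 3) - c 3 0 (x 1 3))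
        · exact sign_neg (by linarith : 1 - c 2 1 (x 2 4) - c 3 0 (x 2 4) < (0:ℝ))))
    (mk ![1 - c 3 1 (x 0 1) - c 2 0 (x 0 1),
        1 - c 3 1 (x 0 2) - c 2 0 (x 0 2),
        1 - c 3 1 (x 0 3) - c 2 0 (x 0 3),
        1 - c 3 1 (x 1 3) - c 2 0 (x 1 3),
        1 - c 3 1 (x 2 4) - c 2 0 (x 2 4)] _
      (hdep2 _ 0 1 1 (-1) (-1) (by intro z; fin_cases z <;> simp <;> ring)) (by
        intro a; fin_cases a
        · exact sign_pos (by linarith : (0:ℝ) < 1 - c 3 1 (x 0 1) - c 2 0 (x 0 1))
        · exact sign_neg (by linarith : 1 - c 3 1 (x 0 2) - c 2 0 (x 0 2) < (0:ℝ))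
        · exact sign_pos (by linarith : (0:ℝ) < 1 - c 3 1 (x 0 3) - c 2 0 (x 0 3))
        · exact sign_neg (by linarith : 1 - c 3 1 (x 1 3) - c 2 0 (x 1 3) < (0:ℝ))
        · exact sign_pos (by linarith : (0:ℝ) < 1 - c 3 1 (x 2 4) - c 2 0 (x 2 4))))
    (mk ![1 - c 2 1 (x 0 1),
        1 - c 2 1 (x 0 2),
        1 - c 2 1 (x 0 3),
        1 - c 2 1 (x 1 3),
        1 - c 2 1 (x 2 4)] _
      (hdep2 _ 1 0 1 (-1) 0 (by intro z; fin_cases z <;> simp <;> ring)) (by
        intro a; fin_cases a
        · exact sign_pos (by linarith : (0:ℝ) < 1 - c 2 1 (x 0 1))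
        · exact sign_pos (by linarith : (0:ℝ) < 1 - c 2 1 (x 0 2))
        · exact sign_neg (by linarith : 1 - c 2 1 (x 0 3) < (0:ℝ))
        · exact sign_pos (by linarith : (0:ℝ) < 1 - c 2 1 (x 1 3))
        · exact sign_pos (by linarith : (0:ℝ) < 1 - c 2 1 (x 2 4))))
    (mk ![1 - c 3 1 (x 0 1),
        1 - c 3 1 (x 0 2),
        1 - c 3 1 (x 0 3),
        1 - c 3 1 (x 1 3),
        1 - c 3 1 (x 2 4)] _
      (hdep2 _ 1 1 1 0 (-1) (by intro z; fin_cases z <;> simp <;> ring)) (by
        intro a; fin_cases a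
        · exact sign_pos (by linarith : (0:ℝ) < 1 - c 3 1 (x 0 1))
        · exact sign_neg (by linarith : 1 - c 3 1 (x 0 2) < (0:ℝ))
        · exact sign_pos (by linarith : (0:ℝ) < 1 - c 3 1 (x 0 3))
        · exact sign_pos (by linarith : (0:ℝ) < 1 - c 3 1 (x 1 3))
        · exact sign_pos (by linarith : (0:ℝ) < 1 - c 3 1 (x 2 4))))
    (mk ![1 - c 2 4 (x 0 1),
        1 - c 2 4 (x 0 2),
        1 - c 2 4 (x 0 3),
        1 - c 2 4 (x 1 3),
        1 - c 2 4 (x 2 4)] _
      (hdep2 _ 4 0 1 (-1) 0 (by intro z; fin_cases z <;> simp <;> ring)) (by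
        intro a; fin_cases a
        · exact sign_neg (by linarith : 1 - c 2 4 (x 0 1) < (0:ℝ))
        · exact sign_pos (by linarith : (0:ℝ) < 1 - c 2 4 (x 0 2))
        · exact sign_pos (by linarith : (0:ℝ) < 1 - c 2 4 (x 0 3))
        · exact sign_pos (by linarith : (0:ℝ) < 1 - c 2 4 (x 1 3))
        · exact sign_pos (by linarith : (0:ℝ) < 1 - c 2 4 (x 2 4))))
    (mk ![c 2 1 (x 0 1) + c 2 4 (x 0 1),
        c 2 1 (x 0 2) + c 2 4 (x 0 2),
        c 2 1 (x 0 3) + c 2 4 (x 0 3),
        c 2 1 (x 1 3) + c 2 4 (x 1 3),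
        c 2 1 (x 2 4) + c 2 4 (x 2 4)] _
      (hdep3 2 1 4) (by
        intro a; fin_cases a
        · exact sign_pos (by linarith : (0:ℝ) < c 2 1 (x 0 1) + c 2 4 (x 0 1))
        · exact sign_pos (by linarith : (0:ℝ) < c 2 1 (x 0 2) + c 2 4 (x 0 2))
        · exact sign_pos (by linarith : (0:ℝ) < c 2 1 (x 0 3) + c 2 4 (x 0 3))
        · exact sign_neg (by linarith : c 2 1 (x 1 3) + c 2 4 (x 1 3) < (0:ℝ))
        · exact sign_pos (by linarith : (0:ℝ) < c 2 1 (x 2 4) + c 2 4 (x 2 4))))
    (mk ![c 3 1 (x 0 1) + c 3 2 (x 0 1),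
        c 3 1 (x 0 2) + c 3 2 (x 0 2),
        c 3 1 (x 0 3) + c 3 2 (x 0 3),
        c 3 1 (x 1 3) + c 3 2 (x 1 3),
        c 3 1 (x 2 4) + c 3 2 (x 2 4)] _
      (hdep3 3 1 2) (by
        intro a; fin_cases a
        · exact sign_pos (by linarith : (0:ℝ) < c 3 1 (x 0 1) + c 3 2 (x 0 1))
        · exact sign_pos (by linarith : (0:ℝ) < c 3 1 (x 0 2) + c 3 2 (x 0 2))
        · exact sign_pos (by linarith : (0:ℝ) < c 3 1 (x 0 3) + c 3 2 (x 0 3))
        · exact sign_pos (by linarith : (0:ℝ) < c 3 1 (x 1 3) + c 3 2 (x 1 3))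
        · exact sign_neg (by linarith : c 3 1 (x 2 4) + c 3 2 (x 2 4) < (0:ℝ))))
  apply hy
  funext a
  obtain ⟨k0, k1, k2, k3, k4⟩ := hres
  fin_cases a
  · exact sign_eq_zero_iff.mp k0
  · exact sign_eq_zero_iff.mp k1
  · exact sign_eq_zero_iff.mp k2
  · exact sign_eq_zero_iff.mp k3
  · exact sign_eq_zero_iff.mp k4

lemma coreP [FiniteDimensional ℝ V] (h : Sys c x) (hV : finrank ℝ V = 3)
    (a b k l m : Fin 5) (hinj : Function.Injective ![a, b, k, l, m])
    (h01 : Cyc c x a b l k m) (h02 : Cyc c x a k l b m) (h03 : Cyc c x a l k b m)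
    (h13 : Cyc c x b l k a m) (h24 : Cyc c x k m a b l) : False :=
  core (h.perm _ hinj) hV h01 h02 h03 h13 h24

/-- There is no complete contact system on five simplices in three dimensions. -/
theorem no_sys [FiniteDimensional ℝ V] (h : Sys c x) (hV : finrank ℝ V = 3) : False := by
  rcases cycP h 3 4 0 1 2 (by decide) with h34 | h34
  · rcases cycP h 1 2 0 3 4 (by decide) with h12 | h12
    · rcases cycP h 2 4 0 1 3 (by decide) with h24 | h24
      · rcases cycP h 0 3 1 2 4 (by decide) with h03 | h03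
        · rcases cycP h 0 4 1 2 3 (by decide) with h04 | h04
          · rcases cycP h 1 3 0 2 4 (by decide) with h13 | h13
            · rcases cycP h 0 2 1 3 4 (by decide) with h02 | h02
              · exact coreP h hV 4 0 3 2 1 (by decide) (h04.rot.swap h) (h34.rot.rot.swap h) (h24.rot.rot.swap h) h02.rot (h13.rot.rot.swap h)
              · rcases cycP h 1 4 0 2 3 (by decide) with h14 | h14
                · exact coreP h hV 4 3 2 1 0 (by decide) (h34.rot.swap h) (h24.rot.swap h) (h14.rot.swap h) (h13.rot.swap h) (h02.rot.swap h)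
                · exact coreP h hV 3 1 0 4 2 (by decide) (h13.rot.rot.swap h) (h03.rot.rot.swap h) h34 h14 h02.rot.rot
            · rcases cycP h 1 4 0 2 3 (by decide) with h14 | h14
              · rcases cycP h 0 2 1 3 4 (by decide) with h02 | h02
                · exact coreP h hV 0 4 3 2 1 (by decide) h04.rot h03.rot h02.rot (h24.rot.rot.swap h) (h13.swap h)
                · exact coreP h hV 4 2 1 0 3 (by decide) (h24.swap h) (h14.swap h) (h04.swap h) (h02.swap h) h13.rot
              · rcases cycP h 2 3 0 1 4 (by decide) with h23 | h23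
                · exact coreP h hV 2 4 3 1 0 (by decide) h24.rot h23.rot (h12.rot.swap h) (h14.rot.swap h) (h03.rot.swap h)
                · exact coreP h hV 1 2 4 3 0 (by decide) h12.rot h14.rot h13.rot h23.rot (h04.swap h)
          · exact coreP h hV 4 0 2 3 1 (by decide) (h04.rot.swap h) (h24.rot.rot.swap h) (h34.rot.rot.swap h) h03.rot (h12.rot.rot.swap h)
        · rcases cycP h 1 4 0 2 3 (by decide) with h14 | h14
          · rcases cycP h 0 2 1 3 4 (by decide) with h02 | h02
            · exact coreP h hV 2 1 0 4 3 (by decide) (h12.rot.rot.swap h) (h02.rot.rot.swap h) h24 h14 h03.rot.rot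
            · rcases cycP h 1 3 0 2 4 (by decide) with h13 | h13
              · exact coreP h hV 4 3 2 1 0 (by decide) (h34.rot.swap h) (h24.rot.swap h) (h14.rot.swap h) (h13.rot.swap h) (h02.rot.swap h)
              · rcases cycP h 0 4 1 2 3 (by decide) with h04 | h04
                · exact coreP h hV 0 3 2 4 1 (by decide) h03.rot h02.rot h04.rot h34.rot.rot (h12.swap h)
                · exact coreP h hV 3 4 1 0 2 (by decide) h34 (h13.swap h) (h03.swap h) (h04.swap h) h12.rot
          · exact coreP h hV 4 2 3 1 0 (by decide) (h24.rot.swap h) (h34.rot.swap h) (h14.rot.swap h) (h12.rot.swap h) (h03.rot.swap h)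
      · rcases cycP h 0 1 2 3 4 (by decide) with h01 | h01
        · rcases cycP h 0 2 1 3 4 (by decide) with h02 | h02
          · rcases cycP h 1 3 0 2 4 (by decide) with h13 | h13
            · rcases cycP h 2 3 0 1 4 (by decide) with h23 | h23
              · rcases cycP h 1 4 0 2 3 (by decide) with h14 | h14
                · exact coreP h hV 3 4 2 1 0 (by decide) h34.rot (h23.rot.swap h) (h13.rot.swap h) (h14.rot.swap h) (h02.rot.swap h)
                · exact coreP h hV 4 2 1 3 0 (by decide) (h24.rot.swap h) (h14.rot.swap h) (h34.rot.swap h) h23.rot (h01.rot.rot.swap h)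
              · rcases cycP h 0 4 1 2 3 (by decide) with h04 | h04
                · exact coreP h hV 0 2 1 4 3 (by decide) h02.rot.rot h01.rot.rot h04 h24.rot.rot h13
                · exact coreP h hV 2 4 3 0 1 (by decide) h24 h23 (h02.rot.swap h) (h04.rot.swap h) (h13.rot.swap h)
            · rcases cycP h 0 4 1 2 3 (by decide) with h04 | h04
              · exact coreP h hV 2 0 1 4 3 (by decide) (h02.rot.rot.swap h) (h12.rot.rot.swap h) h24.rot.rot h04 h13.rot.rot
              · rcases cycP h 2 3 0 1 4 (by decide) with h23 | h23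
                · exact coreP h hV 1 3 0 2 4 (by decide) h13.rot.rot (h01.swap h) h12 (h23.swap h) h04
                · exact coreP h hV 2 1 4 3 0 (by decide) (h12.rot.swap h) h24.rot h23.rot h13.rot (h04.rot.rot.swap h)
          · exact coreP h hV 2 0 4 1 3 (by decide) (h02.swap h) h24.rot.rot (h12.rot.rot.swap h) h01.rot.rot (h34.rot.rot.swap h)
        · rcases cycP h 2 3 0 1 4 (by decide) with h23 | h23
          · exact coreP h hV 2 4 1 3 0 (by decide) h24.rot (h12.rot.swap h) h23.rot (h34.rot.swap h) (h01.swap h)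
          · rcases cycP h 0 4 1 2 3 (by decide) with h04 | h04
            · exact coreP h hV 4 3 0 2 1 (by decide) (h34.rot.rot.swap h) (h04.rot.swap h) (h24.swap h) (h23.swap h) h01.rot
            · rcases cycP h 1 3 0 2 4 (by decide) with h13 | h13
              · rcases cycP h 0 2 1 3 4 (by decide) with h02 | h02
                · exact coreP h hV 0 1 4 2 3 (by decide) h01 h04.rot.rot h02.rot.rot h12.rot.rot (h34.swap h)
                · exact coreP h hV 1 2 3 0 4 (by decide) h12 h13 (h01.rot.rot.swap h) (h02.rot.rot.swap h) h34.rot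
              · exact coreP h hV 2 1 4 3 0 (by decide) (h12.rot.swap h) h24.rot h23.rot h13.rot (h04.rot.rot.swap h)
    · rcases cycP h 2 3 0 1 4 (by decide) with h23 | h23
      · rcases cycP h 0 4 1 2 3 (by decide) with h04 | h04
        · rcases cycP h 0 3 1 2 4 (by decide) with h03 | h03
          · rcases cycP h 1 4 0 2 3 (by decide) with h14 | h14
            · rcases cycP h 0 2 1 3 4 (by decide) with h02 | h02
              · rcases cycP h 1 3 0 2 4 (by decide) with h13 | h13
                · exact coreP h hV 3 4 2 1 0 (by decide) h34.rot (h23.rot.swap h) (h13.rot.swap h) (h14.rot.swap h) (h02.rot.swap h)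
                · exact coreP h hV 4 1 0 3 2 (by decide) (h14.rot.rot.swap h) (h04.rot.rot.swap h) (h34.swap h) h13 h02.rot.rot
              · exact coreP h hV 3 0 4 2 1 (by decide) (h03.rot.swap h) h34.rot.rot (h23.rot.rot.swap h) h02.rot (h14.rot.rot.swap h)
            · rcases cycP h 1 3 0 2 4 (by decide) with h13 | h13
              · rcases cycP h 0 2 1 3 4 (by decide) with h02 | h02
                · exact coreP h hV 3 2 1 0 4 (by decide) (h23.swap h) (h13.swap h) (h03.swap h) (h02.swap h) h14.rot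
                · exact coreP h hV 0 3 4 2 1 (by decide) h03.rot h04.rot h02.rot (h23.rot.rot.swap h) (h14.swap h)
              · rcases cycP h 2 4 0 1 3 (by decide) with h24 | h24
                · exact coreP h hV 2 3 4 1 0 (by decide) h23.rot h24.rot (h12.rot.swap h) (h13.rot.swap h) (h04.rot.swap h)
                · exact coreP h hV 1 2 3 4 0 (by decide) h12.rot h13.rot h14.rot h24.rot (h03.swap h)
          · exact coreP h hV 3 0 2 4 1 (by decide) (h03.rot.swap h) (h23.rot.rot.swap h) h34.rot.rot h04.rot (h12.rot.rot.swap h)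
        · rcases cycP h 1 3 0 2 4 (by decide) with h13 | h13
          · rcases cycP h 0 2 1 3 4 (by decide) with h02 | h02
            · rcases cycP h 1 4 0 2 3 (by decide) with h14 | h14
              · exact coreP h hV 3 4 2 1 0 (by decide) h34.rot (h23.rot.swap h) (h13.rot.swap h) (h14.rot.swap h) (h02.rot.swap h)
              · rcases cycP h 0 3 1 2 4 (by decide) with h03 | h03
                · exact coreP h hV 0 4 2 3 1 (by decide) h04.rot h02.rot h03.rot (h34.rot.rot.swap h) (h12.swap h)
                · exact coreP h hV 4 3 1 0 2 (by decide) (h34.swap h) (h14.swap h) (h04.swap h) (h03.swap h) h12.rot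
            · exact coreP h hV 2 1 0 3 4 (by decide) (h12.rot.rot.swap h) (h02.rot.rot.swap h) h23 h13 h04.rot.rot
          · exact coreP h hV 3 2 4 1 0 (by decide) (h23.rot.swap h) h34.rot (h13.rot.swap h) (h12.rot.swap h) (h04.rot.swap h)
      · rcases cycP h 0 1 2 3 4 (by decide) with h01 | h01
        · rcases cycP h 2 4 0 1 3 (by decide) with h24 | h24
          · exact coreP h hV 2 3 1 4 0 (by decide) h23.rot (h12.rot.swap h) h24.rot h34.rot (h01.swap h)
          · rcases cycP h 0 3 1 2 4 (by decide) with h03 | h03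
            · exact coreP h hV 3 4 0 2 1 (by decide) h34.rot.rot (h03.rot.swap h) (h23.swap h) (h24.swap h) h01.rot
            · rcases cycP h 1 4 0 2 3 (by decide) with h14 | h14
              · rcases cycP h 0 2 1 3 4 (by decide) with h02 | h02
                · exact coreP h hV 1 2 4 0 3 (by decide) h12 h14 (h01.rot.rot.swap h) (h02.rot.rot.swap h) (h34.rot.swap h)
                · exact coreP h hV 0 1 3 2 4 (by decide) h01 h03.rot.rot h02.rot.rot h12.rot.rot h34
              · exact coreP h hV 2 1 3 4 0 (by decide) (h12.rot.swap h) h23.rot h24.rot h14.rot (h03.rot.rot.swap h)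
        · rcases cycP h 0 2 1 3 4 (by decide) with h02 | h02
          · exact coreP h hV 2 0 3 1 4 (by decide) (h02.swap h) h23.rot.rot (h12.rot.rot.swap h) h01.rot.rot h34.rot.rot
          · rcases cycP h 1 4 0 2 3 (by decide) with h14 | h14
            · rcases cycP h 2 4 0 1 3 (by decide) with h24 | h24
              · rcases cycP h 1 3 0 2 4 (by decide) with h13 | h13
                · exact coreP h hV 4 3 2 1 0 (by decide) (h34.rot.swap h) (h24.rot.swap h) (h14.rot.swap h) (h13.rot.swap h) (h02.rot.swap h)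
                · exact coreP h hV 3 2 1 4 0 (by decide) (h23.rot.swap h) (h13.rot.swap h) h34.rot h24.rot (h01.rot.rot.swap h)
              · rcases cycP h 0 3 1 2 4 (by decide) with h03 | h03
                · exact coreP h hV 0 2 1 3 4 (by decide) h02.rot.rot h01.rot.rot h03 h23.rot.rot h14
                · exact coreP h hV 2 3 4 0 1 (by decide) h23 h24 (h02.rot.swap h) (h03.rot.swap h) (h14.rot.swap h)
            · rcases cycP h 0 3 1 2 4 (by decide) with h03 | h03
              · exact coreP h hV 2 0 1 3 4 (by decide) (h02.rot.rot.swap h) (h12.rot.rot.swap h) h23.rot.rot h03 h14.rot.rot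
              · rcases cycP h 2 4 0 1 3 (by decide) with h24 | h24
                · exact coreP h hV 1 4 0 2 3 (by decide) h14.rot.rot (h01.swap h) h12 (h24.swap h) h03
                · exact coreP h hV 2 1 3 4 0 (by decide) (h12.rot.swap h) h23.rot h24.rot h14.rot (h03.rot.rot.swap h)
  · rcases cycP h 0 2 1 3 4 (by decide) with h02 | h02
    · rcases cycP h 2 4 0 1 3 (by decide) with h24 | h24
      · rcases cycP h 0 1 2 3 4 (by decide) with h01 | h01
        · rcases cycP h 1 2 0 3 4 (by decide) with h12 | h12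
          · rcases cycP h 0 3 1 2 4 (by decide) with h03 | h03
            · rcases cycP h 2 3 0 1 4 (by decide) with h23 | h23
              · rcases cycP h 1 4 0 2 3 (by decide) with h14 | h14
                · exact coreP h hV 1 2 0 4 3 (by decide) h12.rot.rot (h01.rot.rot.swap h) h14 h24 h03
                · exact coreP h hV 2 4 3 1 0 (by decide) h24.rot h23.rot (h12.rot.swap h) (h14.rot.swap h) (h03.rot.swap h)
              · rcases cycP h 0 4 1 2 3 (by decide) with h04 | h04
                · exact coreP h hV 3 4 2 0 1 (by decide) h34 (h23.swap h) (h03.rot.swap h) (h04.rot.swap h) (h12.rot.swap h)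
                · exact coreP h hV 4 2 0 3 1 (by decide) (h24.rot.rot.swap h) (h04.rot.swap h) (h34.swap h) h23 h01.rot.rot
            · rcases cycP h 1 4 0 2 3 (by decide) with h14 | h14
              · exact coreP h hV 2 1 0 4 3 (by decide) (h12.rot.rot.swap h) (h02.rot.rot.swap h) h24 h14 h03.rot.rot
              · rcases cycP h 2 3 0 1 4 (by decide) with h23 | h23
                · exact coreP h hV 2 0 4 3 1 (by decide) (h02.rot.swap h) h24.rot.rot h23.rot.rot h03.rot (h14.rot.rot.swap h)
                · exact coreP h hV 0 3 1 2 4 (by decide) h03.rot.rot h01 h02 (h23.rot.rot.swap h) h14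
          · exact coreP h hV 2 1 4 0 3 (by decide) (h12.swap h) h24 (h02.rot.rot.swap h) (h01.rot.rot.swap h) (h34.rot.swap h)
        · rcases cycP h 2 3 0 1 4 (by decide) with h23 | h23
          · rcases cycP h 1 4 0 2 3 (by decide) with h14 | h14
            · exact coreP h hV 4 3 1 2 0 (by decide) (h34.rot.swap h) (h14.rot.swap h) (h24.rot.swap h) (h23.rot.swap h) (h01.rot.swap h)
            · rcases cycP h 0 3 1 2 4 (by decide) with h03 | h03
              · rcases cycP h 1 2 0 3 4 (by decide) with h12 | h12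
                · exact coreP h hV 1 0 4 2 3 (by decide) (h01.swap h) h14.rot.rot h12.rot.rot h02.rot.rot (h34.rot.rot.swap h)
                · exact coreP h hV 0 2 3 1 4 (by decide) h02 h03 h01.rot.rot (h12.rot.rot.swap h) h34
              · exact coreP h hV 2 0 4 3 1 (by decide) (h02.rot.swap h) h24.rot.rot h23.rot.rot h03.rot (h14.rot.rot.swap h)
          · exact coreP h hV 2 4 0 3 1 (by decide) h24.rot.rot (h02.rot.swap h) h23 (h34.swap h) h01
      · rcases cycP h 1 3 0 2 4 (by decide) with h13 | h13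
        · rcases cycP h 1 4 0 2 3 (by decide) with h14 | h14
          · rcases cycP h 0 3 1 2 4 (by decide) with h03 | h03
            · rcases cycP h 1 2 0 3 4 (by decide) with h12 | h12
              · exact coreP h hV 4 1 3 2 0 (by decide) (h14.rot.swap h) (h34.rot.swap h) (h24.rot.swap h) h12.rot (h03.rot.rot.swap h)
              · rcases cycP h 0 4 1 2 3 (by decide) with h04 | h04
                · exact coreP h hV 4 3 2 0 1 (by decide) (h34.swap h) (h24.swap h) (h04.rot.swap h) (h03.rot.swap h) (h12.rot.swap h)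
                · exact coreP h hV 3 0 1 4 2 (by decide) (h03.rot.rot.swap h) (h13.rot.rot.swap h) h34.rot.rot h04 h12.rot.rot
            · rcases cycP h 0 4 1 2 3 (by decide) with h04 | h04
              · rcases cycP h 1 2 0 3 4 (by decide) with h12 | h12
                · exact coreP h hV 1 4 3 2 0 (by decide) h14.rot h13.rot h12.rot (h24.rot.swap h) (h03.swap h)
                · exact coreP h hV 4 2 0 1 3 (by decide) (h24.rot.rot.swap h) (h04.swap h) (h14.swap h) (h12.swap h) h03.rot
              · rcases cycP h 2 3 0 1 4 (by decide) with h23 | h23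
                · exact coreP h hV 0 2 4 3 1 (by decide) h02.rot h04.rot h03.rot h23.rot.rot (h14.swap h)
                · exact coreP h hV 2 4 3 0 1 (by decide) h24 h23 (h02.rot.swap h) (h04.rot.swap h) (h13.rot.swap h)
          · exact coreP h hV 4 1 2 3 0 (by decide) (h14.rot.swap h) (h24.rot.swap h) (h34.rot.swap h) h13.rot (h02.rot.rot.swap h)
        · rcases cycP h 0 4 1 2 3 (by decide) with h04 | h04
          · rcases cycP h 1 2 0 3 4 (by decide) with h12 | h12
            · exact coreP h hV 2 0 1 4 3 (by decide) (h02.rot.rot.swap h) (h12.rot.rot.swap h) h24.rot.rot h04 h13.rot.rot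
            · rcases cycP h 0 3 1 2 4 (by decide) with h03 | h03
              · exact coreP h hV 4 3 2 0 1 (by decide) (h34.swap h) (h24.swap h) (h04.rot.swap h) (h03.rot.swap h) (h12.rot.swap h)
              · rcases cycP h 1 4 0 2 3 (by decide) with h14 | h14
                · exact coreP h hV 1 3 2 4 0 (by decide) h13.rot h12.rot h14.rot h34.rot (h02.swap h)
                · exact coreP h hV 3 4 0 1 2 (by decide) h34.rot.rot (h03.swap h) (h13.swap h) (h14.swap h) h02.rot
          · exact coreP h hV 4 2 3 0 1 (by decide) (h24.swap h) (h34.swap h) (h04.rot.swap h) (h02.rot.swap h) (h13.rot.swap h)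
    · rcases cycP h 2 3 0 1 4 (by decide) with h23 | h23
      · rcases cycP h 0 1 2 3 4 (by decide) with h01 | h01
        · rcases cycP h 2 4 0 1 3 (by decide) with h24 | h24
          · rcases cycP h 1 3 0 2 4 (by decide) with h13 | h13
            · exact coreP h hV 3 4 1 2 0 (by decide) h34.rot (h13.rot.swap h) (h23.rot.swap h) (h24.rot.swap h) (h01.rot.swap h)
            · rcases cycP h 0 4 1 2 3 (by decide) with h04 | h04
              · rcases cycP h 1 2 0 3 4 (by decide) with h12 | h12
                · exact coreP h hV 0 2 4 1 3 (by decide) h02 h04 h01.rot.rot (h12.rot.rot.swap h) (h34.swap h)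
                · exact coreP h hV 1 0 3 2 4 (by decide) (h01.swap h) h13.rot.rot h12.rot.rot h02.rot.rot h34.rot.rot
              · exact coreP h hV 2 0 3 4 1 (by decide) (h02.rot.swap h) h23.rot.rot h24.rot.rot h04.rot (h13.rot.rot.swap h)
          · exact coreP h hV 2 3 0 4 1 (by decide) h23.rot.rot (h02.rot.swap h) h24 h34 h01
        · rcases cycP h 1 2 0 3 4 (by decide) with h12 | h12
          · exact coreP h hV 2 1 3 0 4 (by decide) (h12.swap h) h23 (h02.rot.rot.swap h) (h01.rot.rot.swap h) h34.rot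
          · rcases cycP h 0 4 1 2 3 (by decide) with h04 | h04
            · rcases cycP h 2 4 0 1 3 (by decide) with h24 | h24
              · rcases cycP h 1 3 0 2 4 (by decide) with h13 | h13
                · exact coreP h hV 1 2 0 3 4 (by decide) h12.rot.rot (h01.rot.rot.swap h) h13 h23 h04
                · exact coreP h hV 2 3 4 1 0 (by decide) h23.rot h24.rot (h12.rot.swap h) (h13.rot.swap h) (h04.rot.swap h)
              · rcases cycP h 0 3 1 2 4 (by decide) with h03 | h03
                · exact coreP h hV 4 3 2 0 1 (by decide) (h34.swap h) (h24.swap h) (h04.rot.swap h) (h03.rot.swap h) (h12.rot.swap h)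
                · exact coreP h hV 3 2 0 4 1 (by decide) (h23.rot.rot.swap h) (h03.rot.swap h) h34 h24 h01.rot.rot
            · rcases cycP h 1 3 0 2 4 (by decide) with h13 | h13
              · exact coreP h hV 2 1 0 3 4 (by decide) (h12.rot.rot.swap h) (h02.rot.rot.swap h) h23 h13 h04.rot.rot
              · rcases cycP h 2 4 0 1 3 (by decide) with h24 | h24
                · exact coreP h hV 2 0 3 4 1 (by decide) (h02.rot.swap h) h23.rot.rot h24.rot.rot h04.rot (h13.rot.rot.swap h)
                · exact coreP h hV 0 4 1 2 3 (by decide) h04.rot.rot h01 h02 (h24.rot.rot.swap h) h13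
      · rcases cycP h 1 4 0 2 3 (by decide) with h14 | h14
        · rcases cycP h 1 3 0 2 4 (by decide) with h13 | h13
          · rcases cycP h 0 4 1 2 3 (by decide) with h04 | h04
            · rcases cycP h 1 2 0 3 4 (by decide) with h12 | h12
              · rcases cycP h 0 3 1 2 4 (by decide) with h03 | h03
                · exact coreP h hV 3 4 2 0 1 (by decide) h34 (h23.swap h) (h03.rot.swap h) (h04.rot.swap h) (h12.rot.swap h)
                · exact coreP h hV 4 0 1 3 2 (by decide) (h04.rot.rot.swap h) (h14.rot.rot.swap h) (h34.rot.rot.swap h) h03 h12.rot.rot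
              · exact coreP h hV 3 1 4 2 0 (by decide) (h13.rot.swap h) h34.rot (h23.rot.swap h) h12.rot (h04.rot.rot.swap h)
            · rcases cycP h 0 3 1 2 4 (by decide) with h03 | h03
              · rcases cycP h 1 2 0 3 4 (by decide) with h12 | h12
                · exact coreP h hV 3 2 0 1 4 (by decide) (h23.rot.rot.swap h) (h03.swap h) (h13.swap h) (h12.swap h) h04.rot
                · exact coreP h hV 1 3 4 2 0 (by decide) h13.rot h14.rot h12.rot (h23.rot.swap h) (h04.swap h)
              · rcases cycP h 2 4 0 1 3 (by decide) with h24 | h24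
                · exact coreP h hV 0 2 3 4 1 (by decide) h02.rot h03.rot h04.rot h24.rot.rot (h13.swap h)
                · exact coreP h hV 2 3 4 0 1 (by decide) h23 h24 (h02.rot.swap h) (h03.rot.swap h) (h14.rot.swap h)
          · exact coreP h hV 3 1 2 4 0 (by decide) (h13.rot.swap h) (h23.rot.swap h) h34.rot h14.rot (h02.rot.rot.swap h)
        · rcases cycP h 0 3 1 2 4 (by decide) with h03 | h03
          · rcases cycP h 1 2 0 3 4 (by decide) with h12 | h12
            · rcases cycP h 0 4 1 2 3 (by decide) with h04 | h04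
              · exact coreP h hV 3 4 2 0 1 (by decide) h34 (h23.swap h) (h03.rot.swap h) (h04.rot.swap h) (h12.rot.swap h)
              · rcases cycP h 1 3 0 2 4 (by decide) with h13 | h13
                · exact coreP h hV 1 4 2 3 0 (by decide) h14.rot h12.rot h13.rot (h34.rot.swap h) (h02.swap h)
                · exact coreP h hV 4 3 0 1 2 (by decide) (h34.rot.rot.swap h) (h04.swap h) (h14.swap h) (h13.swap h) h02.rot
            · exact coreP h hV 2 0 1 3 4 (by decide) (h02.rot.rot.swap h) (h12.rot.rot.swap h) h23.rot.rot h03 h14.rot.rot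
          · exact coreP h hV 3 2 4 0 1 (by decide) (h23.swap h) h34 (h03.rot.swap h) (h02.rot.swap h) (h14.rot.swap h)

end Pool.Agent.H392R3
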