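import Pool.Agent.H392R3.Contact
import Pool.Agent.H392R3.Five

/-!
# Lower bounds: at least `d + 2` members, and no five tetrahedra
-/

open Module Finset

namespace Pool.Agent.H392R3

section uniq

variable {V : Type*} [AddCommGroup V] [Module ℝ V] {ι K : Type*} [Fintype K]

/-- facet `k` of `i` touches facet `l` of `j` -/
def Ct (c : ι → K → V → ℝ) (i : ι) (k : K) (j : ι) (l : K) : Prop :=
  (∃ ρ : ℝ, 0 < ρ ∧ ∀ x, c j l x = -ρ * c i k x) ∧
    ∃ x, c i k x = 0 ∧ (∀ m, m ≠ k → 0 < c i m x) ∧ (∀ m, m ≠ l → 0 < c j m x)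

variable {c : ι → K → V → ℝ}

lemma Ct.symm {i j : ι} {k l : K} (h : Ct c i k j l) : Ct c j l i k := by
  obtain ⟨⟨ρ, hρ, h1⟩, x, hx, hi, hj⟩ := h
  refine ⟨⟨1 / ρ, by positivity, fun y => ?_⟩, x, ?_, hj, hi⟩
  · rw [h1]; field_simp
  · rw [h1, hx]; simp

lemma Ct.uniq {i j : ι} {k l k' l' : K} (h : Ct c i k j l) (h' : Ct c i k' j l') : k = k' := by
  by_contra hne
  obtain ⟨⟨ρ, hρ, h1⟩, -⟩ := h
  obtain ⟨⟨ρ', hρ', h1'⟩, x, hx, hi, hj⟩ := h'
  have a : 0 < c i k x := hi k hne
  have b : c j l x < 0 := by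
    rw [h1]
    nlinarith [mul_pos hρ a]
  by_cases e : l = l'
  · rw [e, h1', hx] at b
    simp at b
  · have := hj l e
    linarith

end uniq

lemma CSys.ex {V : Type*} [AddCommGroup V] [Module ℝ V] {ι K : Type*} [Fintype K]
    {c : ι → K → V → ℝ} (h : CSys c) (i : ι) (k : K) : ∃ j, j ≠ i ∧ ∃ l, Ct c i k j l :=
  h.con i k

/-- A tangled family has at least `d + 2` members. -/
theorem card_le {V : Type*} [AddCommGroup V] [Module ℝ V] {ι K : Type*} [Fintype K] [Fintype ι]
    [DecidableEq ι] {c : ι → K → V → ℝ} (h : CSys c) (i : ι) :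
    Fintype.card K + 1 ≤ Fintype.card ι := by
  choose f hf l hl using h.ex i
  have hinj : Function.Injective (fun k => (⟨f k, hf k⟩ : {j // j ≠ i})) := by
    intro k k' hkk
    have e : f k = f k' := congrArg Subtype.val hkk
    have h1 := hl k
    have h2 := hl k'
    rw [← e] at h2
    exact h1.uniq h2
  have h1 := Fintype.card_le_of_injective _ hinj
  have h2 : Fintype.card {j // j ≠ i} = Fintype.card ι - 1 := by
    rw [Fintype.card_subtype_compl, Fintype.card_subtype_eq]
  have h3 : 0 < Fintype.card ι := Fintype.card_pos_iff.mpr ⟨i⟩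
  omega

/-- No tangled coordinate system with five members in dimension three. -/
theorem no_five {V : Type*} [AddCommGroup V] [Module ℝ V] [FiniteDimensional ℝ V]
    (hV : finrank ℝ V = 3) {c : Fin 5 → Fin 4 → V → ℝ} (h : CSys c) : False := by
  classical
  choose f hf l hl using h.ex
  have hbij : ∀ i, Function.Bijective (fun k => (⟨f i k, hf i k⟩ : {j // j ≠ i})) := by
    intro i
    rw [Fintype.bijective_iff_injective_and_card]
    refine ⟨?_, ?_⟩
    · intro k k' hkk
      have e : f i k = f i k' := congrArg Subtype.val hkk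
      have h1 := hl i k
      have h2 := hl i k'
      rw [← e] at h2
      exact h1.uniq h2
    · rw [Fintype.card_subtype_compl, Fintype.card_subtype_eq]
      simp
  let σ : ∀ i, Fin 4 ≃ {j // j ≠ i} := fun i => Equiv.ofBijective _ (hbij i)
  have hσ : ∀ i k, ((σ i) k).1 = f i k := fun i k => rfl
  -- the facet of `i` towards `j`
  let κ : ∀ i j, j ≠ i → Fin 4 := fun i j hij => (σ i).symm ⟨j, hij⟩
  have hκ : ∀ i j (hij : j ≠ i), ∃ l', Ct c i (κ i j hij) j l' := by
    intro i j hij
    have h1 : f i (κ i j hij) = j := by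
      rw [← hσ]; simp [κ]
    have h2 := hl i (κ i j hij)
    rw [h1] at h2
    exact ⟨_, h2⟩
  have hct : ∀ i j (hij : j ≠ i) (hji : i ≠ j), Ct c i (κ i j hij) j (κ j i hji) := by
    intro i j hij hji
    obtain ⟨l1, h1⟩ := hκ i j hij
    obtain ⟨l2, h2⟩ := hκ j i hji
    have := h1.symm.uniq h2
    rw [← this]
    exact h1
  -- symmetric choice of contact points
  have hx : ∀ i j : Fin 5, ∃ x : V, i < j → ∀ (hij : j ≠ i) (hji : i ≠ j),
      c i (κ i j hij) x = 0 ∧ (∀ m, m ≠ κ i j hij → 0 < c i m x) ∧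
        (∀ m, m ≠ κ j i hji → 0 < c j m x) := by
    intro i j
    by_cases hlt : i < j
    · obtain ⟨-, x, h1, h2, h3⟩ := hct i j hlt.ne' hlt.ne
      exact ⟨x, fun _ hij hji => ⟨h1, h2, h3⟩⟩
    · exact ⟨0, fun hh => absurd hh hlt⟩
  choose x hx using hx
  let X : Fin 5 → Fin 5 → V := fun i j => if i < j then x i j else x j i
  have hXs : ∀ i j, X i j = X j i := by
    intro i j
    rcases lt_trichotomy i j with hlt | heq | hgt
    · simp only [X]
      rw [if_pos hlt, if_neg (not_lt.mpr hlt.le)]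
    · rw [heq]
    · simp only [X]
      rw [if_pos hgt, if_neg (not_lt.mpr hgt.le)]
  have hX : ∀ i j (hij : j ≠ i) (hji : i ≠ j), c i (κ i j hij) (X i j) = 0 ∧
      (∀ m, m ≠ κ i j hij → 0 < c i m (X i j)) ∧
        (∀ m, m ≠ κ j i hji → 0 < c j m (X i j)) := by
    intro i j hij hji
    rcases lt_or_gt_of_ne hji with hlt | hgt
    · have := hx i j hlt hij hji
      simp only [X]
      rw [if_pos hlt]
      exact this
    · obtain ⟨h1, h2, h3⟩ := hx j i hgt hji hij
      simp only [X]
      rw [if_neg (not_lt.mpr hgt.le)]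
      refine ⟨?_, h3, h2⟩
      obtain ⟨⟨ρ, hρ, h4⟩, -⟩ := hct j i hji hij
      rw [h4, h1]; simp
  let C : Fin 5 → Fin 5 → V → ℝ := fun i j p => if hij : j ≠ i then c i (κ i j hij) p else 0
  have hC : ∀ i j (hij : j ≠ i) p, C i j p = c i (κ i j hij) p := by
    intro i j hij p
    simp only [C]
    rw [dif_pos hij]
  have hκinj : ∀ i j k (hij : j ≠ i) (hik : k ≠ i), j ≠ k → κ i j hij ≠ κ i k hik := by
    intro i j k hij hik hjk heq
    have := (σ i).symm.injective heq
    exact hjk (congrArg Subtype.val this)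
  have hS : Sys C X := by
    refine ⟨?_, ?_, ?_, ?_, ?_, ?_, ?_⟩
    · intro i j
      by_cases hij : j = i
      · refine ⟨0, 0, fun p => ?_⟩
        simp [C, hij]
      · obtain ⟨L, b, hL⟩ := h.aff i (κ i j hij)
        refine ⟨L, b, fun p => ?_⟩
        rw [hC i j hij]
        exact hL p
    · intro i j hij
      obtain ⟨⟨ρ, hρ, h4⟩, -⟩ := hct i j hij.symm hij
      refine ⟨ρ, hρ, fun p => ?_⟩
      rw [hC i j hij.symm, hC j i hij]
      exact h4 p
    · intro i p
      simp [C]
    · intro i p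
      rw [← h.sum i p, ← Finset.add_sum_erase univ _ (Finset.mem_univ i)]
      have h0 : C i i p = 0 := by simp [C]
      rw [h0, zero_add]
      rw [← Equiv.sum_comp (σ i).symm (fun k => c i k p)]
      rw [Finset.sum_subtype (univ.erase i) (p := fun j => j ≠ i) (by simp)
        (fun j => C i j p)]
      apply Finset.sum_congr rfl
      rintro ⟨j, hj⟩ _
      exact hC i j hj p
    · intro i j hij
      rw [hC i j hij.symm]
      exact (hX i j hij.symm hij).1
    · intro i j k hij hki hkj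
      rw [hC i k hki, hC j k hkj]
      obtain ⟨-, h2, h3⟩ := hX i j hij.symm hij
      refine ⟨h2 _ (hκinj i k j hki hij.symm hkj), h3 _ (hκinj j k i hkj hij hki)⟩
    · exact hXs
  exact no_sys hS hV

end Pool.Agent.H392R3
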