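import Pool.Agent.H392R3.Data

/-!
# Existence of tangled families
-/

set_option linter.unusedSectionVars false

open Module Finset

namespace Pool.Agent.H392R3

section

variable {V : Type*} [AddCommGroup V] [Module ℝ V]

/-- a tangled family with slice data -/
def Good (V : Type*) [AddCommGroup V] [Module ℝ V] (d n : ℕ) : Prop :=
  ∃ S : Fin n → Fin (d + 1) → V → ℝ, AlgT S ∧
    ∃ t a b, ∃ θ : ℝ, a ≠ b ∧ 0 < θ ∧ Slice S t a b θ

lemma AlgT.reindex {ι ι' K : Type*} [Fintype K] {S : ι → K → V → ℝ} (h : AlgT S)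
    (e : ι' ≃ ι) : AlgT (fun i => S (e i)) where
  simp := fun i => h.simp (e i)
  sep := fun i j hij => h.sep (e i) (e j) (fun hh => hij (e.injective hh))
  con := by
    intro i k
    obtain ⟨j, hj, l, hl⟩ := h.con (e i) k
    refine ⟨e.symm j, ?_, l, ?_⟩
    · intro hh
      apply hj
      rw [← hh, Equiv.apply_symm_apply]
    · simp only [Equiv.apply_symm_apply]
      exact hl

lemma Slice.reindex {ι ι' K : Type*} {S : ι → K → V → ℝ} {t : ι} {a b : K}
    {θ : ℝ} (h : Slice S t a b θ) (e : ι' ≃ ι) :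
    Slice (fun i => S (e i)) (e.symm t) a b θ := by
  intro k hka hkb
  obtain ⟨j, hj, l, hl⟩ := h k hka hkb
  refine ⟨e.symm j, fun hh => hj (e.symm.injective hh), l, ?_⟩
  simp only [Equiv.apply_symm_apply]
  exact hl

lemma Good.succ [FiniteDimensional ℝ V] {d n : ℕ} (hV : finrank ℝ V = d) (h : Good V d n) :
    Good V d (n + 1) := by
  obtain ⟨S, hS, t, a, b, θ, hab, hθ, hs⟩ := h
  have hc : Fintype.card (Fin (d + 1)) = finrank ℝ V + 1 := by rw [hV]; simp
  have h1 := cut_tangled hc hS hab hθ hs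
  obtain ⟨θ', hθ', h2⟩ := cut_slice hc hS hab hθ hs
  exact ⟨fun i => cut S t a b θ (finSuccEquiv n i), h1.reindex (finSuccEquiv n),
    (finSuccEquiv n).symm none, a, b, θ', hab, hθ', h2.reindex (finSuccEquiv n)⟩

lemma Good.of_le [FiniteDimensional ℝ V] {d n : ℕ} (hV : finrank ℝ V = d) (h : Good V d n)
    (m : ℕ) (hm : n ≤ m) : Good V d m := by
  induction m, hm using Nat.le_induction with
  | base => exact h
  | succ m _ ih => exact ih.succ hV

lemma Good.exists_tangled [FiniteDimensional ℝ V] {d n : ℕ} (hV : finrank ℝ V = d)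
    (h : Good V d n) : ∃ T : Fin n → Fin (d + 1) → E d, IsTangled T := by
  obtain ⟨S, hS, -⟩ := h
  exact transfer hV S hS

end

/-- Six or more tetrahedra. -/
theorem exists_three (n : ℕ) (hn : 6 ≤ n) : ∃ T : Fin n → Fin (3 + 1) → E 3, IsTangled T := by
  have h6 : Good (Fin 3 → ℝ) 3 6 :=
    ⟨_, base3, 4, 0, 3, 1, by decide, one_pos, base3_slice⟩
  exact (h6.of_le (by simp) n hn).exists_tangled (by simp)

/-- complete contact families with slice data exist in all dimensions at least four -/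
theorem exists_cc (d : ℕ) (hd : 4 ≤ d) : ∃ (V : Type) (_ : AddCommGroup V) (_ : Module ℝ V)
    (_ : FiniteDimensional ℝ V) (ι : Type) (_ : Fintype ι) (_ : DecidableEq ι)
    (g : ι → ι → V → ℝ), finrank ℝ V = d ∧ Fintype.card ι = d + 2 ∧ CC g ∧
      ∃ t a b, ∃ θ : ℝ, a ≠ t ∧ b ≠ t ∧ a ≠ b ∧ 0 < θ ∧ CCSlice g t a b θ := by
  induction d, hd using Nat.le_induction with
  | base =>
    exact ⟨Fin 4 → ℝ, inferInstance, inferInstance, inferInstance, Fin 6, inferInstance,
      inferInstance, _, by simp, by simp, base4, 4, 1, 5, 1, by decide, by decide, by decide,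
      one_pos, base4_slice⟩
  | succ d hd ih =>
    obtain ⟨V, i1, i2, i3, ι, i4, i5, g, hV, hι, hg, r, -⟩ := ih
    have hc : Fintype.card ι = finrank ℝ V + 2 := by rw [hV]; exact hι
    obtain ⟨F, X, hF⟩ := exists_FD hg hc (by omega) r
    obtain ⟨ε, h1, h2⟩ := newCC hg hc r hF
    obtain ⟨j0, _, hj0, -⟩ := exists_two r r (by omega : 4 ≤ Fintype.card ι)
    obtain ⟨θ, hθ, h3⟩ := h2 j0 hj0
    refine ⟨V × ℝ, inferInstance, inferInstance, inferInstance, Option ι, inferInstance,
      inferInstance, newG g r F ε, ?_, ?_, h1, none, some r, some j0, θ, ?_, ?_, ?_, hθ, h3⟩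
    · rw [Module.finrank_prod, hV]; simp
    · rw [Fintype.card_option, hι]
    · simp
    · simp
    · intro hh
      exact hj0 (Option.some_injective _ hh).symm

/-- All tangled families in dimension at least four. -/
theorem exists_ge_four (d n : ℕ) (hd : 4 ≤ d) (hn : d + 2 ≤ n) :
    ∃ T : Fin n → Fin (d + 1) → E d, IsTangled T := by
  obtain ⟨V, i1, i2, i3, ι, i4, i5, g, hV, hι, hg, t, a, b, θ, hat, hbt, hab, hθ, hs⟩ :=
    exists_cc d hd
  have e : ∀ i : ι, Fin (d + 1) ≃ {j // j ≠ i} := by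
    intro i
    apply Fintype.equivOfCardEq
    have := card_ne i
    rw [Fintype.card_fin]
    omega
  have h1 := hg.algT hV e
  have h2 := hg.slice e hat hbt hs
  have e2 : Fin (d + 2) ≃ ι := Fintype.equivOfCardEq (by rw [Fintype.card_fin, hι])
  have hG : Good V d (d + 2) := by
    refine ⟨_, h1.reindex e2, e2.symm t, _, _, θ, ?_, hθ, h2.reindex e2⟩
    intro hh
    have := (e t).symm.injective hh
    exact hab (congrArg Subtype.val this)
  exact (hG.of_le hV n hn).exists_tangled hV

end Pool.Agent.H392R3
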