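import Pool.Agent.H392R3.CC

/-!
# The functions used to add one dimension to a complete contact family
-/

set_option linter.unusedSectionVars false
set_option linter.unusedVariables false
set_option linter.unusedSimpArgs false

open Module Finset Filter Topology

namespace Pool.Agent.H392R3

variable {V : Type*} [AddCommGroup V] [Module ℝ V] {ι : Type*} [Fintype ι] [DecidableEq ι]

/-- The data needed at the root `r`. -/
structure FD (g : ι → ι → V → ℝ) (r : ι) (F : ι → V → ℝ) (X : ι → V) : Prop where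
  aff : ∀ j, IsAff (F j)
  root : ∀ x, F r x = 0
  sum : ∀ x, ∑ j, F j x = 1
  inj : ∀ x y, (∀ j, F j x = F j y) → x = y
  X0 : ∀ j, j ≠ r → g r j (X j) = 0
  Xg : ∀ j, j ≠ r → ∀ k, k ≠ r → k ≠ j → 0 < g r k (X j) ∧ 0 < g j k (X j)
  FX0 : ∀ j, j ≠ r → F j (X j) = 0
  FX : ∀ j, j ≠ r → ∀ k, k ≠ r → k ≠ j → 0 < F k (X j)
  star : ∃ x, ∀ j, j ≠ r → 0 < g r j x ∧ 0 < F j x
  neg : ∀ j, j ≠ r → ∃ y, g r j y = 0 ∧ F j y < 0
  pos : ∀ j, j ≠ r → ∃ y, g r j y < 0 ∧ 0 < F j y

lemma ev_lin (A B : ℝ) (hA : 0 < A) : ∀ᶠ η : ℝ in 𝓝[>] 0, 0 < A + η * B := by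
  have hc : Continuous fun t : ℝ => A + t * B := by fun_prop
  have h1 : ∀ᶠ t : ℝ in 𝓝 0, 0 < A + t * B :=
    hc.continuousAt.eventually (lt_mem_nhds (by simpa using hA))
  exact nhdsWithin_le_nhds h1

lemma exists_two (r j : ι) (h4 : 4 ≤ Fintype.card ι) : ∃ a b : ι, a ≠ r ∧ a ≠ j ∧ b ≠ r ∧ b ≠ j ∧ a ≠ b := by
  have h1 : ∃ a, a ∉ ({r, j} : Finset ι) := by
    by_contra hno
    push Not at hno
    have : (univ : Finset ι) ⊆ {r, j} := fun a _ => hno a
    have h2 := Finset.card_le_card this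
    rw [Finset.card_univ] at h2
    have := Finset.card_le_two (a := r) (b := j)
    omega
  obtain ⟨a, ha⟩ := h1
  have h2 : ∃ b, b ∉ ({r, j, a} : Finset ι) := by
    by_contra hno
    push Not at hno
    have : (univ : Finset ι) ⊆ {r, j, a} := fun a _ => hno a
    have h2 := Finset.card_le_card this
    rw [Finset.card_univ] at h2
    have := Finset.card_le_three (a := r) (b := j) (c := a)
    omega
  obtain ⟨b, hb⟩ := h2
  simp only [Finset.mem_insert, Finset.mem_singleton, not_or] at ha hb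
  exact ⟨a, b, ha.1, ha.2, hb.1, hb.2.1, fun e => hb.2.2 e.symm⟩

theorem exists_FD [FiniteDimensional ℝ V] {g : ι → ι → V → ℝ} (h : CC g)
    (hc : Fintype.card ι = finrank ℝ V + 2) (h4 : 4 ≤ Fintype.card ι) (r : ι) :
    ∃ F X, FD g r F X := by
  obtain ⟨lam, hpos, hlam⟩ := h.bary r
  -- contact points
  have hX : ∀ j, ∃ x, j ≠ r → g r j x = 0 ∧ ∀ k, k ≠ r → k ≠ j → 0 < g r k x ∧ 0 < g j k x := by
    intro j
    by_cases hj : j = r
    · exact ⟨0, fun hh => absurd hj hh⟩
    · obtain ⟨x, h1, h2⟩ := h.con r j (Ne.symm hj)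
      exact ⟨x, fun _ => ⟨h1, h2⟩⟩
  choose X hX using hX
  choose σ τ hσr hσj hτr hτj hστ using fun j => exists_two r j h4
  let q : ι → V → ℝ := fun j x => if j = r then 0 else
    g r (τ j) (X j) * g r (σ j) x - g r (σ j) (X j) * g r (τ j) x
  have hqaff : ∀ j, IsAff (q j) := by
    intro j
    by_cases hj : j = r
    · have : q j = fun x => 0 * g r r x := by funext x; simp [q, hj]
      rw [this]
      exact (h.aff r r).cmul 0
    · have : q j = fun x => g r (τ j) (X j) * g r (σ j) x - g r (σ j) (X j) * g r (τ j) x := by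
        funext x; simp [q, hj]
      rw [this]
      exact ((h.aff _ _).cmul _).sub ((h.aff _ _).cmul _)
  have hq : ∀ j, j ≠ r → ∀ x, q j x =
      g r (τ j) (X j) * g r (σ j) x - g r (σ j) (X j) * g r (τ j) x := by
    intro j hj x; simp [q, hj]
  have hqX : ∀ j, j ≠ r → q j (X j) = 0 := by
    intro j hj; rw [hq j hj]; ring
  -- the sum of the `q j`
  have hsumaff : IsAff (fun x => ∑ j, q j x) := by
    choose L b hL using hqaff
    refine ⟨∑ j, L j, ∑ j, b j, fun x => ?_⟩
    simp only [hL, Finset.sum_add_distrib, LinearMap.sum_apply]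
  obtain ⟨κ, hκ⟩ := h.expand hc r hsumaff
  let H : ι → V → ℝ := fun j x => q j x - κ j * g r j x
  have hHaff : ∀ j, IsAff (H j) := fun j => (hqaff j).sub ((h.aff r j).cmul _)
  have hHsum : ∀ x, ∑ j, H j x = 0 := by
    intro x
    simp only [H, Finset.sum_sub_distrib]
    have := hκ x
    rw [this]; ring
  have hHr : ∀ x, H r x = 0 := by
    intro x; simp [H, q, h.diag]
  have hHX : ∀ j, j ≠ r → H j (X j) = 0 := by
    intro j hj
    simp only [H]
    rw [hqX j hj, (hX j hj).1]; ring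
  -- expansions of the `H j`
  choose φ hφ using fun j => h.expand hc r (hHaff j)
  -- the center
  obtain ⟨ξ, hξ⟩ : ∃ x, ∀ j, j ≠ r → 0 < g r j x := by
    have hs : 0 < ∑ j, lam j * (if j = r then (0:ℝ) else 1) := by
      obtain ⟨a, b, ha, -⟩ := exists_two r r h4
      apply Finset.sum_pos'
      · intro j _
        have := hpos j
        split_ifs <;> simp [this.le]
      · exact ⟨a, Finset.mem_univ _, by rw [if_neg ha]; simp [hpos a]⟩
    set s := ∑ j, lam j * (if j = r then (0:ℝ) else 1) with hs'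
    obtain ⟨x, hx⟩ := h.surj hc r lam hpos hlam (fun j => (if j = r then (0:ℝ) else 1) / s)
      (by simp) (by
        have : ∀ k, lam k * ((if k = r then (0:ℝ) else 1) / s) =
          (lam k * (if k = r then (0:ℝ) else 1)) / s := fun k => by ring
        simp only [this]
        rw [← Finset.sum_div, ← hs']
        exact div_self hs.ne')
    refine ⟨x, fun j hj => ?_⟩
    rw [hx, if_neg hj]
    positivity
  -- smallness of `s`
  set M : ℝ := ∑ j, (∑ k, |φ j k|) / lam j with hM
  have ev1 : ∀ᶠ s : ℝ in 𝓝[>] 0, 0 < 1 + s * (-M) := ev_lin 1 (-M) one_pos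
  have ev2 : ∀ᶠ s : ℝ in 𝓝[>] 0, ∀ j k, j ≠ r → k ≠ r → k ≠ j →
      0 < lam k * g r k (X j) + s * (-(H k (X j))) := by
    rw [Filter.eventually_all]
    intro j
    rw [Filter.eventually_all]
    intro k
    by_cases hj : j = r
    · simp [hj]
    by_cases hk : k = r
    · simp [hk]
    by_cases hkj : k = j
    · simp [hkj]
    have hp : 0 < lam k * g r k (X j) := mul_pos (hpos k) ((hX j hj).2 k hk hkj).1
    filter_upwards [ev_lin _ (-(H k (X j))) hp] with s hs _ _ _
    exact hs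
  have ev3 : ∀ᶠ s : ℝ in 𝓝[>] 0, ∀ j, j ≠ r → 0 < lam j * g r j ξ + s * (-(H j ξ)) := by
    rw [Filter.eventually_all]
    intro j
    by_cases hj : j = r
    · simp [hj]
    filter_upwards [ev_lin _ (-(H j ξ)) (mul_pos (hpos j) (hξ j hj))] with s hs _
    exact hs
  obtain ⟨s, hs1, hs2, hs3, hs0⟩ := (ev1.and (ev2.and (ev3.and self_mem_nhdsWithin))).exists
  have hs : 0 < s := hs0
  let F : ι → V → ℝ := fun j x => lam j * g r j x - s * H j x
  have hFaff : ∀ j, IsAff (F j) := fun j => ((h.aff r j).cmul _).sub ((hHaff j).cmul s)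
  have hvert : ∀ k, k ≠ r → ∃ v, (∀ m, m ≠ k → g r m v = 0) ∧ 0 < g r k v :=
    fun k hk => h.vertex hc r k hk
  refine ⟨F, X, ?_⟩
  refine ⟨hFaff, ?_, ?_, ?_, ?_, ?_, ?_, ?_, ?_, ?_, ?_⟩
  · intro x
    simp only [F]
    rw [h.diag, hHr]; ring
  · intro x
    simp only [F, Finset.sum_sub_distrib]
    rw [hlam x, ← Finset.mul_sum, hHsum x]; ring
  · intro x y hxy
    apply h.inj r
    -- absolute value argument
    set δ : ι → ℝ := fun k => g r k x - g r k y with hδ
    have h1 : ∀ j, lam j * δ j = s * ∑ k, φ j k * δ k := by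
      intro j
      have h2 := hxy j
      simp only [F] at h2
      rw [hφ j x, hφ j y] at h2
      simp only [hδ, mul_sub, Finset.sum_sub_distrib]
      linarith
    have h3 : ∀ j, |δ j| ≤ s * ((∑ k, |φ j k|) / lam j) * ∑ k, |δ k| := by
      intro j
      have h4 : lam j * |δ j| ≤ s * ((∑ k, |φ j k|) * ∑ k, |δ k|) := by
        rw [← abs_of_pos (hpos j), ← abs_mul, h1, abs_mul, abs_of_pos hs]
        apply mul_le_mul_of_nonneg_left _ hs.le
        refine (Finset.abs_sum_le_sum_abs _ _).trans ?_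
        rw [Finset.sum_mul]
        apply Finset.sum_le_sum
        intro k _
        rw [abs_mul]
        apply mul_le_mul_of_nonneg_left _ (abs_nonneg _)
        exact Finset.single_le_sum (f := fun k => |δ k|) (fun i _ => abs_nonneg _) (Finset.mem_univ k)
      have h5 := hpos j
      have h6 : |δ j| ≤ (s * ((∑ k, |φ j k|) * ∑ k, |δ k|)) / lam j := by
        rw [le_div_iff₀ h5, mul_comm]; exact h4
      refine h6.trans (le_of_eq ?_)
      field_simp
    have h7 : ∑ j, |δ j| ≤ s * M * ∑ k, |δ k| := by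
      calc ∑ j, |δ j| ≤ ∑ j, s * ((∑ k, |φ j k|) / lam j) * ∑ k, |δ k| :=
            Finset.sum_le_sum (fun j _ => h3 j)
        _ = s * M * ∑ k, |δ k| := by
            rw [← Finset.sum_mul, ← Finset.mul_sum]
    have h8 : 0 ≤ ∑ j, |δ j| := Finset.sum_nonneg (fun j _ => abs_nonneg _)
    have h9 : ∑ j, |δ j| = 0 := by nlinarith
    intro j
    have h10 := (Finset.sum_eq_zero_iff_of_nonneg (fun j _ => abs_nonneg (δ j))).mp h9 j (Finset.mem_univ _)
    have h11 : δ j = 0 := abs_eq_zero.mp h10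
    simp only [hδ] at h11
    linarith
  · intro j hj
    exact (hX j hj).1
  · intro j hj k hk hkj
    exact (hX j hj).2 k hk hkj
  · intro j hj
    simp only [F]
    rw [(hX j hj).1, hHX j hj]; ring
  · intro j hj k hk hkj
    have := hs2 j k hj hk hkj
    simp only [F]
    linarith
  · refine ⟨ξ, fun j hj => ⟨hξ j hj, ?_⟩⟩
    have := hs3 j hj
    simp only [F]
    linarith
  · intro j hj
    obtain ⟨v, hv0, hv1⟩ := hvert (σ j) (hσr j)
    refine ⟨v, hv0 j (Ne.symm (hσj j)), ?_⟩
    simp only [F, H]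
    rw [hv0 j (Ne.symm (hσj j)), hq j hj, hv0 (τ j) (Ne.symm (hστ j))]
    have h1 : 0 < g r (τ j) (X j) := ((hX j hj).2 (τ j) (hτr j) (hτj j)).1
    have : 0 < s * (g r (τ j) (X j) * g r (σ j) v) := by positivity
    linarith
  · intro j hj
    obtain ⟨w, hw0, hw1⟩ := hvert (τ j) (hτr j)
    have hwj : g r j w = 0 := hw0 j (Ne.symm (hτj j))
    have hFw : 0 < F j w := by
      simp only [F, H]
      rw [hwj, hq j hj, hw0 (σ j) (hστ j)]
      have h1 : 0 < g r (σ j) (X j) := ((hX j hj).2 (σ j) (hσr j) (hσj j)).1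
      have : 0 < s * (g r (σ j) (X j) * g r (τ j) w) := by positivity
      linarith
    obtain ⟨v, hv0, hv1⟩ := hvert j hj
    -- the point opposite to `v`
    have hev : ∀ᶠ t : ℝ in 𝓝[>] 0, 0 < F j w + t * (-(F j v - F j w)) :=
      ev_lin _ _ hFw
    obtain ⟨t, ht1, ht0⟩ := (hev.and self_mem_nhdsWithin).exists
    have ht : 0 < t := ht0
    refine ⟨seg w v (-t), ?_, ?_⟩
    · rw [(h.aff r j).seg, hwj]
      have : 0 < t * g r j v := by positivity
      linarith
    · rw [(hFaff j).seg]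
      linarith

end Pool.Agent.H392R3
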