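import Pool.Agent.H392R3.Contact
import Pool.Agent.H392R3.Cut

/-!
# No tangled families in dimensions one and two
-/

set_option linter.unusedSectionVars false
set_option linter.unusedVariables false
set_option linter.unusedSimpArgs false

open Module Finset Filter Topology

namespace Pool.Agent.H392R3

/-- no tangled family in dimension one -/
theorem no_dim_one {n : ℕ} (hn : 0 < n) (S : Fin n → Fin (1 + 1) → E 1) (h : IsTangled S) :
    False := by
  have hc := h.csys one_pos
  have : Nonempty (Fin n) := ⟨⟨0, hn⟩⟩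
  obtain ⟨⟨i, k'⟩, hmax⟩ := Finite.exists_max (fun q : Fin n × Fin (1 + 1) => (S q.1 q.2) 0)
  have hmax' : ∀ j l, (S j l) 0 ≤ (S i k') 0 := fun j l => hmax (j, l)
  obtain ⟨k, hk⟩ : ∃ k : Fin (1 + 1), k ≠ k' := exists_ne k'
  obtain ⟨j, hji, l, ⟨ρ, hρ, h1⟩, -⟩ := hc.con i k
  have h2 := h1 (S j l)
  set b := bas (S i) (h.simplex i) with hb
  have h3 : (bas (S j) (h.simplex j)).coord l (S j l) = 1 := by
    have := (bas (S j) (h.simplex j)).coord_apply_eq l
    simpa using this
  rw [h3] at h2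
  have h4 : b.coord k (S j l) < 0 := by
    by_contra hge
    push Not at hge
    nlinarith [mul_nonneg hρ.le hge]
  -- expansion
  have h5 : ∑ m, b.coord m (S j l) • b m = S j l := b.linear_combination_coord_eq_self _
  have h6 : ∑ m, b.coord m (S j l) = 1 := b.sum_coord_apply_eq_one _
  have huniv : (univ : Finset (Fin (1 + 1))) = {k, k'} := by
    ext m
    simp only [Finset.mem_univ, Finset.mem_insert, Finset.mem_singleton, true_iff]
    omega
  rw [huniv, Finset.sum_pair hk] at h5 h6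
  have h7 : (S j l) 0 = b.coord k (S j l) * (S i k) 0 + b.coord k' (S j l) * (S i k') 0 := by
    have e := congrArg (fun p : E 1 => p 0) h5
    simp only [PiLp.add_apply, PiLp.smul_apply, smul_eq_mul] at e
    exact e.symm
  have h8 : (S i k) 0 ≠ (S i k') 0 := by
    intro heq
    apply hk
    apply (h.simplex i).injective
    ext m
    have : m = 0 := Subsingleton.elim _ _
    rw [this]; exact heq
  have h9 : (S i k) 0 < (S i k') 0 := lt_of_le_of_ne (hmax' i k) h8
  have h10 := hmax' j l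
  have h11 : b.coord k' (S j l) = 1 - b.coord k (S j l) := by linarith
  rw [h7, h11] at h10
  nlinarith [mul_pos_of_neg_of_neg h4 (sub_neg.mpr h9)]

section two

/-- the abstract planar situation -/
structure Plane {n : ℕ} (c : Fin n → Fin 3 → E 2 → ℝ) (v : Fin n → Fin 3 → E 2) : Prop where
  csys : CSys c
  sep : ∀ i j, i ≠ j → ∀ p, (∀ k, 0 < c i k p) → (∀ k, 0 < c j k p) → False
  vert : ∀ i k m, 0 ≤ c i m (v i k)
  comb : ∀ i p, ∑ k, c i k p • v i k = p

variable {n : ℕ} {c : Fin n → Fin 3 → E 2 → ℝ} {v : Fin n → Fin 3 → E 2}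

/-- `j` is somewhere above `i` -/
def Above (c : Fin n → Fin 3 → E 2 → ℝ) (i j : Fin n) : Prop :=
  ∃ p q : E 2, (∀ k, 0 < c i k p) ∧ (∀ k, 0 < c j k q) ∧ p 0 = q 0 ∧ p 1 < q 1

lemma coord_aff (m : Fin 2) : IsAff (fun p : E 2 => p m) :=
  ⟨(EuclideanSpace.proj m : E 2 →L[ℝ] ℝ).toLinearMap, 0, fun p => by simp⟩

lemma seg_pos {f : E 2 → ℝ} (hf : IsAff f) {p q : E 2} (hp : 0 < f p) (hq : 0 ≤ f q) {s : ℝ}
    (h0 : 0 ≤ s) (h1 : s < 1) : 0 < f (seg p q s) := by
  rw [hf.seg]
  have a : 0 < (1 - s) * f p := mul_pos (by linarith) hp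
  have b : 0 ≤ s * f q := mul_nonneg h0 hq
  linarith

lemma Plane.antisymm (h : Plane c v) {i j : Fin n} (hij : i ≠ j) (h1 : Above c i j)
    (h2 : Above c j i) : False := by
  obtain ⟨p1, q1, hp1, hq1, hx1, hy1⟩ := h1
  obtain ⟨q2, p2, hq2, hp2, hx2, hy2⟩ := h2
  set D1 := q1 1 - p1 1 with hD1
  set D2 := p2 1 - q2 1 with hD2
  have d1 : 0 < D1 := by linarith
  have d2 : 0 < D2 := by linarith
  set s := D1 / (D1 + D2) with hs
  have s0 : 0 ≤ s := by positivity
  have s1 : s < 1 := by rw [hs, div_lt_one (by positivity)]; linarith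
  have hsD : s * (D1 + D2) = D1 := by rw [hs]; field_simp
  have heq : seg p1 p2 s = seg q1 q2 s := by
    ext m
    rw [(coord_aff m).seg, (coord_aff m).seg]
    fin_cases m
    · show p1 0 + s * (p2 0 - p1 0) = q1 0 + s * (q2 0 - q1 0)
      rw [hx1, hx2]
    · show p1 1 + s * (p2 1 - p1 1) = q1 1 + s * (q2 1 - q1 1)
      have e1 : q1 1 = p1 1 + D1 := by rw [hD1]; ring
      have e2 : p2 1 = q2 1 + D2 := by rw [hD2]; ring
      rw [e1, e2]
      linear_combination (1 : ℝ) * hsD
  refine h.sep i j hij (seg p1 p2 s) (fun k => seg_pos (h.csys.aff i k) (hp1 k) (hp2 k).le s0 s1) ?_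
  rw [heq]
  exact fun k => seg_pos (h.csys.aff j k) (hq1 k) (hq2 k).le s0 s1

lemma Plane.lt_right (h : Plane c v) {i : Fin n} {R : ℝ} (hR : ∀ k, (v i k) 0 ≤ R) {p : E 2}
    (hp : ∀ k, 0 < c i k p) : p 0 < R := by
  have hle : ∀ q, (∀ k, 0 < c i k q) → q 0 ≤ R := by
    intro q hq
    have e := congrArg (fun p : E 2 => p 0) (h.comb i q)
    simp only [Fin.sum_univ_three, PiLp.add_apply, PiLp.smul_apply, smul_eq_mul] at e
    have s := h.csys.sum i q
    rw [Fin.sum_univ_three] at s
    have a0 := mul_le_mul_of_nonneg_left (hR 0) (hq 0).le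
    have a1 := mul_le_mul_of_nonneg_left (hR 1) (hq 1).le
    have a2 := mul_le_mul_of_nonneg_left (hR 2) (hq 2).le
    have : (c i 0 q + c i 1 q + c i 2 q) * R = R := by rw [s]; ring
    linarith
  have hev : ∀ᶠ η : ℝ in 𝓝[>] 0, ∀ k, 0 < c i k (seg p (p + EuclideanSpace.single 0 1) η) := by
    rw [Filter.eventually_all]
    intro k
    exact (h.csys.aff i k).ev_pos _ _ (hp k)
  obtain ⟨η, h1, h2⟩ := (hev.and self_mem_nhdsWithin).exists
  have hη : 0 < η := h2
  have h3 := hle _ h1
  rw [(coord_aff 0).seg] at h3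
  simp at h3
  linarith

lemma Plane.extend (h : Plane c v) {i : Fin n} {k0 : Fin 3} {p : E 2} (hp : ∀ k, 0 < c i k p)
    {t : ℝ} (h1 : p 0 ≤ t) (h2 : t < (v i k0) 0) : ∃ q, (∀ k, 0 < c i k q) ∧ q 0 = t := by
  set s := (t - p 0) / ((v i k0) 0 - p 0) with hs
  have hd : 0 < (v i k0) 0 - p 0 := by linarith
  have s0 : 0 ≤ s := div_nonneg (by linarith) hd.le
  have s1 : s < 1 := by rw [hs, div_lt_one hd]; linarith
  refine ⟨seg p (v i k0) s, fun k => seg_pos (h.csys.aff i k) (hp k) (h.vert i k0 k) s0 s1, ?_⟩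
  rw [(coord_aff 0).seg, hs]
  field_simp
  ring

lemma Plane.order (h : Plane c v) {i j : Fin n} (hij : i ≠ j) (hA : Above c i j) {p q : E 2}
    (hp : ∀ k, 0 < c i k p) (hq : ∀ k, 0 < c j k q) (hx : p 0 = q 0) : p 1 < q 1 := by
  rcases lt_trichotomy (p 1) (q 1) with hlt | heq | hgt
  · exact hlt
  · exfalso
    have : p = q := by
      ext m
      fin_cases m
      · exact hx
      · exact heq
    subst this
    exact h.sep i j hij p hp hq
  · exact (h.antisymm hij hA ⟨q, p, hq, hp, hx.symm, hgt⟩).elim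

lemma Plane.trans (h : Plane c v) {m k j : Fin n} (hmk : m ≠ k) (hkj : k ≠ j)
    {κ : Fin n → Fin 3} (hκ : ∀ i l, (v i l) 0 ≤ (v i (κ i)) 0)
    (h1 : Above c m k) (h2 : Above c k j) (hm : (v k (κ k)) 0 ≤ (v m (κ m)) 0)
    (hj : (v k (κ k)) 0 ≤ (v j (κ j)) 0) : Above c m j := by
  obtain ⟨p1, q1, hp1, hq1, hx1, hy1⟩ := id h1
  obtain ⟨p2, q2, hp2, hq2, hx2, hy2⟩ := id h2
  have b1 := h.lt_right (hκ k) hq1
  have b2 := h.lt_right (hκ k) hp2
  set t := max (q1 0) (p2 0) with ht
  have tlt : t < (v k (κ k)) 0 := max_lt b1 b2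
  have t1 : q1 0 ≤ t := le_max_left _ _
  have t2 : p2 0 ≤ t := le_max_right _ _
  obtain ⟨a, ha, hax⟩ := h.extend (k0 := κ m) hp1 (t := t) (by linarith) (by linarith)
  obtain ⟨b, hb, hbx⟩ := h.extend (k0 := κ k) hq1 (t := t) t1 tlt
  obtain ⟨e, he, hex⟩ := h.extend (k0 := κ j) hq2 (t := t) (by linarith) (by linarith)
  have o1 := h.order hmk h1 ha hb (by rw [hax, hbx])
  have o2 := h.order hkj h2 hb he (by rw [hbx, hex])
  exact ⟨a, e, ha, he, by rw [hax, hex], lt_trans o1 o2⟩

lemma Plane.exists_top (h : Plane c v) (κ : Fin n → Fin 3)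
    (hκ : ∀ i l, (v i l) 0 ≤ (v i (κ i)) 0) :
    ∀ I : Finset (Fin n), I.Nonempty → ∃ m ∈ I, ∀ j ∈ I, j ≠ m → ¬ Above c m j := by
  intro I
  induction I using Finset.strongInduction with
  | H I ih =>
    intro hne
    obtain ⟨k, hkI, hkmin⟩ := Finset.exists_min_image I (fun i => (v i (κ i)) 0) hne
    by_cases hI' : (I.erase k).Nonempty
    · obtain ⟨m, hm, hmmax⟩ := ih (I.erase k) (Finset.erase_ssubset hkI) hI'
      have hmk : m ≠ k := (Finset.mem_erase.mp hm).1
      have hmI : m ∈ I := (Finset.mem_erase.mp hm).2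
      by_cases hA : Above c m k
      · refine ⟨k, hkI, ?_⟩
        intro j hj hjk hkj
        by_cases hjm : j = m
        · subst hjm
          exact h.antisymm hmk hA hkj
        · have := h.trans hmk (Ne.symm hjk) hκ hA hkj (hkmin m hmI) (hkmin j hj)
          exact hmmax j (Finset.mem_erase.mpr ⟨hjk, hj⟩) hjm this
      · refine ⟨m, hmI, ?_⟩
        intro j hj hjm
        by_cases hjk : j = k
        · subst hjk; exact hA
        · exact hmmax j (Finset.mem_erase.mpr ⟨hjk, hj⟩) hjm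
    · refine ⟨k, hkI, ?_⟩
      intro j hj hjk
      exfalso
      apply hI'
      exact ⟨j, Finset.mem_erase.mpr ⟨hjk, hj⟩⟩

theorem Plane.false (h : Plane c v) (hn : 0 < n) : False := by
  have hex : ∀ i, ∃ k, ∀ l, (v i l) 0 ≤ (v i k) 0 :=
    fun i => Finite.exists_max (fun k : Fin 3 => (v i k) 0)
  choose κ hκ using hex
  obtain ⟨i, -, hi⟩ := h.exists_top κ hκ univ ⟨⟨0, hn⟩, Finset.mem_univ _⟩
  -- the edge facing upwards
  let u : E 2 := EuclideanSpace.single 1 1
  choose L b hL using h.csys.aff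
  have hsum : ∑ k, L i k u = 0 := by
    have h1 := h.csys.sum i 0
    have h2 := h.csys.sum i u
    simp only [hL, map_zero, zero_add] at h1 h2
    rw [Finset.sum_add_distrib, h1] at h2
    linarith
  have hnz : ∃ k, L i k u ≠ 0 := by
    by_contra hno
    push Not at hno
    have h0 : ∀ k, c i k u = c i k 0 := by
      intro k; rw [hL, hL, hno k]; simp
    have h1 := h.comb i u
    have h2 := h.comb i 0
    simp only [h0] at h1
    rw [h2] at h1
    have h3 := congrArg (fun p : E 2 => p 1) h1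
    simp [u] at h3
  obtain ⟨k, hk⟩ : ∃ k, L i k u < 0 := by
    by_contra hno
    push Not at hno
    obtain ⟨k, hk⟩ := hnz
    have := (Finset.sum_eq_zero_iff_of_nonneg (fun k _ => hno k)).mp hsum k (Finset.mem_univ _)
    exact hk this
  obtain ⟨j, hji, l, ⟨ρ, hρ, h1⟩, x, hx0, hxi, hxj⟩ := h.csys.con i k
  apply hi j (Finset.mem_univ _) hji
  have hup : ∀ᶠ η : ℝ in 𝓝[>] 0, ∀ m, m ≠ l → 0 < c j m (seg x (x + u) η) := by
    rw [Filter.eventually_all]
    intro m
    by_cases hm : m = l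
    · simp [hm]
    filter_upwards [(h.csys.aff j m).ev_pos x (x + u) (hxj m hm)] with η hη _
    exact hη
  have hdn : ∀ᶠ η : ℝ in 𝓝[>] 0, ∀ m, m ≠ k → 0 < c i m (seg x (x - u) η) := by
    rw [Filter.eventually_all]
    intro m
    by_cases hm : m = k
    · simp [hm]
    filter_upwards [(h.csys.aff i m).ev_pos x (x - u) (hxi m hm)] with η hη _
    exact hη
  obtain ⟨η, h2, h3, h4⟩ := (hup.and (hdn.and self_mem_nhdsWithin)).exists
  have hη : 0 < η := h4
  refine ⟨seg x (x - u) η, seg x (x + u) η, ?_, ?_, ?_, ?_⟩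
  · intro m
    by_cases hm : m = k
    · subst hm
      rw [(h.csys.aff i m).seg, hx0, hL, map_sub]
      rw [hL] at hx0
      have : 0 < η * (-(L i m u)) := mul_pos hη (by linarith)
      have e : L i m x - L i m u + b i m - 0 = -(L i m u) := by linarith
      rw [e]; linarith
    · exact h3 m hm
  · intro m
    by_cases hm : m = l
    · subst hm
      rw [h1, (h.csys.aff i k).seg, hx0, hL, map_add]
      rw [hL] at hx0
      have e : L i k x + L i k u + b i k - 0 = L i k u := by linarith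
      rw [e]
      have : 0 < ρ * (η * (-(L i k u))) := mul_pos hρ (mul_pos hη (by linarith))
      linarith
    · exact h2 m hm
  · rw [(coord_aff 0).seg, (coord_aff 0).seg]
    simp [u]
  · rw [(coord_aff 1).seg, (coord_aff 1).seg]
    simp [u]
    linarith

/-- no tangled family in dimension two -/
theorem no_dim_two {n : ℕ} (hn : 0 < n) (S : Fin n → Fin (2 + 1) → E 2) (h : IsTangled S) :
    False := by
  have hP : Plane (fun i k x => (bas (S i) (h.simplex i)).coord k x) S := by
    refine ⟨h.csys two_pos, ?_, ?_, ?_⟩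
    · intro i j hij p hp hq
      have := h.nonoverlapping i j hij
      rw [interior_body _ (h.simplex i), interior_body _ (h.simplex j), Set.disjoint_left] at this
      exact this hp hq
    · intro i k m
      have : (bas (S i) (h.simplex i)).coord m (bas (S i) (h.simplex i) k) =
        if m = k then 1 else 0 := (bas (S i) (h.simplex i)).coord_apply m k
      simp only [bas_coe] at this
      rw [this]
      split_ifs <;> norm_num
    · intro i p
      exact (bas (S i) (h.simplex i)).linear_combination_coord_eq_self p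
  exact hP.false hn

end two

end Pool.Agent.H392R3
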