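import Pool.Agent.H392R3.Exist
import Pool.Agent.H392R3.Down
import Pool.Agent.H392R3.Low

/-!
# Classification of the pairs `(n, d)` with a tangled family
-/

open Module

namespace Pool.Agent.H392R3

theorem classification (n d : ℕ) (hn : 0 < n) (hd : 0 < d) :
    (∃ S : Fin n → Fin (d + 1) → E d, IsTangled S) ↔
      (d = 3 ∧ 6 ≤ n) ∨ (4 ≤ d ∧ d + 2 ≤ n) := by
  constructor
  · rintro ⟨S, hS⟩
    have hc := hS.csys hd
    have hcard := card_le hc ⟨0, hn⟩
    rw [Fintype.card_fin, Fintype.card_fin] at hcard
    rcases Nat.lt_or_ge d 4 with hlt | hge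
    · left
      interval_cases d
      · exact (no_dim_one hn S hS).elim
      · exact (no_dim_two hn S hS).elim
      · refine ⟨rfl, ?_⟩
        rcases Nat.lt_or_ge n 6 with h6 | h6
        · exfalso
          have h5 : n = 5 := by omega
          subst h5
          exact no_five (V := E 3) (by simp) hc
        · exact h6
    · right
      exact ⟨hge, hcard⟩
  · rintro (⟨rfl, h6⟩ | ⟨h4, hn2⟩)
    · exact exists_three n h6
    · exact exists_ge_four d n h4 hn2

end Pool.Agent.H392R3
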