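import Pool.Agent.H392R3.Defs

/-!
# Measures of pieces of hyperplanes
-/

open MeasureTheory Set Module

namespace Pool.Agent.H392R3

variable {d : ℕ}

/-- the embedding of the kernel as a hyperplane through `x0` -/
noncomputable def emb (L : E d →ₗ[ℝ] ℝ) (x0 : E d) : LinearMap.ker L → E d := fun v => x0 + (v : E d)

lemma emb_isometry (L : E d →ₗ[ℝ] ℝ) (x0 : E d) : Isometry (emb L x0) := by
  intro a b
  simp only [emb, edist_add_left]
  rfl

lemma finrank_ker (L : E d →ₗ[ℝ] ℝ) (hL : L ≠ 0) : (finrank ℝ (LinearMap.ker L) : ℝ) = (d : ℝ) - 1 := by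
  have h1 := LinearMap.finrank_range_add_finrank_ker L
  have h2 : LinearMap.range L = ⊤ := by
    rw [LinearMap.range_eq_top]
    exact LinearMap.surjective hL
  rw [h2] at h1
  simp at h1
  have : (d : ℝ) = 1 + (finrank ℝ (LinearMap.ker L) : ℝ) := by exact_mod_cast h1.symm
  linarith

lemma meas_emb (L : E d →ₗ[ℝ] ℝ) (hL : L ≠ 0) (x0 : E d) (A : Set (LinearMap.ker L)) :
    Measure.hausdorffMeasure ((d : ℝ) - 1) (emb L x0 '' A) =
      Measure.hausdorffMeasure (finrank ℝ (LinearMap.ker L) : ℝ) A := by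
  rw [← finrank_ker L hL]
  apply (emb_isometry L x0).hausdorffMeasure_image
  left
  positivity

lemma pos_of_open (f : E d →ᵃ[ℝ] ℝ) (hf : f.linear ≠ 0) (U : Set (E d)) (hU : IsOpen U)
    (x : E d) (hxU : x ∈ U) (hx : f x = 0) :
    0 < Measure.hausdorffMeasure ((d : ℝ) - 1) ({y | f y = 0} ∩ U) := by
  have h1 : emb f.linear x '' (emb f.linear x ⁻¹' U) ⊆ {y | f y = 0} ∩ U := by
    rintro _ ⟨v, hv, rfl⟩
    refine ⟨?_, hv⟩
    have h2 : f (v.1 +ᵥ x) = f.linear v.1 +ᵥ f x := f.map_vadd x v.1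
    have h3 : f.linear v.1 = 0 := v.2
    simp only [mem_ofPred_eq, emb]
    rw [add_comm]
    simp only [vadd_eq_add] at h2
    rw [h2, h3, hx]; simp
  refine lt_of_lt_of_le ?_ (measure_mono h1)
  rw [meas_emb _ hf]
  apply IsOpen.measure_pos
  · exact hU.preimage (emb_isometry _ _).continuous
  · refine ⟨0, ?_⟩
    simp [emb, hxU]

lemma null_of_ne (f g : E d →ᵃ[ℝ] ℝ) (hf : f.linear ≠ 0) (y : E d) (hy : f y = 0) (hgy : g y ≠ 0) :
    Measure.hausdorffMeasure ((d : ℝ) - 1) ({x | f x = 0} ∩ {x | g x = 0}) = 0 := by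
  let s : AffineSubspace ℝ (LinearMap.ker f.linear) :=
    { carrier := {v | g.linear v.1 + g y = 0}
      smul_vsub_vadd_mem' := by
        intro c p1 p2 p3 h1 h2 h3
        simp only [mem_ofPred_eq, vsub_eq_sub, vadd_eq_add, Submodule.coe_add, Submodule.coe_smul,
          AddSubgroupClass.coe_sub, map_add, map_smul, map_sub, smul_eq_mul] at *
        have e1 : g.linear p1.1 = - g y := by linarith
        have e2 : g.linear p2.1 = - g y := by linarith
        have e3 : g.linear p3.1 = - g y := by linarith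
        rw [e1, e2, e3]; ring }
  have hs : s ≠ ⊤ := by
    intro h
    have : (0 : LinearMap.ker f.linear) ∈ s := by rw [h]; trivial
    have h2 : g.linear (0 : E d) + g y = 0 := this
    simp at h2
    exact hgy h2
  have hsub : {x | f x = 0} ∩ {x | g x = 0} ⊆ emb f.linear y '' (s : Set (LinearMap.ker f.linear)) := by
    rintro x ⟨hx1, hx2⟩
    have hk : x - y ∈ LinearMap.ker f.linear := by
      have := f.linearMap_vsub x y
      simp only [vsub_eq_sub] at this
      rw [LinearMap.mem_ker, this]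
      simp only [mem_ofPred_eq] at hx1
      rw [hx1, hy]; simp
    refine ⟨⟨x - y, hk⟩, ?_, ?_⟩
    · have := g.linearMap_vsub x y
      simp only [vsub_eq_sub] at this
      change g.linear (x - y) + g y = 0
      rw [this]
      simp only [mem_ofPred_eq] at hx2
      rw [hx2]; simp
    · simp [emb]
  refine measure_mono_null hsub ?_
  rw [meas_emb _ hf]
  exact Measure.addHaar_affineSubspace _ s hs

end Pool.Agent.H392R3
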