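import Pool.Agent.H392R3.FD

/-!
# Adding one dimension to a complete contact family
-/

set_option linter.unusedSectionVars false
set_option linter.unusedVariables false
set_option linter.unusedSimpArgs false

open Module Finset Filter Topology

namespace Pool.Agent.H392R3

variable {V : Type*} [AddCommGroup V] [Module ℝ V] {ι : Type*} [Fintype ι] [DecidableEq ι]

/-- indicator of the root -/
noncomputable def ind (r j : ι) : ℝ := if j = r then 1 else 0

lemma ind_self (r : ι) : ind r r = 1 := by simp [ind]

lemma ind_ne {r j : ι} (h : j ≠ r) : ind r j = 0 := by simp [ind, h]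

/-- the new family in one more dimension -/
noncomputable def newG (g : ι → ι → V → ℝ) (r : ι) (F : ι → V → ℝ) (ε : ℝ) :
    Option ι → Option ι → V × ℝ → ℝ
  | none, none => fun _ => 0
  | none, some j => fun p => F j p.1 + (1 - 2 * ind r j) * p.2
  | some j, none => fun p => -(F j p.1 + (1 - 2 * ind r j) * p.2)
  | some i, some j => fun p => g i j p.1 + ε * (ind r j - ind r i) * p.2

lemma IsAff.prod {f : V → ℝ} (hf : IsAff f) (c : ℝ) :
    IsAff (fun p : V × ℝ => f p.1 + c * p.2) := by
  obtain ⟨L, b, hL⟩ := hf
  refine ⟨L.comp (LinearMap.fst ℝ V ℝ) + c • LinearMap.snd ℝ V ℝ, b, fun p => ?_⟩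
  simp only [hL, LinearMap.add_apply, LinearMap.comp_apply, LinearMap.fst_apply,
    LinearMap.smul_apply, LinearMap.snd_apply, smul_eq_mul]
  ring

theorem newCC [FiniteDimensional ℝ V] {g : ι → ι → V → ℝ} (h : CC g)
    (hc : Fintype.card ι = finrank ℝ V + 2) (r : ι) {F : ι → V → ℝ} {X : ι → V}
    (hF : FD g r F X) : ∃ ε : ℝ, CC (newG g r F ε) ∧
      ∀ j0, j0 ≠ r → ∃ θ : ℝ, 0 < θ ∧ CCSlice (newG g r F ε) none (some r) (some j0) θ := by
  choose lam hpos hlam using h.bary
  choose φ hφ using fun j => h.expand hc j (hF.aff j)
  have hyp : ∀ j, ∃ y, j ≠ r → g r j y < 0 ∧ 0 < F j y := by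
    intro j
    by_cases hj : j = r
    · exact ⟨0, fun hh => absurd hj hh⟩
    · obtain ⟨y, hy⟩ := hF.pos j hj
      exact ⟨y, fun _ => hy⟩
  choose yp hyp using hyp
  have hXc : ∀ i j, ∃ x, i ≠ j → g i j x = 0 ∧ ∀ k, k ≠ i → k ≠ j → 0 < g i k x ∧ 0 < g j k x := by
    intro i j
    by_cases hij : i = j
    · exact ⟨0, fun hh => absurd hij hh⟩
    · obtain ⟨x, hx⟩ := h.con i j hij
      exact ⟨x, fun _ => hx⟩
  choose Xc hXc using hXc
  let Z : ι → ι → ℝ := fun j k => |F j (Xc j k)| + |F k (Xc j k)| + 1
  -- conditions on `ε`
  have ev1 : ∀ᶠ ε : ℝ in 𝓝[>] 0, ∀ j, 0 < 1 + ε * (-(φ j r)) := by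
    rw [Filter.eventually_all]
    intro j
    exact ev_lin 1 _ one_pos
  have ev2 : ∀ᶠ ε : ℝ in 𝓝[>] 0, ∀ j k, 0 < lam j k + (lam j r / (1 - ε * φ j r)) * ε * φ j k := by
    rw [Filter.eventually_all]
    intro j
    rw [Filter.eventually_all]
    intro k
    have hcont : ContinuousAt (fun ε : ℝ => lam j k + (lam j r / (1 - ε * φ j r)) * ε * φ j k) 0 := by
      apply ContinuousAt.add continuousAt_const
      apply ContinuousAt.mul _ continuousAt_const
      apply ContinuousAt.mul _ continuousAt_id
      apply ContinuousAt.div continuousAt_const
      · fun_prop
      · simp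
    have h1 : ∀ᶠ ε : ℝ in 𝓝 0, 0 < lam j k + (lam j r / (1 - ε * φ j r)) * ε * φ j k :=
      hcont.eventually (lt_mem_nhds (by simpa using hpos j k))
    exact nhdsWithin_le_nhds h1
  have ev3 : ∀ᶠ ε : ℝ in 𝓝[>] 0, ∀ j, j ≠ r → 0 < -(g r j (yp j)) + ε * (-(F j (yp j))) := by
    rw [Filter.eventually_all]
    intro j
    by_cases hj : j = r
    · simp [hj]
    have : 0 < -(g r j (yp j)) := by linarith [(hyp j hj).1]
    filter_upwards [ev_lin _ (-(F j (yp j))) this] with ε hε _
    exact hε
  have ev4 : ∀ᶠ ε : ℝ in 𝓝[>] 0, ∀ j k, j ≠ r → k ≠ r → j ≠ k →
      0 < g j r (Xc j k) + ε * (-(Z j k)) ∧ 0 < g k r (Xc j k) + ε * (-(Z j k)) := by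
    rw [Filter.eventually_all]
    intro j
    rw [Filter.eventually_all]
    intro k
    by_cases hj : j = r
    · simp [hj]
    by_cases hk : k = r
    · simp [hk]
    by_cases hjk : j = k
    · simp [hjk]
    have h1 := (hXc j k hjk).2 r (Ne.symm hj) (Ne.symm hk)
    filter_upwards [ev_lin _ (-(Z j k)) h1.1, ev_lin _ (-(Z j k)) h1.2] with ε hε1 hε2 _ _ _
    exact ⟨hε1, hε2⟩
  obtain ⟨ε, he1, he2, he3, he4, he0⟩ :=
    (ev1.and (ev2.and (ev3.and (ev4.and self_mem_nhdsWithin)))).exists
  have hε : 0 < ε := he0
  have he1' : ∀ j, 0 < 1 - ε * φ j r := by intro j; have := he1 j; linarith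
  -- basic facts about the new family
  have hanti : ∀ i j p, newG g r F ε j i p = - newG g r F ε i j p := by
    intro i j p
    rcases i with _ | i <;> rcases j with _ | j <;> simp only [newG]
    · simp
    · simp
    · rw [h.anti i j]; ring
  refine ⟨ε, ?_, ?_⟩
  · refine ⟨?_, ?_, hanti, ?_, ?_, ?_⟩
    · -- affine
      intro i j
      rcases i with _ | i <;> rcases j with _ | j
      · exact ⟨0, 0, fun x => by simp [newG]⟩
      · exact (hF.aff j).prod _
      · have : newG g r F ε (some i) none = fun p => (-1) * (F i p.1 + (1 - 2 * ind r i) * p.2) := by
          funext p; simp only [newG]; ring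
        rw [this]
        exact ((hF.aff i).prod _).cmul _
      · exact (h.aff i j).prod _
    · -- diagonal
      intro i p
      rcases i with _ | i
      · rfl
      · simp only [newG]
        rw [h.diag]; ring
    · -- barycentric
      intro i
      rcases i with _ | i
      · -- the new member
        have hcpos : (0:ℝ) < ∑ j, (1 - ind r j) := by
          obtain ⟨x, hx⟩ := hF.star
          have h1 : ∃ j, j ≠ r := by
            by_contra hno
            push Not at hno
            have h2 := hF.sum x
            have h3 : ∑ j, F j x = 0 := Finset.sum_eq_zero (fun j _ => by rw [hno j]; exact hF.root x)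
            rw [h3] at h2
            norm_num at h2
          obtain ⟨j, hj⟩ := h1
          apply Finset.sum_pos'
          · intro k _
            simp only [ind]
            split_ifs <;> norm_num
          · exact ⟨j, Finset.mem_univ _, by rw [ind_ne hj]; norm_num⟩
        set N : ℝ := ∑ j, (1 - ind r j) with hN
        refine ⟨fun o => match o with
          | none => 1
          | some j => (1 - ind r j) + N * ind r j, ?_, ?_⟩
        · intro o
          rcases o with _ | j
          · exact one_pos
          · show 0 < (1 - ind r j) + N * ind r j
            by_cases hj : j = r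
            · rw [hj, ind_self]; linarith
            · rw [ind_ne hj]; norm_num
        · intro p
          rw [Fintype.sum_option]
          simp only [newG, mul_zero, zero_add]
          have h1 : ∀ j, ((1 - ind r j) + N * ind r j) * (F j p.1 + (1 - 2 * ind r j) * p.2) =
              F j p.1 + ((1 - ind r j) - N * ind r j) * p.2 := by
            intro j
            by_cases hj : j = r
            · rw [hj, ind_self, hF.root]; ring
            · rw [ind_ne hj]; ring
          simp only [h1, Finset.sum_add_distrib]
          rw [hF.sum, ← Finset.sum_mul, Finset.sum_sub_distrib, ← hN, ← Finset.mul_sum]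
          have h2 : ∑ j, ind r j = 1 := by
            simp only [ind, Finset.sum_ite_eq', Finset.mem_univ, if_true]
          rw [h2]; ring
      · by_cases hi : i = r
        · subst hi
          refine ⟨fun o => match o with
            | none => ε * ∑ j, lam i j * (1 - ind i j)
            | some j => lam i j, ?_, ?_⟩
          · intro o
            rcases o with _ | j
            · show 0 < ε * ∑ j, lam i j * (1 - ind i j)
              apply mul_pos hε
              obtain ⟨x, hx⟩ := hF.star
              have h1 : ∃ j, j ≠ i := by
                by_contra hno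
                push Not at hno
                have h2 := hF.sum x
                have h3 : ∑ j, F j x = 0 := Finset.sum_eq_zero (fun j _ => by rw [hno j]; exact hF.root x)
                rw [h3] at h2
                norm_num at h2
              obtain ⟨j, hj⟩ := h1
              apply Finset.sum_pos'
              · intro k _
                have := hpos i k
                simp only [ind]
                split_ifs <;> simp [this.le]
              · exact ⟨j, Finset.mem_univ _, by rw [ind_ne hj]; simp [hpos i j]⟩
            · exact hpos i j
          · intro p
            rw [Fintype.sum_option]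
            simp only [newG]
            rw [hF.root, ind_self]
            have h1 : ∀ j, lam i j * (g i j p.1 + ε * (ind i j - 1) * p.2) =
                lam i j * g i j p.1 - (lam i j * (1 - ind i j)) * (ε * p.2) := by
              intro j; ring
            simp only [h1, Finset.sum_sub_distrib]
            rw [hlam i, ← Finset.sum_mul]
            ring
        · -- other members
          set a : ℝ := lam i r / (1 - ε * φ i r) with ha
          have hapos : 0 < a := div_pos (hpos i r) (he1' i)
          have ha' : a * (1 - ε * φ i r) = lam i r := by
            rw [ha]; have := he1' i; field_simp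
          refine ⟨fun o => match o with
            | none => a * ε
            | some k => lam i k + a * ε * φ i k, ?_, ?_⟩
          · intro o
            rcases o with _ | k
            · exact mul_pos hapos hε
            · exact he2 i k
          · intro p
            rw [Fintype.sum_option]
            simp only [newG]
            rw [ind_ne hi]
            have h1 : ∀ k, (lam i k + a * ε * φ i k) * (g i k p.1 + ε * (ind r k - 0) * p.2) =
                lam i k * g i k p.1 + (a * ε) * (φ i k * g i k p.1) +
                  ((lam i k + a * ε * φ i k) * ind r k) * (ε * p.2) := by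
              intro k; ring
            simp only [h1, Finset.sum_add_distrib]
            rw [hlam i, ← Finset.mul_sum, ← hφ i, ← Finset.sum_mul]
            have h2 : ∑ k, (lam i k + a * ε * φ i k) * ind r k = lam i r + a * ε * φ i r := by
              simp only [ind, mul_ite, mul_one, mul_zero, Finset.sum_ite_eq', Finset.mem_univ, if_true]
            rw [h2]
            linear_combination (-(ε * p.2)) * ha'
    · -- injectivity
      intro i p p' hpp
      rcases i with _ | i
      · have h1 := hpp (some r)
        simp only [newG] at h1
        rw [hF.root, hF.root, ind_self] at h1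
        have h2 : p.2 = p'.2 := by linarith
        have h3 : p.1 = p'.1 := by
          apply hF.inj
          intro j
          have := hpp (some j)
          simp only [newG] at this
          rw [h2] at this
          linarith
        exact Prod.ext h3 h2
      · by_cases hi : i = r
        · subst hi
          have h1 := hpp none
          simp only [newG] at h1
          rw [hF.root, hF.root, ind_self] at h1
          have h2 : p.2 = p'.2 := by linarith
          have h3 : p.1 = p'.1 := by
            apply h.inj i
            intro j
            have := hpp (some j)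
            simp only [newG] at this
            rw [h2] at this
            linarith
          exact Prod.ext h3 h2
        · have h1 := hpp none
          simp only [newG] at h1
          rw [ind_ne hi] at h1
          have h2 : ∀ k, k ≠ r → g i k p.1 = g i k p'.1 := by
            intro k hk
            have := hpp (some k)
            simp only [newG] at this
            rw [ind_ne hi, ind_ne hk] at this
            linarith
          have h3 : g i r p.1 - g i r p'.1 = -(ε * (p.2 - p'.2)) := by
            have := hpp (some r)
            simp only [newG] at this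
            rw [ind_ne hi, ind_self] at this
            linarith
          have h4 : F i p.1 - F i p'.1 = φ i r * (g i r p.1 - g i r p'.1) := by
            rw [hφ i p.1, hφ i p'.1, ← Finset.sum_sub_distrib]
            rw [Finset.sum_eq_single r]
            · ring
            · intro k _ hk
              rw [h2 k hk]; ring
            · intro hh; exact absurd (Finset.mem_univ r) hh
          have h5 : (p.2 - p'.2) * (1 - ε * φ i r) = 0 := by
            rw [h3] at h4
            linear_combination (-1) * h1 - h4
          have h6 : p.2 - p'.2 = 0 := by
            rcases mul_eq_zero.mp h5 with h7 | h7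
            · exact h7
            · exact absurd h7 (he1' i).ne'
          have h7 : p.1 = p'.1 := by
            apply h.inj i
            intro k
            by_cases hk : k = r
            · rw [hk]
              rw [h6] at h3
              linarith
            · exact h2 k hk
          exact Prod.ext h7 (by linarith)
    · -- contacts
      have hsymm : ∀ i j, (∃ x, newG g r F ε i j x = 0 ∧ ∀ k, k ≠ i → k ≠ j →
          0 < newG g r F ε i k x ∧ 0 < newG g r F ε j k x) →
          (∃ x, newG g r F ε j i x = 0 ∧ ∀ k, k ≠ j → k ≠ i →
          0 < newG g r F ε j k x ∧ 0 < newG g r F ε i k x) := by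
        rintro i j ⟨x, hx0, hx⟩
        exact ⟨x, by rw [hanti i j, hx0]; simp, fun k h1 h2 => (hx k h2 h1).symm⟩
      -- new member with the root
      have c1 : ∃ x, newG g r F ε none (some r) x = 0 ∧ ∀ k, k ≠ none → k ≠ some r →
          0 < newG g r F ε none k x ∧ 0 < newG g r F ε (some r) k x := by
        obtain ⟨x, hx⟩ := hF.star
        refine ⟨(x, 0), ?_, ?_⟩
        · simp only [newG]; rw [hF.root]; ring
        · intro k hk1 hk2
          rcases k with _ | k
          · exact absurd rfl hk1
          · have hk : k ≠ r := fun e => hk2 (by rw [e])
            simp only [newG]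
            have := hx k hk
            constructor <;> linarith [this.1, this.2]
      -- new member with the others
      have c2 : ∀ j, j ≠ r → ∃ x, newG g r F ε none (some j) x = 0 ∧ ∀ k, k ≠ none → k ≠ some j →
          0 < newG g r F ε none k x ∧ 0 < newG g r F ε (some j) k x := by
        intro j hj
        have hev : ∀ᶠ η : ℝ in 𝓝[>] 0, ∀ m, m ≠ r → m ≠ j →
            0 < F m (X j) + η * ((F m (yp j) - F m (X j)) - F j (yp j)) ∧
            0 < g j m (X j) + η * (g j m (yp j) - g j m (X j)) := by
          rw [Filter.eventually_all]
          intro m
          by_cases hm : m = r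
          · simp [hm]
          by_cases hmj : m = j
          · simp [hmj]
          filter_upwards [ev_lin _ ((F m (yp j) - F m (X j)) - F j (yp j)) (hF.FX j hj m hm hmj),
            ev_lin _ (g j m (yp j) - g j m (X j)) (hF.Xg j hj m hm hmj).2] with η h1 h2 _ _
          exact ⟨h1, h2⟩
        obtain ⟨η, hη1, hη0⟩ := (hev.and self_mem_nhdsWithin).exists
        have hη : 0 < η := hη0
        have hFj : F j (seg (X j) (yp j) η) = η * F j (yp j) := by
          rw [(hF.aff j).seg, hF.FX0 j hj]; ring
        refine ⟨(seg (X j) (yp j) η, -(η * F j (yp j))), ?_, ?_⟩
        · simp only [newG]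
          rw [hFj, ind_ne hj]; ring
        · intro k hk1 hk2
          rcases k with _ | k
          · exact absurd rfl hk1
          · have hkj : k ≠ j := fun e => hk2 (by rw [e])
            by_cases hk : k = r
            · subst hk
              simp only [newG]
              rw [hF.root, ind_self, ind_ne hj, h.anti k j, (h.aff k j).seg, hF.X0 j hj]
              have h1 : 0 < η * F j (yp j) := mul_pos hη (hyp j hj).2
              have h2 := he3 j hj
              have h3 : 0 < η * (-(g k j (yp j)) + ε * (-(F j (yp j)))) := mul_pos hη h2
              constructor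
              · linarith
              · nlinarith
            · simp only [newG]
              rw [ind_ne hk, ind_ne hj, (hF.aff k).seg, (h.aff j k).seg]
              obtain ⟨h1, h2⟩ := hη1 k hk hkj
              constructor
              · linarith
              · linarith
      -- root with the others
      have c3 : ∀ j, j ≠ r → ∃ x, newG g r F ε (some r) (some j) x = 0 ∧
          ∀ k, k ≠ some r → k ≠ some j →
          0 < newG g r F ε (some r) k x ∧ 0 < newG g r F ε (some j) k x := by
        intro j hj
        obtain ⟨y, hy0, hy1⟩ := hF.neg j hj
        have hev : ∀ᶠ η : ℝ in 𝓝[>] 0, ∀ m, m ≠ r → m ≠ j →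
            0 < g r m (X j) + η * (g r m y - g r m (X j)) ∧
            0 < g j m (X j) + η * (g j m y - g j m (X j)) := by
          rw [Filter.eventually_all]
          intro m
          by_cases hm : m = r
          · simp [hm]
          by_cases hmj : m = j
          · simp [hmj]
          filter_upwards [ev_lin _ (g r m y - g r m (X j)) (hF.Xg j hj m hm hmj).1,
            ev_lin _ (g j m y - g j m (X j)) (hF.Xg j hj m hm hmj).2] with η h1 h2 _ _
          exact ⟨h1, h2⟩
        obtain ⟨η, hη1, hη0⟩ := (hev.and self_mem_nhdsWithin).exists
        have hη : 0 < η := hη0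
        set x1 := seg (X j) y η with hx1
        have a1 : g r j x1 = 0 := by
          rw [hx1, (h.aff r j).seg, hF.X0 j hj, hy0]; ring
        have a2 : F j x1 < 0 := by
          rw [hx1, (hF.aff j).seg, hF.FX0 j hj]
          nlinarith
        have a3 : ∀ m, m ≠ r → m ≠ j → 0 < g r m x1 ∧ 0 < g j m x1 := by
          intro m hm hmj
          rw [hx1, (h.aff r m).seg, (h.aff j m).seg]
          exact hη1 m hm hmj
        obtain ⟨v, hv0, hv1⟩ := h.vertex hc r j hj
        have hev2 : ∀ᶠ τ : ℝ in 𝓝[>] 0, ∀ m, m ≠ r → m ≠ j →
            0 < g r m x1 + τ * ((g r m v - g r m x1) - g r j v) ∧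
            0 < g j m x1 + τ * (g j m v - g j m x1) := by
          rw [Filter.eventually_all]
          intro m
          by_cases hm : m = r
          · simp [hm]
          by_cases hmj : m = j
          · simp [hmj]
          filter_upwards [ev_lin _ ((g r m v - g r m x1) - g r j v) (a3 m hm hmj).1,
            ev_lin _ (g j m v - g j m x1) (a3 m hm hmj).2] with η h1 h2 _ _
          exact ⟨h1, h2⟩
        have hev3 : ∀ᶠ τ : ℝ in 𝓝[>] 0,
            0 < -(F j x1) + τ * (-(F j v - F j x1) - g r j v / ε) :=
          ev_lin _ _ (by linarith)
        obtain ⟨τ, ht1, ht2, ht0⟩ := (hev2.and (hev3.and self_mem_nhdsWithin)).exists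
        have hτ : 0 < τ := ht0
        have hz : 0 < τ * g r j v / ε := by positivity
        have hεz : ε * (τ * g r j v / ε) = τ * g r j v := by field_simp
        refine ⟨(seg x1 v τ, τ * g r j v / ε), ?_, ?_⟩
        · simp only [newG]
          rw [ind_self, ind_ne hj, (h.aff r j).seg, a1]
          linear_combination (-1) * hεz
        · intro k hk1 hk2
          rcases k with _ | k
          · simp only [newG]
            rw [hF.root, ind_self, ind_ne hj, (hF.aff j).seg]
            constructor
            · linarith
            · have : τ * (-(F j v - F j x1) - g r j v / ε) =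
                τ * (-(F j v - F j x1)) - τ * g r j v / ε := by ring
              linarith
          · have hk : k ≠ r := fun e => hk1 (by rw [e])
            have hkj : k ≠ j := fun e => hk2 (by rw [e])
            simp only [newG]
            rw [ind_self, ind_ne hj, ind_ne hk, (h.aff r k).seg, (h.aff j k).seg]
            obtain ⟨h1, h2⟩ := ht1 k hk hkj
            constructor
            · have : ε * (0 - 1) * (τ * g r j v / ε) = -(τ * g r j v) := by
                linear_combination (-1) * hεz
              rw [this]
              linarith
            · linarith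
      -- two others
      have c4 : ∀ j k, j ≠ r → k ≠ r → j ≠ k → ∃ x, newG g r F ε (some j) (some k) x = 0 ∧
          ∀ m, m ≠ some j → m ≠ some k →
          0 < newG g r F ε (some j) m x ∧ 0 < newG g r F ε (some k) m x := by
        intro j k hj hk hjk
        obtain ⟨h1, h2⟩ := hXc j k hjk
        refine ⟨(Xc j k, -(Z j k)), ?_, ?_⟩
        · simp only [newG]
          rw [ind_ne hj, ind_ne hk, h1]; ring
        · intro m hm1 hm2
          rcases m with _ | m
          · simp only [newG]
            rw [ind_ne hj, ind_ne hk]
            have b1 := le_abs_self (F j (Xc j k))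
            have b2 := le_abs_self (F k (Xc j k))
            have b3 := abs_nonneg (F j (Xc j k))
            have b4 := abs_nonneg (F k (Xc j k))
            simp only [Z]
            constructor <;> linarith
          · have hmj : m ≠ j := fun e => hm1 (by rw [e])
            have hmk : m ≠ k := fun e => hm2 (by rw [e])
            by_cases hm : m = r
            · subst hm
              simp only [newG]
              rw [ind_ne hj, ind_ne hk, ind_self]
              obtain ⟨h3, h4⟩ := he4 j k hj hk hjk
              constructor <;> linarith
            · simp only [newG]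
              rw [ind_ne hj, ind_ne hk, ind_ne hm]
              obtain ⟨h3, h4⟩ := h2 m hmj hmk
              constructor <;> linarith
      intro i j hij
      rcases i with _ | i
      · rcases j with _ | j
        · exact absurd rfl hij
        · by_cases hj : j = r
          · subst hj; exact c1
          · exact c2 j hj
      · rcases j with _ | j
        · by_cases hi : i = r
          · subst hi; exact hsymm _ _ c1
          · exact hsymm _ _ (c2 i hi)
        · have hij' : i ≠ j := fun e => hij (by rw [e])
          by_cases hi : i = r
          · subst hi
            exact c3 j (Ne.symm hij')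
          · by_cases hj : j = r
            · subst hj
              exact hsymm _ _ (c3 i hi)
            · exact c4 i j hi hj hij'
  · -- slice data
    intro j0 hj0
    let A : ι → ℝ := fun k => F j0 (X k)
    let B : ι → ℝ := fun k => F j0 (yp k) - F j0 (X k)
    let Y : ι → ℝ := fun k => F k (yp k)
    let η : ι → ℝ → ℝ := fun k θ => θ * A k / (Y k + θ * (Y k - B k))
    have hYpos : ∀ k, k ≠ r → 0 < Y k := fun k hk => (hyp k hk).2
    have hApos : ∀ k, k ≠ r → k ≠ j0 → 0 < A k := fun k hk hkj => hF.FX k hk j0 hj0 (Ne.symm hkj)
    have hden : ∀ᶠ θ : ℝ in 𝓝[>] 0, ∀ k, k ≠ r → 0 < Y k + θ * (Y k - B k) := by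
      rw [Filter.eventually_all]
      intro k
      by_cases hk : k = r
      · simp [hk]
      filter_upwards [ev_lin _ (Y k - B k) (hYpos k hk)] with θ h1 _
      exact h1
    have hη : ∀ k, k ≠ r → k ≠ j0 → Tendsto (η k) (𝓝[>] 0) (𝓝[>] 0) := by
      intro k hk hkj
      have hA := hApos k hk hkj
      have hY := hYpos k hk
      have hcont : ContinuousAt (η k) 0 := by
        apply ContinuousAt.div
        · fun_prop
        · fun_prop
        · simp only [zero_mul, add_zero]
          exact hY.ne'
      have h0 : η k 0 = 0 := by simp [η]
      apply tendsto_nhdsWithin_of_tendsto_nhds_of_eventually_within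
      · have := hcont.tendsto
        rw [h0] at this
        exact this.mono_left nhdsWithin_le_nhds
      · filter_upwards [self_mem_nhdsWithin, hden] with θ hθ hd
        have hθ' : 0 < θ := hθ
        have := hd k hk
        show 0 < η k θ
        simp only [η]
        positivity
    have hev : ∀ᶠ θ : ℝ in 𝓝[>] 0, ∀ k, k ≠ r → k ≠ j0 → ∀ m, m ≠ r → m ≠ k →
        0 < F m (X k) + η k θ * ((F m (yp k) - F m (X k)) - F k (yp k)) ∧
        0 < g k m (X k) + η k θ * (g k m (yp k) - g k m (X k)) := by
      rw [Filter.eventually_all]
      intro k
      by_cases hk : k = r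
      · simp [hk]
      by_cases hkj : k = j0
      · simp [hkj]
      have h1 : ∀ᶠ t : ℝ in 𝓝[>] 0, ∀ m, m ≠ r → m ≠ k →
          0 < F m (X k) + t * ((F m (yp k) - F m (X k)) - F k (yp k)) ∧
          0 < g k m (X k) + t * (g k m (yp k) - g k m (X k)) := by
        rw [Filter.eventually_all]
        intro m
        by_cases hm : m = r
        · simp [hm]
        by_cases hmk : m = k
        · simp [hmk]
        filter_upwards [ev_lin _ ((F m (yp k) - F m (X k)) - F k (yp k)) (hF.FX k hk m hm hmk),
          ev_lin _ (g k m (yp k) - g k m (X k)) (hF.Xg k hk m hm hmk).2] with η h1 h2 _ _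
        exact ⟨h1, h2⟩
      filter_upwards [(hη k hk hkj).eventually h1] with θ hθ _ _
      exact hθ
    obtain ⟨θ, ht1, ht2, ht0⟩ := (hev.and (hden.and self_mem_nhdsWithin)).exists
    have hθ : 0 < θ := ht0
    refine ⟨θ, hθ, ?_⟩
    intro o ho1 ho2 ho3
    rcases o with _ | k
    · exact absurd rfl ho1
    · have hk : k ≠ r := fun e => ho2 (by rw [e])
      have hkj : k ≠ j0 := fun e => ho3 (by rw [e])
      have hd := ht2 k hk
      have hηpos : 0 < η k θ := by
        have hA := hApos k hk hkj
        simp only [η]
        positivity
      have hFk : F k (seg (X k) (yp k) (η k θ)) = η k θ * F k (yp k) := by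
        rw [(hF.aff k).seg, hF.FX0 k hk]; ring
      refine ⟨(seg (X k) (yp k) (η k θ), -(η k θ * F k (yp k))), ?_, ?_, ?_⟩
      · simp only [newG]
        rw [hFk, ind_ne hk]; ring
      · simp only [newG]
        rw [hF.root, ind_self, ind_ne hj0, (hF.aff j0).seg]
        have e1 : η k θ * (Y k + θ * (Y k - B k)) = θ * A k := by
          simp only [η]
          field_simp
        simp only [Y, B, A] at e1
        linear_combination e1
      · intro m hm1 hm2
        rcases m with _ | m
        · exact absurd rfl hm1
        · have hmk : m ≠ k := fun e => hm2 (by rw [e])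
          by_cases hm : m = r
          · subst hm
            simp only [newG]
            rw [hF.root, ind_self, ind_ne hk, h.anti m k, (h.aff m k).seg, hF.X0 k hk]
            have h1 : 0 < η k θ * F k (yp k) := mul_pos hηpos (hyp k hk).2
            have h2 := he3 k hk
            have h3 : 0 < η k θ * (-(g m k (yp k)) + ε * (-(F k (yp k)))) := mul_pos hηpos h2
            constructor
            · linarith
            · nlinarith
          · simp only [newG]
            rw [ind_ne hm, ind_ne hk, (hF.aff m).seg, (h.aff k m).seg]
            obtain ⟨h1, h2⟩ := ht1 k hk hkj m hm hmk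
            constructor
            · linarith
            · linarith

end Pool.Agent.H392R3
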